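import Mathlib

set_option autoImplicit false

/-!
# Illumination of alcoved polytopes

Auxiliary results: symmetric chain decompositions as families of orders; illumination implies
covering; the elimination procedure for alcoved polytopes.
-/

namespace Pool.Agent.TH154.Alc

open Finset

/-! ### Symmetric chains -/

/-- Insert the new element `s` at position `p` in the ranking `r` of `0, …, s - 1`. -/
def ins (s : ℕ) (r : ℕ → ℕ) (p : ℕ) : ℕ → ℕ :=
  fun i => if i = s then p else if r i < p then r i else r i + 1

theorem chains (s : ℕ) : ∃ C : ℕ → Finset (ℕ → ℕ),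
    (∀ a, 2 * a ≤ s → ∑ b ∈ range (a + 1), (C b).card ≤ s.choose a) ∧
    ∀ S : Set ℕ, ∃ a k, 2 * a ≤ s ∧ a ≤ k ∧ k + a ≤ s ∧ ∃ r ∈ C a, ∀ i < s, i ∈ S ↔ r i < k := by
  classical
  induction s with
  | zero =>
    refine ⟨fun a => if a = 0 then {id} else ∅, ?_, ?_⟩
    · intro a ha
      have : a = 0 := by omega
      subst this
      simp
    · intro S
      exact ⟨0, 0, by simp, le_rfl, by simp, id, by simp, by simp⟩
  | succ s ih =>
    obtain ⟨C, hC, hS⟩ := ih
    -- the new family
    let D : ℕ → Finset (ℕ → ℕ) := fun a =>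
      (if 2 * a ≤ s then (C a).image (fun r => ins s r (s - a)) else ∅) ∪
      (if 0 < a then (C (a - 1)).image (fun r => ins s r (a - 1)) else ∅)
    have hDcard : ∀ a, (D a).card ≤ (if 2 * a ≤ s then (C a).card else 0) +
        (if 0 < a then (C (a - 1)).card else 0) := by
      intro a
      refine (card_union_le _ _).trans (add_le_add ?_ ?_)
      · split_ifs
        · exact card_image_le
        · simp
      · split_ifs
        · exact card_image_le
        · simp
    refine ⟨D, ?_, ?_⟩
    · intro a ha
      have h1 : ∑ b ∈ range (a + 1), (D b).card ≤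
          ∑ b ∈ range (a + 1), (if 2 * b ≤ s then (C b).card else 0) +
          ∑ b ∈ range (a + 1), (if 0 < b then (C (b - 1)).card else 0) := by
        rw [← sum_add_distrib]
        exact sum_le_sum fun b _ => hDcard b
      have h2 : ∑ b ∈ range (a + 1), (if 0 < b then (C (b - 1)).card else 0) =
          ∑ b ∈ range a, (C b).card := by
        rw [sum_range_succ']
        simp
      rw [h2] at h1
      rcases Nat.eq_zero_or_pos a with rfl | hapos
      · refine h1.trans ?_
        have := hC 0 (by omega)
        simp at this ⊢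
        exact this
      · obtain ⟨a', rfl⟩ : ∃ a', a = a' + 1 := ⟨a - 1, by omega⟩
        have h3 := hC a' (by omega)
        by_cases has : 2 * (a' + 1) ≤ s
        · have h4 := hC (a' + 1) has
          have h5 : ∑ b ∈ range (a' + 1 + 1), (if 2 * b ≤ s then (C b).card else 0) ≤
              ∑ b ∈ range (a' + 1 + 1), (C b).card := by
            refine sum_le_sum fun b _ => ?_
            split_ifs <;> simp
          rw [Nat.choose_succ_succ']
          omega
        · have h5 : ∑ b ∈ range (a' + 1 + 1), (if 2 * b ≤ s then (C b).card else 0) ≤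
              ∑ b ∈ range (a' + 1), (C b).card := by
            rw [sum_range_succ, if_neg has, add_zero]
            refine sum_le_sum fun b _ => ?_
            split_ifs <;> simp
          have h6 : s = 2 * a' + 1 := by omega
          have h7 : s.choose (a' + 1) = s.choose a' := by
            rw [h6]
            exact Nat.choose_symm_half a'
          rw [Nat.choose_succ_succ']
          omega
    · intro S
      obtain ⟨a, k, h2a, hak, hka, r, hr, hrS⟩ := hS S
      by_cases hs : s ∈ S
      · by_cases hk : k + a = s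
        · -- top of the chain
          refine ⟨a, k + 1, by omega, by omega, by omega, ins s r (s - a), ?_, ?_⟩
          · simp only [D, mem_union]
            left
            rw [if_pos h2a]
            exact mem_image_of_mem _ hr
          · intro i hi
            by_cases his : i = s
            · subst his
              simp only [ins, if_true, hs, true_iff]
              omega
            · have := hrS i (by omega)
              rw [this]
              simp only [ins, if_neg his]
              split_ifs <;> omega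
        · refine ⟨a + 1, k + 1, by omega, by omega, by omega, ins s r a, ?_, ?_⟩
          · simp only [D, mem_union]
            right
            rw [if_pos (by omega)]
            exact mem_image_of_mem _ hr
          · intro i hi
            by_cases his : i = s
            · subst his
              simp only [ins, if_true, hs, true_iff]
              omega
            · have := hrS i (by omega)
              rw [this]
              simp only [ins, if_neg his]
              split_ifs <;> omega
      · refine ⟨a, k, by omega, by omega, by omega, ins s r (s - a), ?_, ?_⟩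
        · simp only [D, mem_union]
          left
          rw [if_pos h2a]
          exact mem_image_of_mem _ hr
        · intro i hi
          by_cases his : i = s
          · subst his
            simp only [ins, if_true, hs, false_iff]
            omega
          · have := hrS i (by omega)
            rw [this]
            simp only [ins, if_neg his]
            split_ifs <;> omega

/-- There are `s.choose (s / 2)` rankings of `0, …, s - 1` such that every subset is an initial
segment of one of them. -/
theorem rankings (s : ℕ) : ∃ R : Finset (ℕ → ℕ), R.card ≤ s.choose (s / 2) ∧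
    ∀ S : Set ℕ, ∃ r ∈ R, ∀ i < s, ∀ j < s, i ∈ S → j ∉ S → r i < r j := by
  classical
  obtain ⟨C, hC, hS⟩ := chains s
  refine ⟨(range (s / 2 + 1)).biUnion C, ?_, ?_⟩
  · exact card_biUnion_le.trans (hC _ (by omega))
  · intro S
    obtain ⟨a, k, h2a, hak, hka, r, hr, hrS⟩ := hS S
    refine ⟨r, ?_, ?_⟩
    · rw [mem_biUnion]
      exact ⟨a, mem_range.2 (by omega), hr⟩
    · intro i hi j hj hiS hjS
      rw [hrS i hi] at hiS
      rw [hrS j hj] at hjS
      omega

/-! ### Directions for the functions on a quasi-metric space -/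

/-- The increment `d` strictly decreases all tight differences of `f`. -/
def Good {N : ℕ} (c : Fin N → Fin N → ℝ) (f : Fin N → ℝ) (m : ℕ) (ρ : Fin N → ℕ)
    (d : Fin N → ℝ) : Prop :=
  ∀ i j, i ≠ j → ρ i < m → ρ j < m → f i - f j = c i j → d i < d j

theorem base_dirs {N : ℕ} (c : Fin N → Fin N → ℝ) (s : ℕ)
    (hpos : ∀ i j, i ≠ j → 0 < c i j + c j i) (ρ : Fin N → ℕ) (hρ : Function.Injective ρ)
    (hstr : ∀ i j k, i ≠ j → i ≠ k → j ≠ k → ρ i < s → ρ j < s → ρ k < s →
      c i j < c i k + c k j) :
    ∃ D : Finset (Fin N → ℝ), D.card ≤ s.choose (s / 2) ∧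
      ∀ f : Fin N → ℝ, (∀ i j, f i - f j ≤ c i j) → ∃ d ∈ D, Good c f s ρ d := by
  classical
  obtain ⟨R, hR, hRS⟩ := rankings s
  refine ⟨R.image (fun r i => (r (ρ i) : ℝ)), card_image_le.trans hR, ?_⟩
  intro f hf
  obtain ⟨r, hr, h⟩ := hRS {m | ∃ i, ρ i = m ∧ m < s ∧ ∃ j, j ≠ i ∧ ρ j < s ∧ f i - f j = c i j}
  refine ⟨_, mem_image_of_mem _ hr, ?_⟩
  intro i j hij hi hj hfij
  have h1 := h (ρ i) hi (ρ j) hj ⟨i, rfl, hi, j, hij.symm, hj, hfij⟩ ?_
  · show (r (ρ i) : ℝ) < r (ρ j)
    exact_mod_cast h1
  · rintro ⟨j', hj', -, k, hkj, hk, hfk⟩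
    have : j' = j := hρ hj'
    subst this
    by_cases hki : k = i
    · subst hki
      have := hpos k j' hij
      linarith
    · have h2 := hstr i k j' (Ne.symm hki) hij hkj hi hk hj
      have h3 := hf i k
      linarith

theorem step_dirs {N : ℕ} (c : Fin N → Fin N → ℝ) (m : ℕ)
    (hpos : ∀ i j, i ≠ j → 0 < c i j + c j i) (ρ : Fin N → ℕ) (hρ : Function.Injective ρ)
    (helim : ∀ i j k, i ≠ j → ρ i < m → ρ j < m → ρ k = m → c i j < c i k + c k j)
    (D : Finset (Fin N → ℝ))
    (hD : ∀ f : Fin N → ℝ, (∀ i j, f i - f j ≤ c i j) → ∃ d ∈ D, Good c f m ρ d) :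
    ∃ D' : Finset (Fin N → ℝ), D'.card ≤ D.card * 2 ∧
      ∀ f : Fin N → ℝ, (∀ i j, f i - f j ≤ c i j) → ∃ d ∈ D', Good c f (m + 1) ρ d := by
  classical
  by_cases hm : ∃ k, ρ k = m
  · obtain ⟨k, hk⟩ := hm
    let up : (Fin N → ℝ) → (Fin N → ℝ) := fun d => Function.update d k (∑ i, |d i| + 1)
    let dn : (Fin N → ℝ) → (Fin N → ℝ) := fun d => Function.update d k (-(∑ i, |d i| + 1))
    have habs : ∀ (d : Fin N → ℝ) i, |d i| ≤ ∑ i, |d i| := fun d i =>
      single_le_sum (f := fun i => |d i|) (fun _ _ => abs_nonneg _) (mem_univ i)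
    refine ⟨D.image up ∪ D.image dn, ?_, ?_⟩
    · refine (card_union_le _ _).trans ?_
      have h1 : (D.image up).card ≤ D.card := card_image_le
      have h2 : (D.image dn).card ≤ D.card := card_image_le
      omega
    · intro f hf
      obtain ⟨d, hd, hg⟩ := hD f hf
      by_cases hout : ∃ j, j ≠ k ∧ ρ j < m ∧ f k - f j = c k j
      · -- `k` comes first
        obtain ⟨j, hjk, hj, hfj⟩ := hout
        refine ⟨dn d, mem_union_right _ (mem_image_of_mem _ hd), ?_⟩
        intro a b hab ha hb hfab
        by_cases hak : a = k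
        · subst hak
          have hba : b ≠ a := hab.symm
          simp only [dn, Function.update_self, Function.update_of_ne hba]
          have := neg_abs_le (d b)
          have := habs d b
          linarith
        · by_cases hbk : b = k
          · subst hbk
            exfalso
            have hρa : ρ a < m := by
              have : ρ a ≠ ρ b := fun h => hak (hρ h)
              omega
            by_cases haj : a = j
            · subst haj
              have := hpos a b hab
              linarith
            · have := helim a j b haj hρa hj hk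
              have := hf a j
              linarith
          · simp only [dn, Function.update_of_ne hak, Function.update_of_ne hbk]
            refine hg a b hab ?_ ?_ hfab
            · have : ρ a ≠ ρ k := fun h => hak (hρ h)
              omega
            · have : ρ b ≠ ρ k := fun h => hbk (hρ h)
              omega
      · -- `k` comes last
        refine ⟨up d, mem_union_left _ (mem_image_of_mem _ hd), ?_⟩
        intro a b hab ha hb hfab
        by_cases hak : a = k
        · subst hak
          exfalso
          refine hout ⟨b, hab.symm, ?_, hfab⟩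
          have : ρ b ≠ ρ a := fun h => hab (hρ h).symm
          omega
        · by_cases hbk : b = k
          · subst hbk
            simp only [up, Function.update_self, Function.update_of_ne hak]
            have := le_abs_self (d a)
            have := habs d a
            linarith
          · simp only [up, Function.update_of_ne hak, Function.update_of_ne hbk]
            refine hg a b hab ?_ ?_ hfab
            · have : ρ a ≠ ρ k := fun h => hak (hρ h)
              omega
            · have : ρ b ≠ ρ k := fun h => hbk (hρ h)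
              omega
  · refine ⟨D, by omega, ?_⟩
    intro f hf
    obtain ⟨d, hd, hg⟩ := hD f hf
    refine ⟨d, hd, ?_⟩
    intro a b hab ha hb hfab
    refine hg a b hab ?_ ?_ hfab
    · have : ρ a ≠ m := fun h => hm ⟨a, h⟩
      omega
    · have : ρ b ≠ m := fun h => hm ⟨b, h⟩
      omega

/-- The combinatorial heart of the matter. -/
theorem all_dirs {N : ℕ} (c : Fin N → Fin N → ℝ) (s : ℕ)
    (hpos : ∀ i j, i ≠ j → 0 < c i j + c j i) (ρ : Fin N → ℕ) (hρ : Function.Injective ρ)
    (hstr : ∀ i j k, i ≠ j → i ≠ k → j ≠ k → ρ i < s → ρ j < s → ρ k < s →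
      c i j < c i k + c k j)
    (helim : ∀ i j k, i ≠ j → ρ i < ρ k → ρ j < ρ k → s ≤ ρ k → c i j < c i k + c k j)
    (t : ℕ) :
    ∃ D : Finset (Fin N → ℝ), D.card ≤ s.choose (s / 2) * 2 ^ t ∧
      ∀ f : Fin N → ℝ, (∀ i j, f i - f j ≤ c i j) → ∃ d ∈ D, Good c f (s + t) ρ d := by
  induction t with
  | zero =>
    simpa using base_dirs c s hpos ρ hρ hstr
  | succ t ih =>
    obtain ⟨D, hD, hDf⟩ := ih
    obtain ⟨D', hD', hDf'⟩ := step_dirs c (s + t) hpos ρ hρ
      (fun i j k hij hi hj hk => helim i j k hij (by omega) (by omega) (by omega)) D hDf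
    refine ⟨D', ?_, hDf'⟩
    rw [pow_succ, ← mul_assoc]
    exact hD'.trans (Nat.mul_le_mul_right _ hD)

/-! ### Illumination and covering -/

/-- A convex body illuminated by finitely many directions is covered by as many translates of its
interior. -/
theorem cover_of_illum {E : Type*} [NormedAddCommGroup E] [NormedSpace ℝ E] {K : Set E}
    (hK : Convex ℝ K) (hKc : IsCompact K) (D : Finset E)
    (h : ∀ x ∈ K, ∃ v ∈ D, ∃ ε : ℝ, 0 < ε ∧ x + ε • v ∈ interior K) :
    ∃ T : Finset E, T.card ≤ D.card ∧ K ⊆ ⋃ t ∈ T, (fun x => t + x) '' interior K := by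
  classical
  -- open sets
  let U : ℕ → Set E := fun k => Kᶜ ∪ ⋃ v ∈ D, {y | y + ((1 : ℝ) / (k + 1)) • v ∈ interior K}
  have hUo : ∀ k, IsOpen (U k) := by
    intro k
    refine hKc.isClosed.isOpen_compl.union (isOpen_biUnion fun v _ => ?_)
    exact isOpen_interior.preimage (by fun_prop)
  have key : ∀ x ∈ K, ∀ (v : E) (ε ε' : ℝ), 0 < ε' → ε' ≤ ε → x + ε • v ∈ interior K →
      x + ε' • v ∈ interior K := by
    intro x hx v ε ε' h0 hle hin
    have hε : 0 < ε := h0.trans_le hle
    have := hK.combo_closure_interior_mem_interior (subset_closure hx) hin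
      (a := 1 - ε' / ε) (b := ε' / ε) (by rw [sub_nonneg, div_le_one hε]; exact hle)
      (by positivity) (by ring)
    have e : (1 - ε' / ε) • x + (ε' / ε) • (x + ε • v) = x + ε' • v := by
      rw [smul_add, smul_smul, div_mul_cancel₀ _ hε.ne', sub_smul, one_smul]
      abel
    rwa [e] at this
  have hUm : Monotone U := by
    intro k l hkl x hx
    rcases hx with hx | hx
    · exact Or.inl hx
    · by_cases hxK : x ∈ K
      · right
        simp only [Set.mem_iUnion, Set.mem_ofPred_eq] at hx ⊢
        obtain ⟨v, hv, hin⟩ := hx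
        refine ⟨v, hv, key x hxK v _ _ (by positivity) ?_ hin⟩
        have : (k : ℝ) ≤ l := by exact_mod_cast hkl
        gcongr
      · exact Or.inl hxK
  have hKU : K ⊆ ⋃ k, U k := by
    intro x hx
    obtain ⟨v, hv, ε, hε, hin⟩ := h x hx
    obtain ⟨k, hk⟩ := exists_nat_one_div_lt hε
    refine Set.mem_iUnion.2 ⟨k, Or.inr ?_⟩
    simp only [Set.mem_iUnion, Set.mem_ofPred_eq]
    exact ⟨v, hv, key x hx v _ _ (by positivity) hk.le hin⟩
  obtain ⟨k, hk⟩ := hKc.elim_directed_cover U hUo hKU (directed_of_isDirected_le hUm)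
  refine ⟨D.image (fun v => -(((1 : ℝ) / (k + 1)) • v)), card_image_le, ?_⟩
  intro x hx
  rcases hk hx with h1 | h1
  · exact absurd hx h1
  · simp only [Set.mem_iUnion, Set.mem_ofPred_eq] at h1
    obtain ⟨v, hv, hin⟩ := h1
    simp only [Set.mem_iUnion, Set.mem_image]
    exact ⟨_, mem_image_of_mem _ hv, _, hin, by abel⟩

/-! ### Alcoved bodies -/

/-- The function on `{0, …, n}` with values `0, x 0, …, x (n - 1)`. -/
def fn {n : ℕ} (x : EuclideanSpace ℝ (Fin n)) : Fin (n + 1) → ℝ :=
  Fin.cons 0 (fun i => x i)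

/-- The alcoved body of `c`. -/
def body {n : ℕ} (c : Fin (n + 1) → Fin (n + 1) → ℝ) : Set (EuclideanSpace ℝ (Fin n)) :=
  {x | ∀ i j, fn x i - fn x j ≤ c i j}

/-- The vector of the increments of `d`. -/
noncomputable def vec {n : ℕ} (d : Fin (n + 1) → ℝ) : EuclideanSpace ℝ (Fin n) :=
  WithLp.toLp 2 (fun i => d i.succ - d 0)

theorem fn_vec {n : ℕ} (d : Fin (n + 1) → ℝ) (i : Fin (n + 1)) : fn (vec d) i = d i - d 0 := by
  refine Fin.cases ?_ (fun i => ?_) i
  · simp [fn]
  · simp [fn, vec]

theorem fn_add {n : ℕ} (x y : EuclideanSpace ℝ (Fin n)) (i : Fin (n + 1)) :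
    fn (x + y) i = fn x i + fn y i := by
  refine Fin.cases ?_ (fun i => ?_) i
  · simp [fn]
  · simp [fn]

theorem fn_sub {n : ℕ} (x y : EuclideanSpace ℝ (Fin n)) (i : Fin (n + 1)) :
    fn (x - y) i = fn x i - fn y i := by
  refine Fin.cases ?_ (fun i => ?_) i
  · simp [fn]
  · simp [fn]

theorem fn_smul {n : ℕ} (a : ℝ) (x : EuclideanSpace ℝ (Fin n)) (i : Fin (n + 1)) :
    fn (a • x) i = a * fn x i := by
  refine Fin.cases ?_ (fun i => ?_) i
  · simp [fn]
  · simp [fn]

theorem continuous_fn {n : ℕ} (i : Fin (n + 1)) :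
    Continuous fun x : EuclideanSpace ℝ (Fin n) => fn x i := by
  refine Fin.cases ?_ (fun i => ?_) i
  · simp only [fn, Fin.cons_zero]
    exact continuous_const
  · simp only [fn, Fin.cons_succ]
    fun_prop

theorem convex_body {n : ℕ} (c : Fin (n + 1) → Fin (n + 1) → ℝ) : Convex ℝ (body c) := by
  intro x hx y hy a b ha hb hab i j
  have h1 := hx i j
  have h2 := hy i j
  rw [fn_add, fn_add, fn_smul, fn_smul, fn_smul, fn_smul]
  have : a * (fn x i - fn x j) + b * (fn y i - fn y j) ≤ a * c i j + b * c i j := by gcongr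
  have e : a * c i j + b * c i j = c i j := by rw [← add_mul, hab, one_mul]
  linarith

theorem isCompact_body {n : ℕ} (c : Fin (n + 1) → Fin (n + 1) → ℝ) : IsCompact (body c) := by
  have hcl : IsClosed (body c) := by
    have : body c = ⋂ i, ⋂ j, {x | fn x i - fn x j ≤ c i j} := by
      ext x
      simp [body]
    rw [this]
    refine isClosed_iInter fun i => isClosed_iInter fun j => ?_
    exact isClosed_le ((continuous_fn i).sub (continuous_fn j)) continuous_const
  have hK : IsCompact ((EuclideanSpace.equiv (Fin n) ℝ).toHomeomorph ⁻¹'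
      (Set.univ.pi fun i : Fin n => Set.Icc (-c 0 i.succ) (c i.succ 0))) := by
    rw [Homeomorph.isCompact_preimage]
    exact isCompact_univ_pi fun _ => isCompact_Icc
  refine hK.of_isClosed_subset hcl ?_
  intro x hx i _
  have h1 := hx i.succ 0
  have h2 := hx 0 i.succ
  simp only [fn, Fin.cons_succ, Fin.cons_zero] at h1 h2
  constructor
  · show -c 0 i.succ ≤ x i
    linarith
  · show x i ≤ c i.succ 0
    linarith

theorem mem_interior_of_strict {n : ℕ} (c : Fin (n + 1) → Fin (n + 1) → ℝ)
    (h0 : ∀ i, 0 ≤ c i i) (x : EuclideanSpace ℝ (Fin n))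
    (hx : ∀ i j, i ≠ j → fn x i - fn x j < c i j) : x ∈ interior (body c) := by
  rw [mem_interior]
  refine ⟨{y | ∀ i j, i ≠ j → fn y i - fn y j < c i j}, ?_, ?_, hx⟩
  · intro y hy i j
    by_cases hij : i = j
    · subst hij
      simpa using h0 i
    · exact (hy i j hij).le
  · have : {y : EuclideanSpace ℝ (Fin n) | ∀ i j, i ≠ j → fn y i - fn y j < c i j} =
        ⋂ i, ⋂ j, ⋂ (_ : i ≠ j), {y | fn y i - fn y j < c i j} := by
      ext y
      simp
    rw [this]
    refine isOpen_iInter_of_finite fun i => isOpen_iInter_of_finite fun j =>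
      isOpen_iInter_of_finite fun _ => ?_
    exact isOpen_lt ((continuous_fn i).sub (continuous_fn j)) continuous_const

theorem strict_of_mem_interior {n : ℕ} (c : Fin (n + 1) → Fin (n + 1) → ℝ)
    (x : EuclideanSpace ℝ (Fin n)) (hx : x ∈ interior (body c)) (i j : Fin (n + 1))
    (hij : i ≠ j) : fn x i - fn x j < c i j := by
  classical
  set v : EuclideanSpace ℝ (Fin n) := vec (fun k => if k = i then 1 else 0) with hv
  have hcont : Filter.Tendsto (fun δ : ℝ => x + δ • v) (nhds 0) (nhds (x + (0 : ℝ) • v)) := by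
    apply Continuous.tendsto
    fun_prop
  rw [zero_smul, add_zero] at hcont
  have hev : ∀ᶠ δ : ℝ in nhds 0, x + δ • v ∈ body c :=
    hcont.eventually (mem_interior_iff_mem_nhds.1 hx)
  have hev' : ∀ᶠ δ : ℝ in nhdsWithin 0 (Set.Ioi 0), x + δ • v ∈ body c :=
    hev.filter_mono nhdsWithin_le_nhds
  have hpos' : ∀ᶠ δ : ℝ in nhdsWithin 0 (Set.Ioi 0), δ ∈ Set.Ioi (0 : ℝ) := self_mem_nhdsWithin
  obtain ⟨δ, hmem, hδ⟩ := (hev'.and hpos').exists
  have h1 := hmem i j
  rw [fn_add, fn_add, fn_smul, fn_smul, hv, fn_vec, fn_vec, if_pos rfl, if_neg (Ne.symm hij)] at h1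
  have h2 : (0 : ℝ) < δ := hδ
  linarith

theorem illum_body {n : ℕ} (c : Fin (n + 1) → Fin (n + 1) → ℝ) (h0 : ∀ i, 0 ≤ c i i)
    (x : EuclideanSpace ℝ (Fin n)) (hx : x ∈ body c) (d : Fin (n + 1) → ℝ)
    (hd : ∀ i j, i ≠ j → fn x i - fn x j = c i j → d i < d j) :
    ∃ ε : ℝ, 0 < ε ∧ x + ε • vec d ∈ interior (body c) := by
  have hev : ∀ᶠ ε : ℝ in nhdsWithin 0 (Set.Ioi 0), ∀ i j, i ≠ j →
      fn x i - fn x j + ε * (d i - d j) < c i j := by
    rw [Filter.eventually_all]
    intro i
    rw [Filter.eventually_all]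
    intro j
    by_cases hij : i = j
    · exact Filter.Eventually.of_forall fun _ h => absurd hij h
    by_cases ht : fn x i - fn x j = c i j
    · filter_upwards [self_mem_nhdsWithin] with ε hε _
      have h1 : d i - d j < 0 := by linarith [hd i j hij ht]
      have h2 : (0 : ℝ) < ε := hε
      nlinarith
    · have hlt : fn x i - fn x j < c i j := lt_of_le_of_ne (hx i j) ht
      have hc : Filter.Tendsto (fun ε : ℝ => fn x i - fn x j + ε * (d i - d j)) (nhds 0)
          (nhds (fn x i - fn x j + 0 * (d i - d j))) := by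
        apply Continuous.tendsto
        fun_prop
      rw [zero_mul, add_zero] at hc
      filter_upwards [(hc.eventually (gt_mem_nhds hlt)).filter_mono nhdsWithin_le_nhds] with ε hε _
      exact hε
  have hpos' : ∀ᶠ δ : ℝ in nhdsWithin 0 (Set.Ioi 0), δ ∈ Set.Ioi (0 : ℝ) := self_mem_nhdsWithin
  obtain ⟨ε, h, hε⟩ := (hev.and hpos').exists
  refine ⟨ε, hε, mem_interior_of_strict c h0 _ ?_⟩
  intro i j hij
  have := h i j hij
  rw [fn_add, fn_add, fn_smul, fn_smul, fn_vec, fn_vec]
  linarith

theorem nonempty_interior {n : ℕ} (c : Fin (n + 1) → Fin (n + 1) → ℝ) (h0 : ∀ i, c i i = 0)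
    (htri : ∀ i j k, c i j ≤ c i k + c k j) (hpos : ∀ i j, i ≠ j → 0 < c i j + c j i) :
    (interior (body c)).Nonempty := by
  refine ⟨vec (fun i => (∑ k, c i k) / (n + 1)), mem_interior_of_strict c (fun i => (h0 i).ge) _ ?_⟩
  intro i j hij
  rw [fn_vec, fn_vec]
  have h1 : ∑ k, (c i k - c j k) < ∑ _k : Fin (n + 1), c i j := by
    refine Finset.sum_lt_sum (fun k _ => by linarith [htri i k j]) ⟨i, Finset.mem_univ _, ?_⟩
    rw [h0 i]
    linarith [hpos i j hij]
  rw [Finset.sum_sub_distrib, Finset.sum_const, Finset.card_univ, Fintype.card_fin,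
    nsmul_eq_mul] at h1
  push_cast at h1
  have h2 : (0 : ℝ) < n + 1 := by positivity
  have : (∑ k, c i k) / ((n : ℝ) + 1) - (∑ k, c j k) / (n + 1) < c i j := by
    rw [← sub_div, div_lt_iff₀ h2]
    linarith
  linarith

/-- `K` is covered by at most `M` translates of its interior. -/
def CoveredBy {n : ℕ} (K : Set (EuclideanSpace ℝ (Fin n))) (M : ℕ) : Prop :=
  ∃ T : Finset (EuclideanSpace ℝ (Fin n)), T.card ≤ M ∧
    K ⊆ ⋃ t ∈ T, (fun x => t + x) '' interior K

theorem covered {n : ℕ} (c : Fin (n + 1) → Fin (n + 1) → ℝ) (s : ℕ) (hs : s ≤ n + 1)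
    (h0 : ∀ i, c i i = 0) (hpos : ∀ i j, i ≠ j → 0 < c i j + c j i)
    (σ : Equiv.Perm (Fin (n + 1)))
    (hstr : ∀ i j k, i ≠ j → i ≠ k → j ≠ k → (σ i : ℕ) < s → (σ j : ℕ) < s → (σ k : ℕ) < s →
      c i j < c i k + c k j)
    (helim : ∀ i j k, i ≠ j → σ i < σ k → σ j < σ k → s ≤ (σ k : ℕ) → c i j < c i k + c k j) :
    CoveredBy (body c) (s.choose (s / 2) * 2 ^ (n + 1 - s)) := by
  classical
  obtain ⟨D, hD, hDf⟩ := all_dirs c s hpos (fun i => (σ i : ℕ))
    (fun i j h => σ.injective (Fin.ext h)) hstr
    (fun i j k hij h1 h2 h3 => helim i j k hij h1 h2 h3) (n + 1 - s)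
  obtain ⟨T, hT, hcov⟩ := cover_of_illum (convex_body c) (isCompact_body c) (D.image vec) (by
    intro x hx
    obtain ⟨d, hd, hg⟩ := hDf (fn x) hx
    obtain ⟨ε, hε, hin⟩ := illum_body c (fun i => (h0 i).ge) x hx d (by
      intro i j hij h
      refine hg i j hij ?_ ?_ h
      · show (σ i : ℕ) < s + (n + 1 - s)
        have := (σ i).is_lt
        omega
      · show (σ j : ℕ) < s + (n + 1 - s)
        have := (σ j).is_lt
        omega)
    exact ⟨vec d, Finset.mem_image_of_mem _ hd, ε, hε, hin⟩)
  exact ⟨T, hT.trans (Finset.card_image_le.trans hD), hcov⟩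

end Pool.Agent.TH154.Alc
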