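import Pool.Agent.TH154.Alcoved

set_option autoImplicit false

/-!
# Alcoved bodies: the equality case

If the quasi-metric has an elimination ordering, then `2 ^ n - 1` orders suffice unless the body is
a parallelotope.
-/

namespace Pool.Agent.TH154.Alc

open Finset

/-- `M` directions suffice for the points of rank smaller than `m`. -/
def Dirs {N : ℕ} (c : Fin N → Fin N → ℝ) (m : ℕ) (ρ : Fin N → ℕ) (M : ℕ) : Prop :=
  ∃ D : Finset (Fin N → ℝ), D.card ≤ M ∧
    ∀ f : Fin N → ℝ, (∀ i j, f i - f j ≤ c i j) → ∃ d ∈ D, Good c f m ρ d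

theorem Dirs.mono {N : ℕ} {c : Fin N → Fin N → ℝ} {m : ℕ} {ρ : Fin N → ℕ} {M M' : ℕ}
    (h : Dirs c m ρ M) (hM : M ≤ M') : Dirs c m ρ M' := by
  obtain ⟨D, hD, hf⟩ := h
  exact ⟨D, hD.trans hM, hf⟩

theorem Dirs.shift {N : ℕ} {c : Fin N → Fin N → ℝ} {m : ℕ} {ρ : Fin N → ℕ} {M : ℕ}
    (g : Fin N → ℝ) (h : Dirs (fun i j => c i j - g i + g j) m ρ M) : Dirs c m ρ M := by
  obtain ⟨D, hD, hf⟩ := h
  refine ⟨D, hD, fun f hfc => ?_⟩
  obtain ⟨d, hd, hg⟩ := hf (fun i => f i - g i) (fun i j => by linarith [hfc i j])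
  refine ⟨d, hd, fun i j hij hi hj h => hg i j hij hi hj ?_⟩
  show f i - g i - (f j - g j) = c i j - g i + g j
  linarith

theorem Dirs.transpose {N : ℕ} {c : Fin N → Fin N → ℝ} {m : ℕ} {ρ : Fin N → ℕ} {M : ℕ}
    (h : Dirs (fun i j => c j i) m ρ M) : Dirs c m ρ M := by
  classical
  obtain ⟨D, hD, hf⟩ := h
  refine ⟨D.image (fun d => -d), card_image_le.trans hD, fun f hfc => ?_⟩
  obtain ⟨d, hd, hg⟩ := hf (fun i => -f i) (fun i j => by linarith [hfc j i])
  refine ⟨-d, mem_image_of_mem _ hd, fun i j hij hi hj h => ?_⟩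
  have := hg j i hij.symm hj hi (by linarith)
  simp only [Pi.neg_apply]
  linarith

/-- Put `k` last. -/
noncomputable def up {N : ℕ} (k : Fin N) (d : Fin N → ℝ) : Fin N → ℝ :=
  Function.update d k (∑ i, |d i| + 1)

/-- Put `k` first. -/
noncomputable def dn {N : ℕ} (k : Fin N) (d : Fin N → ℝ) : Fin N → ℝ :=
  Function.update d k (-(∑ i, |d i| + 1))

theorem abs_le_sum {N : ℕ} (d : Fin N → ℝ) (i : Fin N) : |d i| ≤ ∑ i, |d i| :=
  single_le_sum (f := fun i => |d i|) (fun _ _ => abs_nonneg _) (mem_univ i)

theorem good_up {N : ℕ} {c : Fin N → Fin N → ℝ} {f : Fin N → ℝ} {m : ℕ} {ρ : Fin N → ℕ}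
    (hρ : Function.Injective ρ) {k : Fin N} (hk : ρ k = m) {d : Fin N → ℝ}
    (hg : Good c f m ρ d) (hout : ∀ j, ρ j < m → f k - f j ≠ c k j) :
    Good c f (m + 1) ρ (up k d) := by
  intro a b hab ha hb hfab
  by_cases hak : a = k
  · subst hak
    exfalso
    refine hout b ?_ hfab
    have : ρ b ≠ ρ a := fun h => hab (hρ h).symm
    omega
  · have hρa : ρ a < m := by
      have : ρ a ≠ ρ k := fun h => hak (hρ h)
      omega
    by_cases hbk : b = k
    · subst hbk
      simp only [up, Function.update_self, Function.update_of_ne hak]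
      have := le_abs_self (d a)
      have := abs_le_sum d a
      linarith
    · simp only [up, Function.update_of_ne hak, Function.update_of_ne hbk]
      refine hg a b hab hρa ?_ hfab
      have : ρ b ≠ ρ k := fun h => hbk (hρ h)
      omega

theorem good_dn {N : ℕ} {c : Fin N → Fin N → ℝ} {f : Fin N → ℝ} {m : ℕ} {ρ : Fin N → ℕ}
    (hρ : Function.Injective ρ) {k : Fin N} (hk : ρ k = m) {d : Fin N → ℝ}
    (hg : Good c f m ρ d) (hin : ∀ i, ρ i < m → f i - f k ≠ c i k) :
    Good c f (m + 1) ρ (dn k d) := by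
  intro a b hab ha hb hfab
  by_cases hbk : b = k
  · subst hbk
    exfalso
    refine hin a ?_ hfab
    have : ρ a ≠ ρ b := fun h => hab (hρ h)
    omega
  · have hρb : ρ b < m := by
      have : ρ b ≠ ρ k := fun h => hbk (hρ h)
      omega
    by_cases hak : a = k
    · subst hak
      simp only [dn, Function.update_self, Function.update_of_ne hbk]
      have := neg_abs_le (d b)
      have := abs_le_sum d b
      linarith
    · simp only [dn, Function.update_of_ne hak, Function.update_of_ne hbk]
      refine hg a b hab ?_ hρb hfab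
      have : ρ a ≠ ρ k := fun h => hak (hρ h)
      omega

/-- One of the two insertions works. -/
theorem good_up_or_dn {N : ℕ} {c : Fin N → Fin N → ℝ} {f : Fin N → ℝ} {m : ℕ} {ρ : Fin N → ℕ}
    (hf : ∀ i j, f i - f j ≤ c i j) (hpos : ∀ i j, i ≠ j → 0 < c i j + c j i)
    (hρ : Function.Injective ρ) {k : Fin N} (hk : ρ k = m)
    (helim : ∀ i j, i ≠ j → ρ i < m → ρ j < m → c i j < c i k + c k j)
    {d : Fin N → ℝ} (hg : Good c f m ρ d) :
    Good c f (m + 1) ρ (up k d) ∨ Good c f (m + 1) ρ (dn k d) := by
  by_cases hout : ∃ j, ρ j < m ∧ f k - f j = c k j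
  · obtain ⟨j, hj, hfj⟩ := hout
    right
    refine good_dn hρ hk hg fun i hi h => ?_
    by_cases hij : i = j
    · subst hij
      have hik : i ≠ k := by
        rintro rfl
        omega
      have := hpos i k hik
      linarith
    · have := helim i j hij hi hj
      have := hf i j
      linarith
  · left
    push Not at hout
    exact good_up hρ hk hg hout

/-- All points of rank smaller than `m` except for the first one are pendant at an earlier one. -/
def Tree {N : ℕ} (c : Fin N → Fin N → ℝ) (m : ℕ) (ρ : Fin N → ℕ) : Prop :=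
  ∀ k, 0 < ρ k → ρ k < m → ∃ p, ρ p < ρ k ∧
    ∀ j, ρ j < ρ k → c k j = c k p + c p j ∧ c j k = c j p + c p k

/-- The direction `c r` is good for the functions which decrease from `r` as fast as possible. -/
theorem good_root {N : ℕ} {c : Fin N → Fin N → ℝ} {f : Fin N → ℝ} {m : ℕ} {ρ : Fin N → ℕ}
    (hc : ∀ i j, i ≠ j → 0 < c i j) {r : Fin N} (hr : ∀ j, ρ j < m → f r - f j = c r j) :
    Good c f m ρ (c r) := by
  intro a b hab ha hb hfab
  have h1 := hr a ha
  have h2 := hr b hb
  have h3 := hc a b hab
  linarith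

theorem tree_dirs {N : ℕ} {c : Fin N → Fin N → ℝ} {ρ : Fin N → ℕ} (h0 : ∀ i, c i i = 0)
    (hc : ∀ i j, i ≠ j → 0 < c i j) (hρ : Function.Injective ρ) (m : ℕ)
    (hbij : ∀ l, l < m → ∃ k, ρ k = l)
    (helim : ∀ i j k, i ≠ j → ρ i < ρ k → ρ j < ρ k → ρ k < m → c i j < c i k + c k j)
    (hT : Tree c m ρ) (hm : 1 ≤ m) (r : Fin N) (hr : ρ r < m) :
    ∃ D : Finset (Fin N → ℝ), D.card ≤ 2 ^ (m - 1) - 1 ∧
      ∀ f : Fin N → ℝ, (∀ i j, f i - f j ≤ c i j) →
        (∃ d ∈ D, Good c f m ρ d) ∨ ∀ j, ρ j < m → f r - f j = c r j := by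
  classical
  induction m, hm using Nat.le_induction generalizing r with
  | base =>
    refine ⟨∅, by simp, fun f hf => Or.inr fun j hj => ?_⟩
    have : j = r := hρ (by omega)
    subst this
    simp [h0]
  | succ m hm ih =>
    have hpos : ∀ i j, i ≠ j → 0 < c i j + c j i := fun i j hij =>
      add_pos (hc i j hij) (hc j i hij.symm)
    obtain ⟨k, hk⟩ := hbij m (by omega)
    obtain ⟨p, hp, hpk⟩ := hT k (by omega) (by omega)
    rw [hk] at hp hpk
    have hel : ∀ i j, i ≠ j → ρ i < m → ρ j < m → c i j < c i k + c k j := fun i j hij hi hj =>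
      helim i j k hij (by omega) (by omega) (by omega)
    have ih' := fun r hr => ih (fun l hl => hbij l (by omega))
      (fun i j k h1 h2 h3 h4 => helim i j k h1 h2 h3 (by omega))
      (fun k h1 h2 => hT k h1 (by omega)) r hr
    have hpow : 2 ^ (m + 1 - 1) = 2 * 2 ^ (m - 1) := by
      rw [← pow_succ']
      congr 1
      omega
    have hpow1 : 1 ≤ 2 ^ (m - 1) := Nat.one_le_two_pow
    by_cases hrk : r = k
    · -- the new vertex is the root: use its parent
      subst hrk
      obtain ⟨D, hD, hDf⟩ := ih' p hp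
      refine ⟨D.image (up r) ∪ D.image (dn r) ∪ {up r (c p)}, ?_, ?_⟩
      · have h1 : (D.image (up r)).card ≤ D.card := card_image_le
        have h2 : (D.image (dn r)).card ≤ D.card := card_image_le
        have h3 := card_union_le (D.image (up r)) (D.image (dn r))
        have h4 := card_union_le (D.image (up r) ∪ D.image (dn r)) {up r (c p)}
        rw [card_singleton] at h4
        omega
      · intro f hf
        rcases hDf f hf with ⟨d, hd, hg⟩ | hex
        · left
          rcases good_up_or_dn hf hpos hρ hk hel hg with h | h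
          · exact ⟨_, mem_union_left _ (mem_union_left _ (mem_image_of_mem _ hd)), h⟩
          · exact ⟨_, mem_union_left _ (mem_union_right _ (mem_image_of_mem _ hd)), h⟩
        · by_cases hfr : f r - f p = c r p
          · right
            intro j hj
            by_cases hjr : j = r
            · subst hjr
              simp [h0]
            · have hjm : ρ j < m := by
                have : ρ j ≠ ρ r := fun h => hjr (hρ h)
                omega
              have h1 := hex j hjm
              have h2 := (hpk j hjm).1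
              linarith
          · left
            refine ⟨up r (c p), mem_union_right _ (mem_singleton_self _),
              good_up hρ hk (good_root hc hex) fun j hj h => hfr ?_⟩
            have h1 := hex j hj
            have h2 := (hpk j hj).1
            linarith
    · have hrm : ρ r < m := by
        have : ρ r ≠ ρ k := fun h => hrk (hρ h)
        omega
      obtain ⟨D, hD, hDf⟩ := ih' r hrm
      refine ⟨D.image (up k) ∪ D.image (dn k) ∪ {dn k (c r)}, ?_, ?_⟩
      · have h1 : (D.image (up k)).card ≤ D.card := card_image_le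
        have h2 : (D.image (dn k)).card ≤ D.card := card_image_le
        have h3 := card_union_le (D.image (up k)) (D.image (dn k))
        have h4 := card_union_le (D.image (up k) ∪ D.image (dn k)) {dn k (c r)}
        rw [card_singleton] at h4
        omega
      · intro f hf
        rcases hDf f hf with ⟨d, hd, hg⟩ | hex
        · left
          rcases good_up_or_dn hf hpos hρ hk hel hg with h | h
          · exact ⟨_, mem_union_left _ (mem_union_left _ (mem_image_of_mem _ hd)), h⟩
          · exact ⟨_, mem_union_left _ (mem_union_right _ (mem_image_of_mem _ hd)), h⟩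
        · by_cases hfr : f r - f k = c r k
          · right
            intro j hj
            by_cases hjk : j = k
            · subst hjk
              exact hfr
            · refine hex j ?_
              have : ρ j ≠ ρ k := fun h => hjk (hρ h)
              omega
          · left
            refine ⟨dn k (c r), mem_union_right _ (mem_singleton_self _),
              good_dn hρ hk (good_root hc hex) fun i hi h => hfr ?_⟩
            have h1 := hex p hp
            have h2 := (hpk i hi).2
            have h3 := (hpk r hrm).2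
            have h4 := hf i p
            have h5 := hf p k
            linarith

/-- The key step: a point which is not pendant. -/
theorem key_step {N : ℕ} {c : Fin N → Fin N → ℝ} {ρ : Fin N → ℕ} (h0 : ∀ i, c i i = 0)
    (htri : ∀ i j k, c i j ≤ c i k + c k j)
    (hc : ∀ i j, i ≠ j → 0 < c i j) (hρ : Function.Injective ρ) (m : ℕ)
    (hbij : ∀ l, l < m → ∃ k, ρ k = l)
    (helim : ∀ i j k, i ≠ j → ρ i < ρ k → ρ j < ρ k → ρ k ≤ m → c i j < c i k + c k j)
    (hT : Tree c m ρ) (hm : 1 ≤ m) (x : Fin N) (hx : ρ x = m)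
    (r : Fin N) (hr : ρ r < m) (hmin : ∀ i, ρ i < m → c r x ≤ c i x)
    (hnp : ∃ j, ρ j < m ∧ c x j < c x r + c r j) :
    Dirs c (m + 1) ρ (2 ^ m - 1) := by
  classical
  have hpos : ∀ i j, i ≠ j → 0 < c i j + c j i := fun i j hij =>
    add_pos (hc i j hij) (hc j i hij.symm)
  obtain ⟨D, hD, hDf⟩ := tree_dirs h0 hc hρ m hbij
    (fun i j k h1 h2 h3 h4 => helim i j k h1 h2 h3 h4.le) hT hm r hr
  have hel : ∀ i j, i ≠ j → ρ i < m → ρ j < m → c i j < c i x + c x j := fun i j hij hi hj =>
    helim i j x hij (by omega) (by omega) (by omega)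
  -- a small positive number
  obtain ⟨δ, hδ, hδc⟩ : ∃ δ : ℝ, 0 < δ ∧ ∀ j, j ≠ r → δ < c r j := by
    by_cases hne : (univ.erase r : Finset (Fin N)).Nonempty
    · refine ⟨(univ.erase r).inf' hne (fun j => c r j) / 2, ?_, ?_⟩
      · have : 0 < (univ.erase r).inf' hne (fun j => c r j) := by
          rw [Finset.lt_inf'_iff]
          intro j hj
          exact hc r j (ne_of_mem_erase hj).symm
        linarith
      · intro j hj
        have h1 : (univ.erase r).inf' hne (fun j => c r j) ≤ c r j :=
          Finset.inf'_le _ (mem_erase.2 ⟨hj, mem_univ _⟩)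
        have h2 := hc r j hj.symm
        linarith
    · refine ⟨1, one_pos, fun j hj => ?_⟩
      exact absurd ⟨j, mem_erase.2 ⟨hj, mem_univ _⟩⟩ hne
  set d₀ : Fin N → ℝ := Function.update (c r) x δ with hd₀
  have hrx : r ≠ x := by
    rintro rfl
    omega
  have hpow : 2 ^ m = 2 * 2 ^ (m - 1) := by
    rw [← pow_succ']
    congr 1
    omega
  have hpow1 : 1 ≤ 2 ^ (m - 1) := Nat.one_le_two_pow
  refine ⟨D.image (up x) ∪ D.image (dn x) ∪ {d₀}, ?_, ?_⟩
  · have h1 : (D.image (up x)).card ≤ D.card := card_image_le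
    have h2 : (D.image (dn x)).card ≤ D.card := card_image_le
    have h3 := card_union_le (D.image (up x)) (D.image (dn x))
    have h4 := card_union_le (D.image (up x) ∪ D.image (dn x)) {d₀}
    rw [card_singleton] at h4
    omega
  · intro f hf
    rcases hDf f hf with ⟨d, hd, hg⟩ | hex
    · rcases good_up_or_dn hf hpos hρ hx hel hg with h | h
      · exact ⟨_, mem_union_left _ (mem_union_left _ (mem_image_of_mem _ hd)), h⟩
      · exact ⟨_, mem_union_left _ (mem_union_right _ (mem_image_of_mem _ hd)), h⟩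
    · refine ⟨d₀, mem_union_right _ (mem_singleton_self _), ?_⟩
      intro a b hab ha hb hfab
      by_cases hax : a = x
      · subst hax
        -- `x → b` is tight; `b ≠ r`
        have hba : b ≠ a := hab.symm
        have hbm : ρ b < m := by
          have : ρ b ≠ ρ a := fun h => hba (hρ h)
          omega
        rw [hd₀, Function.update_self, Function.update_of_ne hba]
        refine hδc b ?_
        rintro rfl
        obtain ⟨j, hj, hlt⟩ := hnp
        have h1 := hex j hj
        have h2 := hf a j
        linarith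
      · have ham : ρ a < m := by
          have : ρ a ≠ ρ x := fun h => hax (hρ h)
          omega
        by_cases hbx : b = x
        · subst hbx
          -- `a → x` is tight; `a = r`
          have har : a = r := by
            by_contra har
            have h1 := hex a ham
            have h2 := hf r b
            have h3 := hmin a ham
            have h4 := hc r a (Ne.symm har)
            linarith
          subst har
          rw [hd₀, Function.update_self, Function.update_of_ne hax, h0]
          exact hδ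
        · have hbm : ρ b < m := by
            have : ρ b ≠ ρ x := fun h => hbx (hρ h)
            omega
          rw [hd₀, Function.update_of_ne hax, Function.update_of_ne hbx]
          exact good_root hc hex a b hab ham hbm hfab

theorem Tree.transpose {N : ℕ} {c : Fin N → Fin N → ℝ} {m : ℕ} {ρ : Fin N → ℕ}
    (h : Tree c m ρ) : Tree (fun i j => c j i) m ρ := by
  intro k h1 h2
  obtain ⟨p, hp, hj⟩ := h k h1 h2
  refine ⟨p, hp, fun j hjk => ?_⟩
  have h3 := hj j hjk
  exact ⟨by linarith [h3.2], by linarith [h3.1]⟩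

theorem Tree.shift {N : ℕ} {c : Fin N → Fin N → ℝ} {m : ℕ} {ρ : Fin N → ℕ}
    (g : Fin N → ℝ) : Tree (fun i j => c i j - g i + g j) m ρ ↔ Tree c m ρ := by
  constructor
  · intro h k h1 h2
    obtain ⟨p, hp, hj⟩ := h k h1 h2
    refine ⟨p, hp, fun j hjk => ?_⟩
    have h3 := hj j hjk
    exact ⟨by linarith [h3.1], by linarith [h3.2]⟩
  · intro h k h1 h2
    obtain ⟨p, hp, hj⟩ := h k h1 h2
    refine ⟨p, hp, fun j hjk => ?_⟩
    have h3 := hj j hjk
    exact ⟨by linarith [h3.1], by linarith [h3.2]⟩

theorem dirs_extend {N : ℕ} {c : Fin N → Fin N → ℝ} {ρ : Fin N → ℕ}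
    (hpos : ∀ i j, i ≠ j → 0 < c i j + c j i) (hρ : Function.Injective ρ)
    (helim : ∀ i j k, i ≠ j → ρ i < ρ k → ρ j < ρ k → c i j < c i k + c k j)
    (m M t : ℕ) (h : Dirs c m ρ M) : Dirs c (m + t) ρ (M * 2 ^ t) := by
  induction t with
  | zero => simpa using h
  | succ t ih =>
    obtain ⟨D, hD, hDf⟩ := ih
    obtain ⟨D', hD', hDf'⟩ := step_dirs c (m + t) hpos ρ hρ
      (fun i j k hij hi hj hk => helim i j k hij (by omega) (by omega)) D hDf
    refine ⟨D', ?_, hDf'⟩
    rw [pow_succ, ← mul_assoc]
    exact hD'.trans (Nat.mul_le_mul_right _ hD)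

/-- The dichotomy, positive case. -/
theorem dichotomy_pos {N : ℕ} {c : Fin N → Fin N → ℝ} {ρ : Fin N → ℕ} (h0 : ∀ i, c i i = 0)
    (htri : ∀ i j k, c i j ≤ c i k + c k j)
    (hc : ∀ i j, i ≠ j → 0 < c i j) (hρ : Function.Injective ρ)
    (hlt : ∀ k, ρ k < N)
    (hbij : ∀ l, l < N → ∃ k, ρ k = l)
    (helim : ∀ i j k, i ≠ j → ρ i < ρ k → ρ j < ρ k → c i j < c i k + c k j)
    (hT : ¬ Tree c N ρ) : Dirs c N ρ (2 ^ (N - 1) - 1) := by
  classical
  have hpos : ∀ i j, i ≠ j → 0 < c i j + c j i := fun i j hij =>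
    add_pos (hc i j hij) (hc j i hij.symm)
  -- the least `m` such that `Tree c m ρ` fails
  have hex : ∃ m, ¬ Tree c m ρ := ⟨N, hT⟩
  obtain ⟨m, hm⟩ : ∃ m, m = Nat.find hex := ⟨_, rfl⟩
  have hm1 : ¬ Tree c m ρ := hm ▸ Nat.find_spec hex
  have hm2 : ∀ l, l < m → Tree c l ρ := fun l hl => by
    by_contra h
    exact Nat.find_min hex (hm ▸ hl) h
  have hmN : m ≤ N := hm ▸ Nat.find_min' hex hT
  have hm0 : 2 ≤ m := by
    by_contra h
    refine hm1 ?_
    intro k h1 h2
    omega
  obtain ⟨l, rfl⟩ : ∃ l, m = l + 1 := ⟨m - 1, by omega⟩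
  have hTl := hm2 l (by omega)
  obtain ⟨x, hx⟩ := hbij l (by omega)
  have hnp : ¬ ∃ p, ρ p < l ∧ ∀ j, ρ j < l → c x j = c x p + c p j ∧ c j x = c j p + c p x := by
    intro h
    refine hm1 ?_
    intro k h1 h2
    by_cases hkl : ρ k < l
    · exact hTl k h1 hkl
    · have : k = x := hρ (by omega)
      subst this
      rw [hx]
      exact h
  have hne : (univ.filter (fun i => ρ i < l)).Nonempty := by
    obtain ⟨k, hk⟩ := hbij 0 (by omega)
    exact ⟨k, by simp; omega⟩
  obtain ⟨r, hr, hrmin⟩ := Finset.exists_min_image _ (fun i => c i x) hne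
  rw [mem_filter] at hr
  have hmin : ∀ i, ρ i < l → c r x ≤ c i x := fun i hi => hrmin i (by simp [hi])
  have hDl : Dirs c (l + 1) ρ (2 ^ l - 1) := by
    by_cases hcase : ∃ j, ρ j < l ∧ c x j < c x r + c r j
    · exact key_step h0 htri hc hρ l (fun l' hl' => hbij l' (by omega))
        (fun i j k h1 h2 h3 _ => helim i j k h1 h2 h3) hTl (by omega) x hx r hr.2 hmin hcase
    · push Not at hcase
      have heq : ∀ j, ρ j < l → c x j = c x r + c r j := fun j hj =>
        le_antisymm (htri x j r) (hcase j hj)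
      by_cases hcase2 : ∃ j, ρ j < l ∧ c j x < c r x + c j r
      · refine Dirs.transpose ?_
        refine key_step (c := fun i j => c j i) h0 (fun i j k => by linarith [htri j i k])
          (fun i j hij => hc j i hij.symm) hρ l (fun l' hl' => hbij l' (by omega))
          (fun i j k h1 h2 h3 _ => ?_) hTl.transpose (by omega) x hx r hr.2 ?_ ?_
        · have := helim j i k h1.symm h3 h2
          linarith
        · intro i hi
          show c x r ≤ c x i
          have h1 := heq i hi
          by_cases hir : i = r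
          · subst hir
            exact le_rfl
          · have := hc r i (Ne.symm hir)
            linarith
        · obtain ⟨j, hj, h⟩ := hcase2
          exact ⟨j, hj, h⟩
      · push Not at hcase2
        exfalso
        refine hnp ⟨r, hr.2, fun j hj => ⟨heq j hj, ?_⟩⟩
        have h1 := hcase2 j hj
        have h2 := htri j x r
        linarith
  have h1 := dirs_extend hpos hρ helim (l + 1) _ (N - (l + 1)) hDl
  have e : l + 1 + (N - (l + 1)) = N := by omega
  rw [e] at h1
  refine h1.mono ?_
  have h2 : 2 ^ (N - 1) = 2 ^ l * 2 ^ (N - (l + 1)) := by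
    rw [← pow_add]
    congr 1
    omega
  rw [h2, Nat.sub_mul, one_mul]
  have h3 : 1 ≤ 2 ^ (N - (l + 1)) := Nat.one_le_two_pow
  omega

/-- The dichotomy. -/
theorem dichotomy {n : ℕ} {c : Fin (n + 1) → Fin (n + 1) → ℝ} {ρ : Fin (n + 1) → ℕ}
    (h0 : ∀ i, c i i = 0) (htri : ∀ i j k, c i j ≤ c i k + c k j)
    (hpos : ∀ i j, i ≠ j → 0 < c i j + c j i) (hρ : Function.Injective ρ)
    (hlt : ∀ k, ρ k < n + 1)
    (hbij : ∀ l, l < n + 1 → ∃ k, ρ k = l)
    (helim : ∀ i j k, i ≠ j → ρ i < ρ k → ρ j < ρ k → c i j < c i k + c k j)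
    (hT : ¬ Tree c (n + 1) ρ) : Dirs c (n + 1) ρ (2 ^ n - 1) := by
  obtain ⟨y, hy⟩ := nonempty_interior c h0 htri hpos
  refine Dirs.shift (fn y) ?_
  have := dichotomy_pos (c := fun i j => c i j - fn y i + fn y j) (ρ := ρ)
    (fun i => by simp [h0]) (fun i j k => by linarith [htri i j k])
    (fun i j hij => by linarith [strict_of_mem_interior c y hy i j hij]) hρ hlt hbij
    (fun i j k h1 h2 h3 => by linarith [helim i j k h1 h2 h3])
    (by rwa [Tree.shift])
  simpa using this

end Pool.Agent.TH154.Alc
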