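import Pool.Agent.TH154.AlcovedEq

set_option autoImplicit false

/-!
# Alcoved bodies: parallelotopes, optimality, finite sets in strictly convex spaces
-/

namespace Pool.Agent.TH154.Alc

open Finset

/-- `K` is a parallelotope. -/
def IsParallelotope {n : ℕ} (K : Set (EuclideanSpace ℝ (Fin n))) : Prop :=
  ∃ (L : EuclideanSpace ℝ (Fin n) ≃ₗ[ℝ] (Fin n → ℝ)) (a b : Fin n → ℝ), (∀ i, a i < b i) ∧
    K = {x | ∀ i, a i ≤ L x i ∧ L x i ≤ b i}

theorem parallelotope_of_tree {n : ℕ} {c : Fin (n + 1) → Fin (n + 1) → ℝ}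
    (h0 : ∀ i, c i i = 0) (htri : ∀ i j k, c i j ≤ c i k + c k j)
    (hpos : ∀ i j, i ≠ j → 0 < c i j + c j i) (σ : Equiv.Perm (Fin (n + 1)))
    (hT : Tree c (n + 1) (fun i => (σ i : ℕ))) : IsParallelotope (body c) := by
  classical
  have hT' : ∀ k, 0 < (σ k : ℕ) → ∃ p, (σ p : ℕ) < σ k ∧
      ∀ j, (σ j : ℕ) < σ k → c k j = c k p + c p j ∧ c j k = c j p + c p k :=
    fun k hk => hT k hk (σ k).is_lt
  choose! p hp hpj using hT'
  let q : Fin n → Fin (n + 1) := fun i => σ.symm i.succ
  have hq : ∀ i, 0 < (σ (q i) : ℕ) := by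
    intro i
    simp [q]
  let L₀ : EuclideanSpace ℝ (Fin n) →ₗ[ℝ] (Fin n → ℝ) :=
    { toFun := fun x i => fn x (q i) - fn x (p (q i))
      map_add' := by
        intro x y
        ext i
        simp only [fn_add, Pi.add_apply]
        ring
      map_smul' := by
        intro a x
        ext i
        simp only [fn_smul, Pi.smul_apply, smul_eq_mul, RingHom.id_apply]
        ring }
  have hL₀ : ∀ x i, L₀ x i = fn x (q i) - fn x (p (q i)) := fun _ _ => rfl
  have hconst : ∀ x, L₀ x = 0 → ∀ m, ∀ k, (σ k : ℕ) ≤ m → fn x k = fn x (σ.symm 0) := by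
    intro x hx m
    induction m with
    | zero =>
      intro k hk
      have : k = σ.symm 0 := by
        rw [Equiv.eq_symm_apply]
        exact Fin.ext (by simpa using hk)
      rw [this]
    | succ m ih =>
      intro k hk
      rcases Nat.lt_or_ge (σ k : ℕ) (m + 1) with h | h
      · exact ih k (by omega)
      · have hk0 : 0 < (σ k : ℕ) := by omega
        obtain ⟨i, hi⟩ : ∃ i : Fin n, i.succ = σ k := by
          refine ⟨(σ k).pred ?_, Fin.succ_pred _ _⟩
          intro h'
          rw [h'] at hk0
          simp at hk0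
        have hqi : q i = k := by
          simp only [q, hi, Equiv.symm_apply_apply]
        have h1 : L₀ x i = 0 := by rw [hx]; rfl
        rw [hL₀, hqi] at h1
        have h2 := ih (p k) (by have := hp k hk0; omega)
        linarith
  have hinj : Function.Injective L₀ := by
    rw [injective_iff_map_eq_zero]
    intro x hx
    ext i
    have h1 := hconst x hx n i.succ (by have := (σ i.succ).is_lt; omega)
    have h2 := hconst x hx n 0 (by have := (σ 0).is_lt; omega)
    rw [← h2] at h1
    simpa [fn] using h1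
  let L := LinearEquiv.ofInjectiveOfFinrankEq L₀ hinj (by simp)
  have hL : ∀ x i, L x i = fn x (q i) - fn x (p (q i)) := fun _ _ => rfl
  refine ⟨L, fun i => -c (p (q i)) (q i), fun i => c (q i) (p (q i)), ?_, ?_⟩
  · intro i
    have hne : q i ≠ p (q i) := by
      intro h
      have := hp (q i) (hq i)
      rw [← h] at this
      omega
    have := hpos _ _ hne
    linarith
  · ext x
    constructor
    · intro hx i
      rw [hL]
      have h1 := hx (q i) (p (q i))
      have h2 := hx (p (q i)) (q i)
      exact ⟨by linarith, h1⟩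
    · intro hx
      have hx' : ∀ k, 0 < (σ k : ℕ) → -c (p k) k ≤ fn x k - fn x (p k) ∧
          fn x k - fn x (p k) ≤ c k (p k) := by
        intro k hk
        obtain ⟨i, hi⟩ : ∃ i : Fin n, i.succ = σ k := by
          refine ⟨(σ k).pred ?_, Fin.succ_pred _ _⟩
          intro h'
          rw [h'] at hk
          simp at hk
        have hqi : q i = k := by
          simp only [q, hi, Equiv.symm_apply_apply]
        have := hx i
        rw [hL] at this
        simp only [hqi] at this
        exact this
      have key : ∀ m : ℕ, ∀ i j, (σ i : ℕ) ≤ m → (σ j : ℕ) ≤ m → fn x i - fn x j ≤ c i j := by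
        intro m
        induction m with
        | zero =>
          intro i j hi hj
          have : i = j := σ.injective (Fin.ext (by omega))
          subst this
          rw [h0]
          simp
        | succ m ih =>
          intro i j hi hj
          by_cases hij : i = j
          · subst hij
            rw [h0]
            simp
          rcases lt_trichotomy (σ i : ℕ) (σ j : ℕ) with h | h | h
          · -- `j` is later
            have hj0 : 0 < (σ j : ℕ) := by omega
            have h1 := ih i (p j) (by omega) (by have := hp j hj0; omega)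
            have h2 := (hpj j hj0 i h).2
            have h3 := (hx' j hj0).1
            linarith
          · exact absurd (σ.injective (Fin.ext h)) hij
          · have hi0 : 0 < (σ i : ℕ) := by omega
            have h1 := ih (p i) j (by have := hp i hi0; omega) (by omega)
            have h2 := (hpj i hi0 j h).1
            have h3 := (hx' i hi0).2
            linarith
      intro i j
      exact key n i j (by have := (σ i).is_lt; omega) (by have := (σ j).is_lt; omega)

theorem covered_of_dirs {n : ℕ} (c : Fin (n + 1) → Fin (n + 1) → ℝ) (h0 : ∀ i, c i i = 0)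
    (ρ : Fin (n + 1) → ℕ) (hlt : ∀ i, ρ i < n + 1) (M : ℕ) (h : Dirs c (n + 1) ρ M) :
    CoveredBy (body c) M := by
  classical
  obtain ⟨D, hD, hDf⟩ := h
  obtain ⟨T, hT, hcov⟩ := cover_of_illum (convex_body c) (isCompact_body c) (D.image vec) (by
    intro x hx
    obtain ⟨d, hd, hg⟩ := hDf (fn x) hx
    obtain ⟨ε, hε, hin⟩ := illum_body c (fun i => (h0 i).ge) x hx d
      (fun i j hij h => hg i j hij (hlt i) (hlt j) h)
    exact ⟨vec d, Finset.mem_image_of_mem _ hd, ε, hε, hin⟩)
  exact ⟨T, hT.trans (Finset.card_image_le.trans hD), hcov⟩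

theorem covered_or_parallelotope {n : ℕ} (c : Fin (n + 1) → Fin (n + 1) → ℝ)
    (h0 : ∀ i, c i i = 0) (htri : ∀ i j k, c i j ≤ c i k + c k j)
    (hpos : ∀ i j, i ≠ j → 0 < c i j + c j i) (σ : Equiv.Perm (Fin (n + 1)))
    (helim : ∀ i j k, i ≠ j → σ i < σ k → σ j < σ k → c i j < c i k + c k j) :
    IsParallelotope (body c) ∨ CoveredBy (body c) (2 ^ n - 1) := by
  by_cases hT : Tree c (n + 1) (fun i => (σ i : ℕ))
  · exact Or.inl (parallelotope_of_tree h0 htri hpos σ hT)
  · refine Or.inr (covered_of_dirs c h0 (fun i => (σ i : ℕ)) (fun i => (σ i).is_lt) _ ?_)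
    refine dichotomy h0 htri hpos (fun i j h => σ.injective (Fin.ext h)) (fun i => (σ i).is_lt)
      (fun l hl => ⟨σ.symm ⟨l, hl⟩, by simp⟩) (fun i j k h1 h2 h3 => helim i j k h1 h2 h3) hT

/-! ### Optimality -/

/-- The points `0, …, s - 1` have mutual distance `1`, and all other points are pendant at `0`
at distance `1`. -/
def star {n : ℕ} (s : ℕ) (i j : Fin (n + 1)) : ℝ :=
  if i = j then 0 else if ((i : ℕ) < s ∧ (j : ℕ) < s) ∨ i = 0 ∨ j = 0 then 1 else 2

theorem star_self {n : ℕ} (s : ℕ) (i : Fin (n + 1)) : star s i i = 0 := by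
  simp [star]

theorem star_ge {n : ℕ} (s : ℕ) {i j : Fin (n + 1)} (h : i ≠ j) : 1 ≤ star s i j := by
  unfold star
  rw [if_neg h]
  split_ifs <;> norm_num

theorem star_le {n : ℕ} (s : ℕ) (i j : Fin (n + 1)) : star s i j ≤ 2 := by
  unfold star
  split_ifs <;> norm_num

theorem star_nonneg {n : ℕ} (s : ℕ) (i j : Fin (n + 1)) : 0 ≤ star s i j := by
  unfold star
  split_ifs <;> norm_num

theorem star_symm {n : ℕ} (s : ℕ) (i j : Fin (n + 1)) : star s i j = star s j i := by
  unfold star
  by_cases h : i = j
  · rw [if_pos h, if_pos h.symm]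
  · rw [if_neg h, if_neg (Ne.symm h)]
    congr 1
    apply propext
    tauto

theorem star_tri {n : ℕ} (s : ℕ) (i j k : Fin (n + 1)) :
    star s i j ≤ star s i k + star s k j := by
  by_cases hik : i = k
  · subst hik
    rw [star_self]
    simp
  · by_cases hkj : k = j
    · subst hkj
      rw [star_self s k]
      simp
    · have := star_ge s hik
      have := star_ge s hkj
      have := star_le s i j
      linarith

theorem star_core {n : ℕ} (s : ℕ) {i j k : Fin (n + 1)} (hij : i ≠ j) (hik : i ≠ k)
    (hjk : j ≠ k) (hi : (i : ℕ) < s) (hj : (j : ℕ) < s) :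
    star s i j < star s i k + star s k j := by
  have h1 : star s i j = 1 := by
    unfold star
    rw [if_neg hij, if_pos (Or.inl ⟨hi, hj⟩)]
  have := star_ge s hik
  have := star_ge s hjk.symm
  linarith

theorem star_elim {n : ℕ} (s : ℕ) (hs : 1 ≤ s) {i j k : Fin (n + 1)} (hij : i ≠ j)
    (hik : i < k) (hjk : j < k) (hk : s ≤ (k : ℕ)) :
    star s i j < star s i k + star s k j := by
  have hk0 : k ≠ 0 := by
    rintro rfl
    simp at hk
    omega
  have h2 := star_le s i j
  have h3 := star_ge s hik.ne
  have h4 := star_ge s hjk.ne'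
  by_cases hi0 : i = 0
  · have hj0 : j ≠ 0 := by
      rintro rfl
      exact hij hi0
    have : star s k j = 2 := by
      unfold star
      rw [if_neg hjk.ne', if_neg]
      rintro (⟨h, -⟩ | h | h)
      · omega
      · exact hk0 h
      · exact hj0 h
    linarith
  · have : star s i k = 2 := by
      unfold star
      rw [if_neg hik.ne, if_neg]
      rintro (⟨-, h⟩ | h | h)
      · omega
      · exact hi0 h
      · exact hk0 h
    linarith

/-- The vertices of the body of `star s`. -/
noncomputable def vert {n : ℕ} (s : ℕ) (W : Finset (Fin (n + 1)) × Finset (Fin (n + 1))) :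
    Fin (n + 1) → ℝ :=
  fun i => if (i : ℕ) < s then (if i ∈ W.1 then 1 else 0)
    else (if (0 : Fin (n + 1)) ∈ W.1 then 1 else 0) + (if i ∈ W.2 then 1 else -1)

theorem vert_mem {n : ℕ} (s : ℕ) (hs : 1 ≤ s)
    (W : Finset (Fin (n + 1)) × Finset (Fin (n + 1))) : vec (vert s W) ∈ body (star s) := by
  intro i j
  rw [fn_vec, fn_vec]
  have h0 : ((0 : Fin (n + 1)) : ℕ) < s := by simp; omega
  have hv0 : vert s W 0 = if (0 : Fin (n + 1)) ∈ W.1 then 1 else 0 := by
    simp only [vert, if_pos h0]
  by_cases hij : i = j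
  · subst hij
    rw [star_self]
    simp
  unfold star
  rw [if_neg hij]
  have hcore : ∀ i : Fin (n + 1), (i : ℕ) < s → 0 ≤ vert s W i ∧ vert s W i ≤ 1 := by
    intro i hi
    simp only [vert, if_pos hi]
    split_ifs <;> norm_num
  have hrest : ∀ i : Fin (n + 1), ¬ (i : ℕ) < s → vert s W i - vert s W 0 ≤ 1 ∧
      -1 ≤ vert s W i - vert s W 0 := by
    intro i hi
    rw [hv0]
    simp only [vert, if_neg hi]
    split_ifs <;> norm_num
  have h00 := hcore 0 h0
  by_cases hi : (i : ℕ) < s
  · by_cases hj : (j : ℕ) < s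
    · rw [if_pos (Or.inl ⟨hi, hj⟩)]
      have := hcore i hi
      have := hcore j hj
      linarith
    · have h1 := hrest j hj
      by_cases hi0 : i = 0
      · subst hi0
        rw [if_pos (Or.inr (Or.inl rfl))]
        linarith
      · have h2 := hcore i hi
        have hj0 : j ≠ 0 := by
          rintro rfl
          exact hj h0
        rw [if_neg (by
          rintro (⟨-, h⟩ | h | h)
          · exact hj h
          · exact hi0 h
          · exact hj0 h)]
        linarith
  · have h1 := hrest i hi
    have hi0 : i ≠ 0 := by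
      rintro rfl
      exact hi h0
    by_cases hj0 : j = 0
    · subst hj0
      rw [if_pos (Or.inr (Or.inr rfl))]
      linarith
    · rw [if_neg (by
          rintro (⟨h, -⟩ | h | h)
          · exact hi h
          · exact hi0 h
          · exact hj0 h)]
      by_cases hj : (j : ℕ) < s
      · have h2 := hcore j hj
        linarith
      · have h2 := hrest j hj
        linarith

/-- Two points of the same translate of the interior. -/
theorem same_translate {n : ℕ} (c : Fin (n + 1) → Fin (n + 1) → ℝ)
    (t : EuclideanSpace ℝ (Fin n)) (g g' : Fin (n + 1) → ℝ)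
    (hg : vec g ∈ (fun x => t + x) '' interior (body c))
    (hg' : vec g' ∈ (fun x => t + x) '' interior (body c)) (i j : Fin (n + 1)) (hij : i ≠ j) :
    (g i - g j) - (g' i - g' j) < c i j + c j i := by
  obtain ⟨x, hx, hxg⟩ := hg
  obtain ⟨y, hy, hyg⟩ := hg'
  have h1 := strict_of_mem_interior c x hx i j hij
  have h2 := strict_of_mem_interior c y hy j i hij.symm
  have e1 : ∀ k, fn x k = g k - g 0 - fn t k := by
    intro k
    have := fn_vec g k
    rw [← hxg] at this
    simp only [fn_add] at this
    linarith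
  have e2 : ∀ k, fn y k = g' k - g' 0 - fn t k := by
    intro k
    have := fn_vec g' k
    rw [← hyg] at this
    simp only [fn_add] at this
    linarith
  rw [e1, e1] at h1
  rw [e2, e2] at h2
  linarith

theorem star_lower {n : ℕ} (s : ℕ) (hs : 1 ≤ s) (hsn : s ≤ n + 1) (M : ℕ)
    (h : CoveredBy (body (star (n := n) s)) M) : s.choose (s / 2) * 2 ^ (n + 1 - s) ≤ M := by
  classical
  obtain ⟨T, hT, hcov⟩ := h
  let core : Finset (Fin (n + 1)) := univ.filter (fun i => (i : ℕ) < s)
  let rest : Finset (Fin (n + 1)) := univ.filter (fun i => ¬ (i : ℕ) < s)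
  have hcore : core.card = s := by
    have : core = univ.filter (fun i : Fin (n + 1) => (i : ℕ) < s) := rfl
    rw [this, Fin.card_filter_val_lt]
    omega
  have hrest : rest.card = n + 1 - s := by
    have h1 := Finset.card_filter_add_card_filter_not (s := (univ : Finset (Fin (n + 1))))
      (fun i => (i : ℕ) < s)
    rw [Finset.card_univ, Fintype.card_fin] at h1
    change core.card + rest.card = n + 1 at h1
    omega
  let 𝒲 := (core.powersetCard (s / 2)) ×ˢ rest.powerset
  have h𝒲 : 𝒲.card = s.choose (s / 2) * 2 ^ (n + 1 - s) := by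
    rw [card_product, card_powersetCard, card_powerset, hcore, hrest]
  have hex : ∀ W : Finset (Fin (n + 1)) × Finset (Fin (n + 1)), ∃ t ∈ T,
      vec (vert s W) ∈ (fun x => t + x) '' interior (body (star s)) := by
    intro W
    have := hcov (vert_mem s hs W)
    simpa only [Set.mem_iUnion, exists_prop] using this
  choose t ht htW using hex
  have h0 : ((0 : Fin (n + 1)) : ℕ) < s := by simp; omega
  have hsep : ∀ W W' : Finset (Fin (n + 1)) × Finset (Fin (n + 1)), t W = t W' →
      ∀ i j : Fin (n + 1), i ≠ j → star s i j = 1 → vert s W i - vert s W j = 1 →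
      vert s W' i - vert s W' j = -1 → False := by
    intro W W' hW i j hij h1 h2 h3
    have h4 := htW W'
    rw [← hW] at h4
    have := same_translate _ (t W) _ _ (htW W) h4 i j hij
    rw [star_symm s j i, h1, h2, h3] at this
    norm_num at this
  have hinj : Set.InjOn t 𝒲 := by
    intro W hW W' hW' htt
    rw [mem_coe, mem_product, mem_powersetCard, mem_powerset] at hW hW'
    obtain ⟨⟨hW1, hW1c⟩, hW2⟩ := hW
    obtain ⟨⟨hW1', hW1c'⟩, hW2'⟩ := hW'
    have e1 : W.1 = W'.1 := by
      by_contra hne
      have hn1 : ¬ W.1 ⊆ W'.1 := fun h => hne (eq_of_subset_of_card_le h (by omega))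
      have hn2 : ¬ W'.1 ⊆ W.1 := fun h => hne (eq_of_subset_of_card_le h (by omega)).symm
      obtain ⟨i, hi, hi'⟩ := not_subset.1 hn1
      obtain ⟨j, hj, hj'⟩ := not_subset.1 hn2
      have his : (i : ℕ) < s := (mem_filter.1 (hW1 hi)).2
      have hjs : (j : ℕ) < s := (mem_filter.1 (hW1' hj)).2
      have hij : i ≠ j := by
        rintro rfl
        exact hj' hi
      refine hsep W W' htt i j hij ?_ ?_ ?_
      · unfold star
        rw [if_neg hij, if_pos (Or.inl ⟨his, hjs⟩)]
      · simp only [vert, if_pos his, if_pos hjs, if_pos hi, if_neg hj']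
        norm_num
      · simp only [vert, if_pos his, if_pos hjs, if_neg hi', if_pos hj]
        norm_num
    have e2 : ∀ k, k ∈ W.2 → k ∈ W'.2 := by
      intro k hk
      by_contra hk'
      have hks : ¬ (k : ℕ) < s := (mem_filter.1 (hW2 hk)).2
      have hk0 : k ≠ 0 := by
        rintro rfl
        exact hks h0
      refine hsep W W' htt k 0 hk0 ?_ ?_ ?_
      · unfold star
        rw [if_neg hk0, if_pos (Or.inr (Or.inr rfl))]
      · simp only [vert, if_neg hks, if_pos h0, if_pos hk]
        ring
      · simp only [vert, if_neg hks, if_pos h0, if_neg hk']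
        ring
    have e3 : ∀ k, k ∈ W'.2 → k ∈ W.2 := by
      intro k hk
      by_contra hk'
      have hks : ¬ (k : ℕ) < s := (mem_filter.1 (hW2' hk)).2
      have hk0 : k ≠ 0 := by
        rintro rfl
        exact hks h0
      refine hsep W' W htt.symm k 0 hk0 ?_ ?_ ?_
      · unfold star
        rw [if_neg hk0, if_pos (Or.inr (Or.inr rfl))]
      · simp only [vert, if_neg hks, if_pos h0, if_pos hk]
        ring
      · simp only [vert, if_neg hks, if_pos h0, if_neg hk']
        ring
    exact Prod.ext e1 (Finset.ext fun k => ⟨e2 k, e3 k⟩)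
  rw [← h𝒲]
  exact (card_le_card_of_injOn t (fun W _ => ht W) hinj).trans hT

/-! ### Finite sets in strictly convex spaces -/

theorem norm_between {V : Type*} [NormedAddCommGroup V] [NormedSpace ℝ V] [StrictConvexSpace ℝ V]
    {x y z : V} (hxy : x ≠ y) (hxz : ‖x‖ ≤ ‖z‖) (hyz : ‖y‖ ≤ ‖z‖) (hzx : z ≠ x) (hzy : z ≠ y) :
    dist x y < dist x z + dist z y := by
  refine lt_of_le_of_ne (dist_triangle x z y) fun h => ?_
  have hw : Wbtw ℝ x z y := dist_add_dist_eq_iff.1 h.symm
  have hs : Sbtw ℝ x z y := ⟨hw, hzx, hzy⟩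
  have hz : z ∈ openSegment ℝ x y := by
    rw [openSegment_eq_image_lineMap]
    exact hs.mem_image_Ioo
  have := openSegment_subset_ball_of_ne (r := ‖z‖) (z := (0 : V)) (by simpa using hxz)
    (by simpa using hyz) hxy hz
  simp at this

theorem collinear_of_tree {V : Type*} [NormedAddCommGroup V] [NormedSpace ℝ V]
    [StrictConvexSpace ℝ V] {n : ℕ} (p : Fin (n + 1) → V) (hp : Function.Injective p)
    (σ : Equiv.Perm (Fin (n + 1)))
    (hT : Tree (fun i j => dist (p i) (p j)) (n + 1) (fun i => (σ i : ℕ))) :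
    Collinear ℝ (Set.range p) := by
  rcases Nat.eq_zero_or_pos n with rfl | hn
  · have : Set.range p = {p 0} := by
      ext x
      constructor
      · rintro ⟨i, rfl⟩
        rw [Fin.fin_one_eq_zero i]
        rfl
      · rintro rfl
        exact ⟨0, rfl⟩
    rw [this]
    exact collinear_singleton ℝ _
  obtain ⟨a, ha⟩ : ∃ a, (σ a : ℕ) = 0 := ⟨σ.symm 0, by simp⟩
  obtain ⟨b, hb⟩ : ∃ b, (σ b : ℕ) = 1 := ⟨σ.symm ⟨1, by omega⟩, by simp⟩
  have hab : a ≠ b := by
    rintro rfl
    omega
  have key : ∀ m : ℕ, ∀ k, (σ k : ℕ) ≤ m → p k ∈ line[ℝ, p a, p b] := by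
    intro m
    induction m with
    | zero =>
      intro k hk
      have : k = a := σ.injective (Fin.ext (by omega))
      subst this
      exact left_mem_affineSpan_pair ℝ _ _
    | succ m ih =>
      intro k hk
      rcases Nat.lt_or_ge (σ k : ℕ) (m + 1) with h | h
      · exact ih k (by omega)
      rcases Nat.eq_zero_or_pos m with rfl | hm
      · have : k = b := σ.injective (Fin.ext (by omega))
        subst this
        exact right_mem_affineSpan_pair ℝ _ _
      · obtain ⟨q, hq, hqj⟩ := hT k (by show 0 < (σ k : ℕ); omega) (σ k).is_lt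
        obtain ⟨j, hj, hjq⟩ : ∃ j, (σ j : ℕ) ≤ m ∧ j ≠ q ∧ p j ∈ line[ℝ, p a, p b] := by
          by_cases haq : a = q
          · exact ⟨b, by omega, fun h => hab (haq.trans h.symm), right_mem_affineSpan_pair ℝ _ _⟩
          · exact ⟨a, by omega, haq, left_mem_affineSpan_pair ℝ _ _⟩
        obtain ⟨hjq, hjl⟩ := hjq
        change (σ q : ℕ) < σ k at hq
        have h1 := (hqj j (by show (σ j : ℕ) < σ k; omega)).1
        have h2 : Wbtw ℝ (p k) (p q) (p j) := dist_add_dist_eq_iff.1 h1.symm
        have h3 := h2.left_mem_affineSpan_of_right_ne (fun h => hjq (hp h))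
        have h4 : line[ℝ, p j, p q] ≤ line[ℝ, p a, p b] :=
          affineSpan_pair_le_of_mem_of_mem hjl (ih q (by omega))
        exact h4 h3
  have hsub : Set.range p ⊆ line[ℝ, p a, p b] := by
    rintro _ ⟨k, rfl⟩
    exact key n k (by have := (σ k).is_lt; omega)
  have h1 : vectorSpan ℝ (Set.range p) ≤ vectorSpan ℝ {p a, p b} := by
    rw [← direction_affineSpan, ← direction_affineSpan]
    exact AffineSubspace.direction_le (affineSpan_le.2 hsub)
  exact (Submodule.rank_mono h1).trans (collinear_pair ℝ (p a) (p b))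

/-- The norm ordering of a finite set of points. -/
theorem exists_order {V : Type*} [NormedAddCommGroup V] {n : ℕ} (p : Fin (n + 1) → V) :
    ∃ σ : Equiv.Perm (Fin (n + 1)), ∀ i k, σ i < σ k → ‖p i‖ ≤ ‖p k‖ := by
  refine ⟨(Tuple.sort (fun i => ‖p i‖)).symm, fun i k hik => ?_⟩
  have := Tuple.monotone_sort (fun i => ‖p i‖) hik.le
  simpa using this

theorem lip_elim {V : Type*} [NormedAddCommGroup V] [NormedSpace ℝ V]
    [StrictConvexSpace ℝ V] {n : ℕ} (p : Fin (n + 1) → V) (hp : Function.Injective p)
    (σ : Equiv.Perm (Fin (n + 1))) (hσ : ∀ i k, σ i < σ k → ‖p i‖ ≤ ‖p k‖)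
    (i j k : Fin (n + 1)) (hij : i ≠ j) (hik : σ i < σ k) (hjk : σ j < σ k) :
    dist (p i) (p j) < dist (p i) (p k) + dist (p k) (p j) := by
  refine norm_between (hp.ne hij) (hσ i k hik) (hσ j k hjk) (hp.ne ?_) (hp.ne ?_)
  · rintro rfl
    exact lt_irrefl _ hik
  · rintro rfl
    exact lt_irrefl _ hjk

theorem lip_covered {V : Type*} [NormedAddCommGroup V] [NormedSpace ℝ V]
    [StrictConvexSpace ℝ V] {n : ℕ} (p : Fin (n + 1) → V) (hp : Function.Injective p) :
    CoveredBy (body (fun i j => dist (p i) (p j))) (2 ^ n) ∧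
    (¬ Collinear ℝ (Set.range p) →
      CoveredBy (body (fun i j => dist (p i) (p j))) (2 ^ n - 1)) ∧
    ((∀ i j k, i ≠ j → i ≠ k → j ≠ k → ¬ Wbtw ℝ (p i) (p k) (p j)) →
      CoveredBy (body (fun i j => dist (p i) (p j))) ((n + 1).choose ((n + 1) / 2))) := by
  obtain ⟨σ, hσ⟩ := exists_order p
  have h0 : ∀ i, dist (p i) (p i) = 0 := fun i => dist_self _
  have hd : ∀ i j, i ≠ j → 0 < dist (p i) (p j) := fun i j hij => dist_pos.2 (hp.ne hij)
  have hpos : ∀ i j, i ≠ j → 0 < dist (p i) (p j) + dist (p j) (p i) := fun i j hij =>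
    add_pos (hd i j hij) (hd j i hij.symm)
  have htri : ∀ i j k, dist (p i) (p j) ≤ dist (p i) (p k) + dist (p k) (p j) :=
    fun i j k => dist_triangle _ _ _
  refine ⟨?_, ?_, ?_⟩
  · have := covered (fun i j => dist (p i) (p j)) 1 (by omega) h0 hpos σ
      (fun i j k hij _ _ hi hj _ => absurd (σ.injective (Fin.ext (by omega))) hij)
      (fun i j k hij hi hj _ => lip_elim p hp σ hσ i j k hij hi hj)
    simpa using this
  · intro hnc
    refine covered_of_dirs _ h0 (fun i => (σ i : ℕ)) (fun i => (σ i).is_lt) _ ?_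
    exact dichotomy h0 htri hpos (fun i j h => σ.injective (Fin.ext h)) (fun i => (σ i).is_lt)
      (fun l hl => ⟨σ.symm ⟨l, hl⟩, by simp⟩)
      (fun i j k h1 h2 h3 => lip_elim p hp σ hσ i j k h1 h2 h3)
      (fun hT => hnc (collinear_of_tree p hp σ hT))
  · intro h
    have := covered (fun i j => dist (p i) (p j)) (n + 1) le_rfl h0 hpos 1
      (fun i j k hij hik hjk _ _ _ => lt_of_le_of_ne (htri i j k) fun he =>
        h i j k hij hik hjk (dist_add_dist_eq_iff.1 he.symm))
      (fun i j k _ _ _ hk => absurd k.is_lt (by simpa using hk))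
    simpa using this

end Pool.Agent.TH154.Alc
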