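import Pool.Agent.TH154.DupinDefs

set_option autoImplicit false

open scoped InnerProductSpace ContDiff

namespace Pool.Agent.TH154.Dupin

variable {k : ℕ}

/-- the squared norm of the last `k` coordinates -/
noncomputable def q (u : Fin (k + 2) → ℝ) : ℝ := ∑ i : Fin k, u i.succ.succ ^ 2

noncomputable def s (u : Fin (k + 2) → ℝ) : ℝ := √(1 - q u)

def U (k : ℕ) : Set (Fin (k + 2) → ℝ) := {u | q u < 1}

/-- components of the immersion -/
noncomputable def xc (u : Fin (k + 2) → ℝ) : Fin (k + 2 + 2) → ℝ :=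
  Fin.cons (s u * Real.cos (u 0) / √2) (Fin.cons (s u * Real.sin (u 0) / √2)
    (Fin.cons (s u * Real.cos (u 1) / √2) (Fin.cons (s u * Real.sin (u 1) / √2)
      (fun i : Fin k => u i.succ.succ))))

noncomputable def x (u : Fin (k + 2) → ℝ) : EuclideanSpace ℝ (Fin (k + 2 + 2)) :=
  WithLp.toLp 2 (xc u)

noncomputable def ξc (u : Fin (k + 2) → ℝ) : Fin (k + 2 + 2) → ℝ :=
  Fin.cons (Real.cos (u 0) / √2) (Fin.cons (Real.sin (u 0) / √2)
    (Fin.cons (-Real.cos (u 1) / √2) (Fin.cons (-Real.sin (u 1) / √2)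
      (fun _ : Fin k => 0))))

noncomputable def ξ (u : Fin (k + 2) → ℝ) : EuclideanSpace ℝ (Fin (k + 2 + 2)) :=
  WithLp.toLp 2 (ξc u)

theorem continuous_q : Continuous (q (k := k)) := by
  unfold q; fun_prop

theorem isOpen_U : IsOpen (U k) := isOpen_lt continuous_q continuous_const

theorem one_sub_pos {u : Fin (k + 2) → ℝ} (hu : u ∈ U k) : 0 < 1 - q u := by
  have : q u < 1 := hu
  linarith

theorem s_pos {u : Fin (k + 2) → ℝ} (hu : u ∈ U k) : 0 < s u :=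
  Real.sqrt_pos.2 (one_sub_pos hu)

theorem s_sq {u : Fin (k + 2) → ℝ} (hu : u ∈ U k) : s u ^ 2 = 1 - q u :=
  Real.sq_sqrt (one_sub_pos hu).le

theorem q_eq {u : Fin (k + 2) → ℝ} (hu : u ∈ U k) : q u = 1 - s u ^ 2 := by
  rw [s_sq hu]; ring

/-- the linear form `v ↦ ∑ uᵢ vᵢ` over the last `k` coordinates -/
noncomputable def wl (u : Fin (k + 2) → ℝ) : (Fin (k + 2) → ℝ) →L[ℝ] ℝ :=
  ∑ i : Fin k, u i.succ.succ • ContinuousLinearMap.proj (R := ℝ) (φ := fun _ : Fin (k + 2) => ℝ)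
    i.succ.succ

theorem wl_apply (u v : Fin (k + 2) → ℝ) : wl u v = ∑ i : Fin k, u i.succ.succ * v i.succ.succ := by
  simp [wl]

theorem hasFDerivAt_coord (i : Fin (k + 2)) (u : Fin (k + 2) → ℝ) :
    HasFDerivAt (fun v : Fin (k + 2) → ℝ => v i)
      (ContinuousLinearMap.proj (R := ℝ) (φ := fun _ : Fin (k + 2) => ℝ) i) u :=
  (ContinuousLinearMap.proj (R := ℝ) (φ := fun _ : Fin (k + 2) => ℝ) i).hasFDerivAt

theorem hasFDerivAt_q (u : Fin (k + 2) → ℝ) :
    HasFDerivAt (q (k := k)) ((2 : ℝ) • wl u) u := by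
  have h : ∀ i ∈ (Finset.univ : Finset (Fin k)), HasFDerivAt
      (fun v : Fin (k + 2) → ℝ => v i.succ.succ ^ 2)
      ((2 * u i.succ.succ) • ContinuousLinearMap.proj (R := ℝ) (φ := fun _ : Fin (k + 2) => ℝ)
        i.succ.succ) u := by
    intro i _
    have := (hasFDerivAt_coord i.succ.succ u).pow 2
    simpa using this
  have := HasFDerivAt.fun_sum h
  refine this.congr_fderiv ?_
  ext v
  simp [wl_apply, Finset.mul_sum, mul_assoc]

theorem hasFDerivAt_s {u : Fin (k + 2) → ℝ} (hu : u ∈ U k) :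
    HasFDerivAt (s (k := k)) ((-(s u)⁻¹) • wl u) u := by
  have h1 : HasFDerivAt (fun v : Fin (k + 2) → ℝ => 1 - q v) (-((2 : ℝ) • wl u)) u :=
    (hasFDerivAt_q u).const_sub 1
  have h2 := h1.sqrt (one_sub_pos hu).ne'
  refine h2.congr_fderiv ?_
  have hs : √(1 - q u) = s u := rfl
  have hs0 := (s_pos hu).ne'
  ext v
  simp [hs]
  field_simp

theorem differentiableAt_s {u : Fin (k + 2) → ℝ} (hu : u ∈ U k) :
    DifferentiableAt ℝ (s (k := k)) u := (hasFDerivAt_s hu).differentiableAt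

theorem fderiv_s {u : Fin (k + 2) → ℝ} (hu : u ∈ U k) (v : Fin (k + 2) → ℝ) :
    fderiv ℝ s u v = -(s u)⁻¹ * wl u v := by
  rw [(hasFDerivAt_s hu).fderiv]; simp

theorem contDiff_q : ContDiff ℝ ∞ (q (k := k)) := by
  unfold q; fun_prop

theorem contDiffOn_s : ContDiffOn ℝ ∞ (s (k := k)) (U k) := by
  unfold s
  exact (contDiff_const.sub contDiff_q).contDiffOn.sqrt fun u hu => (one_sub_pos hu).ne'


theorem hasFDerivAt_comp_coord {f : ℝ → ℝ} {f' : ℝ} (i : Fin (k + 2)) {u : Fin (k + 2) → ℝ}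
    (hf : HasDerivAt f f' (u i)) :
    HasFDerivAt (fun v : Fin (k + 2) → ℝ => f (v i))
      (f' • ContinuousLinearMap.proj (R := ℝ) (φ := fun _ : Fin (k + 2) => ℝ) i) u :=
  hf.comp_hasFDerivAt u (hasFDerivAt_coord i u)

theorem hasFDerivAt_s_mul {f : ℝ → ℝ} {f' : ℝ} (i : Fin (k + 2)) {u : Fin (k + 2) → ℝ}
    (hu : u ∈ U k) (hf : HasDerivAt f f' (u i)) :
    HasFDerivAt (fun v : Fin (k + 2) → ℝ => s v * f (v i) / √2)
      ((√2)⁻¹ • (s u • (f' • ContinuousLinearMap.proj (R := ℝ) (φ := fun _ : Fin (k + 2) => ℝ) i) +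
        f (u i) • ((-(s u)⁻¹) • wl u))) u := by
  have := ((hasFDerivAt_s hu).fun_mul (hasFDerivAt_comp_coord i hf)).mul_const (√2)⁻¹
  simpa [div_eq_mul_inv] using this

/-- the derivative of `x` -/
noncomputable def dxc (u v : Fin (k + 2) → ℝ) : Fin (k + 2 + 2) → ℝ :=
  Fin.cons ((-(s u)⁻¹ * wl u v * Real.cos (u 0) - s u * Real.sin (u 0) * v 0) / √2)
    (Fin.cons ((-(s u)⁻¹ * wl u v * Real.sin (u 0) + s u * Real.cos (u 0) * v 0) / √2)
    (Fin.cons ((-(s u)⁻¹ * wl u v * Real.cos (u 1) - s u * Real.sin (u 1) * v 1) / √2)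
    (Fin.cons ((-(s u)⁻¹ * wl u v * Real.sin (u 1) + s u * Real.cos (u 1) * v 1) / √2)
      (fun i : Fin k => v i.succ.succ))))

noncomputable def dξc (u v : Fin (k + 2) → ℝ) : Fin (k + 2 + 2) → ℝ :=
  Fin.cons (-(Real.sin (u 0) * v 0) / √2) (Fin.cons (Real.cos (u 0) * v 0 / √2)
    (Fin.cons (Real.sin (u 1) * v 1 / √2) (Fin.cons (-(Real.cos (u 1) * v 1) / √2)
      (fun _ : Fin k => 0))))

theorem contDiffOn_x : ContDiffOn ℝ ∞ (x (k := k)) (U k) := by
  rw [contDiffOn_euclidean]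
  intro j
  have h0 : ContDiffOn ℝ ∞ (fun u : Fin (k + 2) → ℝ => u 0) (U k) := by fun_prop
  have h1 : ContDiffOn ℝ ∞ (fun u : Fin (k + 2) → ℝ => u 1) (U k) := by fun_prop
  have hs := contDiffOn_s (k := k)
  simp only [x, xc]
  refine Fin.cases ?_ (fun j => Fin.cases ?_ (fun j => Fin.cases ?_ (fun j => Fin.cases ?_
    (fun j => ?_) j) j) j) j
  · simp only [Fin.cons_zero]
    exact (hs.mul (Real.contDiff_cos.comp_contDiffOn h0)).div_const _
  · simp only [Fin.cons_succ, Fin.cons_zero]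
    exact (hs.mul (Real.contDiff_sin.comp_contDiffOn h0)).div_const _
  · simp only [Fin.cons_succ, Fin.cons_zero]
    exact (hs.mul (Real.contDiff_cos.comp_contDiffOn h1)).div_const _
  · simp only [Fin.cons_succ, Fin.cons_zero]
    exact (hs.mul (Real.contDiff_sin.comp_contDiffOn h1)).div_const _
  · simp only [Fin.cons_succ]
    fun_prop

theorem contDiff_ξ : ContDiff ℝ ∞ (ξ (k := k)) := by
  rw [contDiff_euclidean]
  intro j
  simp only [ξ, ξc]
  refine Fin.cases ?_ (fun j => Fin.cases ?_ (fun j => Fin.cases ?_ (fun j => Fin.cases ?_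
    (fun j => ?_) j) j) j) j
  · simp only [Fin.cons_zero]
    fun_prop
  · simp only [Fin.cons_succ, Fin.cons_zero]
    fun_prop
  · simp only [Fin.cons_succ, Fin.cons_zero]
    fun_prop
  · simp only [Fin.cons_succ, Fin.cons_zero]
    fun_prop
  · simp only [Fin.cons_succ]
    fun_prop

theorem fderiv_coord {N : ℕ} {f : (Fin (k + 2) → ℝ) → EuclideanSpace ℝ (Fin N)}
    {u : Fin (k + 2) → ℝ} (hf : DifferentiableAt ℝ f u) (v : Fin (k + 2) → ℝ) (j : Fin N) :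
    (fderiv ℝ f u v) j = fderiv ℝ (fun w => f w j) u v := by
  have h := ((EuclideanSpace.proj j : EuclideanSpace ℝ (Fin N) →L[ℝ] ℝ).hasFDerivAt
    (x := f u)).comp u hf.hasFDerivAt
  have h2 : HasFDerivAt (fun w => f w j)
    ((EuclideanSpace.proj j : EuclideanSpace ℝ (Fin N) →L[ℝ] ℝ).comp (fderiv ℝ f u)) u := h
  rw [h2.fderiv]
  rfl

theorem fderiv_xc {u : Fin (k + 2) → ℝ} (hu : u ∈ U k) (v : Fin (k + 2) → ℝ)
    (j : Fin (k + 2 + 2)) : fderiv ℝ (fun w => xc w j) u v = dxc u v j := by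
  simp only [xc, dxc]
  refine Fin.cases ?_ (fun j => Fin.cases ?_ (fun j => Fin.cases ?_ (fun j => Fin.cases ?_
    (fun j => ?_) j) j) j) j
  · simp only [Fin.cons_zero]
    rw [(hasFDerivAt_s_mul 0 hu (Real.hasDerivAt_cos _)).fderiv]
    simp
    ring
  · simp only [Fin.cons_succ, Fin.cons_zero]
    rw [(hasFDerivAt_s_mul 0 hu (Real.hasDerivAt_sin _)).fderiv]
    simp
    ring
  · simp only [Fin.cons_succ, Fin.cons_zero]
    rw [(hasFDerivAt_s_mul 1 hu (Real.hasDerivAt_cos _)).fderiv]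
    simp
    ring
  · simp only [Fin.cons_succ, Fin.cons_zero]
    rw [(hasFDerivAt_s_mul 1 hu (Real.hasDerivAt_sin _)).fderiv]
    simp
    ring
  · simp only [Fin.cons_succ]
    rw [(hasFDerivAt_coord _ _).fderiv]
    simp

theorem differentiableAt_x {u : Fin (k + 2) → ℝ} (hu : u ∈ U k) : DifferentiableAt ℝ x u :=
  (contDiffOn_x.differentiableOn (by simp)).differentiableAt (isOpen_U.mem_nhds hu)

theorem fderiv_x {u : Fin (k + 2) → ℝ} (hu : u ∈ U k) (v : Fin (k + 2) → ℝ)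
    (j : Fin (k + 2 + 2)) : (fderiv ℝ x u v) j = dxc u v j := by
  rw [fderiv_coord (differentiableAt_x hu), ← fderiv_xc hu]
  rfl

theorem fderiv_ξ (u v : Fin (k + 2) → ℝ)
    (j : Fin (k + 2 + 2)) : (fderiv ℝ ξ u v) j = dξc u v j := by
  rw [fderiv_coord (contDiff_ξ.differentiable (by simp) u)]
  simp only [ξ, ξc, dξc]
  refine Fin.cases ?_ (fun j => Fin.cases ?_ (fun j => Fin.cases ?_ (fun j => Fin.cases ?_
    (fun j => ?_) j) j) j) j
  · simp only [Fin.cons_zero, div_eq_mul_inv]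
    rw [((hasFDerivAt_comp_coord 0 (Real.hasDerivAt_cos _)).mul_const _).fderiv]
    simp
    ring
  · simp only [Fin.cons_succ, Fin.cons_zero, div_eq_mul_inv]
    rw [((hasFDerivAt_comp_coord 0 (Real.hasDerivAt_sin _)).mul_const _).fderiv]
    simp
    ring
  · simp only [Fin.cons_succ, Fin.cons_zero, div_eq_mul_inv]
    rw [((hasFDerivAt_comp_coord 1 (Real.hasDerivAt_cos _)).fun_neg.mul_const _).fderiv]
    simp
    ring
  · simp only [Fin.cons_succ, Fin.cons_zero, div_eq_mul_inv]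
    rw [((hasFDerivAt_comp_coord 1 (Real.hasDerivAt_sin _)).fun_neg.mul_const _).fderiv]
    simp
    ring
  · simp only [Fin.cons_succ]
    simp


theorem inner_eq_sum {N : ℕ} (a b : EuclideanSpace ℝ (Fin N)) : ⟪a, b⟫_ℝ = ∑ j, a j * b j := by
  simp [PiLp.inner_apply, mul_comm]

theorem inner_dx {u : Fin (k + 2) → ℝ} (hu : u ∈ U k) (v v' : Fin (k + 2) → ℝ) :
    ⟪fderiv ℝ x u v, fderiv ℝ x u v'⟫_ℝ = (s u)⁻¹ ^ 2 * wl u v * wl u v' +
      s u ^ 2 / 2 * (v 0 * v' 0 + v 1 * v' 1) + ∑ i : Fin k, v i.succ.succ * v' i.succ.succ := by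
  have h0 := Real.sin_sq_add_cos_sq (u 0)
  have h1 := Real.sin_sq_add_cos_sq (u 1)
  have h2 : (√2 : ℝ)⁻¹ * (√2)⁻¹ = 1 / 2 := by
    rw [← mul_inv, Real.mul_self_sqrt (by norm_num)]; norm_num
  rw [inner_eq_sum]
  simp only [fderiv_x hu]
  rw [Fin.sum_univ_succ, Fin.sum_univ_succ, Fin.sum_univ_succ, Fin.sum_univ_succ]
  simp only [dxc, Fin.cons_zero, Fin.cons_succ, div_eq_mul_inv]
  generalize wl u v = a
  generalize wl u v' = b
  generalize (∑ i : Fin k, v i.succ.succ * v' i.succ.succ) = c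
  generalize (s u)⁻¹ = r
  generalize s u = t
  generalize (√2 : ℝ)⁻¹ = z at h2 ⊢
  linear_combination (r ^ 2 * a * b + t ^ 2 * v 0 * v' 0) * z ^ 2 * h0 +
    (r ^ 2 * a * b + t ^ 2 * v 1 * v' 1) * z ^ 2 * h1 +
    (2 * r ^ 2 * a * b + t ^ 2 * v 0 * v' 0 + t ^ 2 * v 1 * v' 1) * h2

theorem immersion {u : Fin (k + 2) → ℝ} (hu : u ∈ U k) :
    Function.Injective (fderiv ℝ x u) := by
  rw [injective_iff_map_eq_zero]
  intro v hv
  have h := inner_dx hu v v
  rw [hv, inner_zero_left] at h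
  have hs := s_pos hu
  have h1 : 0 ≤ (s u)⁻¹ ^ 2 * wl u v * wl u v := by
    have : (s u)⁻¹ ^ 2 * wl u v * wl u v = ((s u)⁻¹ * wl u v) ^ 2 := by ring
    rw [this]; positivity
  have h2 : 0 ≤ ∑ i : Fin k, v i.succ.succ * v i.succ.succ :=
    Finset.sum_nonneg fun i _ => mul_self_nonneg _
  have h3 : 0 < s u ^ 2 / 2 := by positivity
  have h4 : 0 ≤ v 0 * v 0 + v 1 * v 1 := add_nonneg (mul_self_nonneg _) (mul_self_nonneg _)
  have h5 : v 0 * v 0 + v 1 * v 1 = 0 := by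
    by_contra hne
    have : 0 < s u ^ 2 / 2 * (v 0 * v 0 + v 1 * v 1) :=
      mul_pos h3 (lt_of_le_of_ne h4 (Ne.symm hne))
    linarith
  have h6 : ∑ i : Fin k, v i.succ.succ * v i.succ.succ = 0 := by
    rw [h5] at h
    linarith
  have h7 := (Finset.sum_eq_zero_iff_of_nonneg (fun i _ => mul_self_nonneg (v (Fin.succ (Fin.succ i))))).1 h6
  have h8 : v 0 = 0 := by nlinarith [mul_self_nonneg (v 0), mul_self_nonneg (v 1)]
  have h9 : v 1 = 0 := by nlinarith [mul_self_nonneg (v 0), mul_self_nonneg (v 1)]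
  funext i
  refine Fin.cases h8 (fun i => Fin.cases h9 (fun i => ?_) i) i
  exact mul_self_eq_zero.1 (h7 i (Finset.mem_univ _))

theorem norm_x {u : Fin (k + 2) → ℝ} (hu : u ∈ U k) : ‖x u‖ = 1 := by
  have h : ⟪x u, x u⟫_ℝ = 1 := by
    have h0 := Real.sin_sq_add_cos_sq (u 0)
    have h1 := Real.sin_sq_add_cos_sq (u 1)
    have h2 : (√2 : ℝ)⁻¹ * (√2)⁻¹ = 1 / 2 := by
      rw [← mul_inv, Real.mul_self_sqrt (by norm_num)]; norm_num
    have h3 := s_sq hu
    have h4 : q u = ∑ i : Fin k, u i.succ.succ * u i.succ.succ := by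
      simp [q, sq]
    rw [inner_eq_sum]
    simp only [x]
    rw [Fin.sum_univ_succ, Fin.sum_univ_succ, Fin.sum_univ_succ, Fin.sum_univ_succ]
    simp only [xc, Fin.cons_zero, Fin.cons_succ, div_eq_mul_inv]
    rw [← h4]
    linear_combination (s u) ^ 2 * (√2)⁻¹ * (√2)⁻¹ * (h0 + h1) + 2 * s u ^ 2 * h2 + h3
  rw [real_inner_self_eq_norm_sq] at h
  nlinarith [norm_nonneg (x u)]

theorem norm_ξ (u : Fin (k + 2) → ℝ) : ‖ξ u‖ = 1 := by
  have h : ⟪ξ u, ξ u⟫_ℝ = 1 := by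
    have h0 := Real.sin_sq_add_cos_sq (u 0)
    have h1 := Real.sin_sq_add_cos_sq (u 1)
    have h2 : (√2 : ℝ)⁻¹ * (√2)⁻¹ = 1 / 2 := by
      rw [← mul_inv, Real.mul_self_sqrt (by norm_num)]; norm_num
    rw [inner_eq_sum]
    simp only [ξ]
    rw [Fin.sum_univ_succ, Fin.sum_univ_succ, Fin.sum_univ_succ, Fin.sum_univ_succ]
    simp only [ξc, Fin.cons_zero, Fin.cons_succ, div_eq_mul_inv, mul_zero, Finset.sum_const_zero]
    linear_combination (√2)⁻¹ * (√2)⁻¹ * (h0 + h1) + 2 * h2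
  rw [real_inner_self_eq_norm_sq] at h
  nlinarith [norm_nonneg (ξ u)]

theorem inner_ξ_x (u : Fin (k + 2) → ℝ) : ⟪ξ u, x u⟫_ℝ = 0 := by
  have h0 := Real.sin_sq_add_cos_sq (u 0)
  have h1 := Real.sin_sq_add_cos_sq (u 1)
  rw [inner_eq_sum]
  simp only [ξ, x]
  rw [Fin.sum_univ_succ, Fin.sum_univ_succ, Fin.sum_univ_succ, Fin.sum_univ_succ]
  simp only [ξc, xc, Fin.cons_zero, Fin.cons_succ, div_eq_mul_inv, zero_mul,
    Finset.sum_const_zero]
  linear_combination s u * (√2)⁻¹ * (√2)⁻¹ * (h0 - h1)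

theorem inner_ξ_dx {u : Fin (k + 2) → ℝ} (hu : u ∈ U k) (v : Fin (k + 2) → ℝ) :
    ⟪ξ u, fderiv ℝ x u v⟫_ℝ = 0 := by
  have h0 := Real.sin_sq_add_cos_sq (u 0)
  have h1 := Real.sin_sq_add_cos_sq (u 1)
  rw [inner_eq_sum]
  simp only [fderiv_x hu]
  simp only [ξ]
  rw [Fin.sum_univ_succ, Fin.sum_univ_succ, Fin.sum_univ_succ, Fin.sum_univ_succ]
  simp only [ξc, dxc, Fin.cons_zero, Fin.cons_succ, div_eq_mul_inv, zero_mul,
    Finset.sum_const_zero]
  linear_combination -(s u)⁻¹ * wl u v * (√2)⁻¹ * (√2)⁻¹ * (h0 - h1)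

theorem isConnected_U : IsConnected (U k) := by
  have hc : Convex ℝ (U k) := by
    have h : ConvexOn ℝ Set.univ (q (k := k)) := by
      refine ⟨convex_univ, fun y _ z _ a b ha hb hab => ?_⟩
      simp only [q, smul_eq_mul, Pi.add_apply, Pi.smul_apply]
      rw [Finset.mul_sum, Finset.mul_sum, ← Finset.sum_add_distrib]
      refine Finset.sum_le_sum fun i _ => ?_
      have h1 := (even_two.convexOn_pow (𝕜 := ℝ)).2 (Set.mem_univ (y i.succ.succ))
        (Set.mem_univ (z i.succ.succ)) ha hb hab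
      simpa [smul_eq_mul] using h1
    have := h.convex_lt 1
    simpa [U] using this
  refine ⟨⟨0, ?_⟩, hc.isPreconnected⟩
  show q (0 : Fin (k + 2) → ℝ) < 1
  simp [q]

theorem isHypersurface : IsHypersurface (U k) x ξ where
  isOpen := isOpen_U
  isConnected := isConnected_U
  smooth := contDiffOn_x
  smooth_normal := contDiff_ξ.contDiffOn
  immersion := fun _ hu => immersion hu
  norm_eq := fun _ hu => norm_x hu
  norm_normal := fun u _ => norm_ξ u
  normal_inner := fun u _ => inner_ξ_x u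
  normal_tangent := fun _ hu v => inner_ξ_dx hu v

end Pool.Agent.TH154.Dupin
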