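import Pool.Agent.TH154.DupinCone

set_option autoImplicit false

open scoped InnerProductSpace ContDiff

namespace Pool.Agent.TH154.Dupin

variable {k : ℕ}

theorem succ_succ_ne_one (l : Fin k) : (l.succ.succ : Fin (k + 2)) ≠ 1 := by
  intro h
  have := congrArg Fin.val h
  simp at this

theorem one_ne_succ_succ (l : Fin k) : (1 : Fin (k + 2)) ≠ l.succ.succ :=
  (succ_succ_ne_one l).symm

/-- auxiliary symmetric matrices -/
noncomputable def MM (w : Fin k → ℝ) (α β : ℝ) : Matrix (Fin (k + 2)) (Fin (k + 2)) ℝ :=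
  Matrix.of fun i j => Fin.cases (motive := fun _ => ℝ) (if j = 0 then β else 0)
    (fun i => Fin.cases (motive := fun _ => ℝ) (if j = 1 then β else 0)
      (fun i => Fin.cases (motive := fun _ => ℝ) 0 (fun j => Fin.cases (motive := fun _ => ℝ) 0
        (fun j => (if i = j then 1 else 0) + α * (w i * w j)) j) j) i) i

section entries
variable (w : Fin k → ℝ) (α β : ℝ)
theorem MM00 : MM w α β 0 0 = β := rfl
theorem MM01 : MM w α β 0 1 = 0 := rfl
theorem MM10 : MM w α β 1 0 = 0 := rfl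
theorem MM11 : MM w α β 1 1 = β := rfl
theorem MM0s (j : Fin (k + 1)) : MM w α β 0 j.succ = 0 := by
  simp [MM, Fin.succ_ne_zero]
theorem MM0i (j : Fin k) : MM w α β 0 j.succ.succ = 0 := MM0s w α β _
theorem MM1i (j : Fin k) : MM w α β 1 j.succ.succ = 0 := by
  show (if (j.succ.succ : Fin (k + 2)) = 1 then β else 0) = 0
  rw [if_neg (succ_succ_ne_one j)]
theorem MMi0 (j : Fin k) : MM w α β j.succ.succ 0 = 0 := rfl
theorem MMi1 (j : Fin k) : MM w α β j.succ.succ 1 = 0 := rfl
theorem MMij (i j : Fin k) : MM w α β i.succ.succ j.succ.succ =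
    (if i = j then 1 else 0) + α * (w i * w j) := rfl
end entries

theorem det_MM (w : Fin k → ℝ) (α β : ℝ) : (MM w α β).det = β ^ 2 * (1 + α * ∑ i, w i ^ 2) := by
  have h1 : (MM w α β).submatrix Fin.succ Fin.succ 0 0 = β := rfl
  have h2 : ∀ j : Fin k, (MM w α β).submatrix Fin.succ Fin.succ 0 j.succ = 0 := fun j =>
    MM1i w α β j
  rw [Matrix.det_succ_row_zero, Fin.sum_univ_succ]
  have h3 : ∀ i : Fin (k + 1), (-1 : ℝ) ^ ((i.succ : Fin (k + 2)) : ℕ) * MM w α β 0 i.succ *
    ((MM w α β).submatrix Fin.succ (Fin.succAbove i.succ)).det = 0 := by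
    intro i
    rw [MM0s]; simp
  rw [Finset.sum_eq_zero (fun i _ => h3 i)]
  have h4 : ((0 : Fin (k + 2)).succAbove) = Fin.succ := by
    funext i; simp
  rw [h4, MM00]
  rw [Matrix.det_succ_row_zero, Fin.sum_univ_succ]
  have h5 : ∀ i : Fin k, (-1 : ℝ) ^ ((i.succ : Fin (k + 1)) : ℕ) *
    (MM w α β).submatrix Fin.succ Fin.succ 0 i.succ *
    (((MM w α β).submatrix Fin.succ Fin.succ).submatrix Fin.succ (Fin.succAbove i.succ)).det
      = 0 := by
    intro i
    rw [h2]; simp
  rw [Finset.sum_eq_zero (fun i _ => h5 i), h1]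
  have h6 : ((0 : Fin (k + 1)).succAbove) = Fin.succ := by
    funext i; simp
  rw [h6]
  have h7 : ((MM w α β).submatrix Fin.succ Fin.succ).submatrix Fin.succ Fin.succ =
      1 + Matrix.replicateCol Unit (fun i => α * w i) * Matrix.replicateRow Unit w := by
    ext i j
    show MM w α β i.succ.succ j.succ.succ = _
    rw [MMij]
    simp [Matrix.one_apply, Matrix.mul_apply]
    ring
  rw [h7, Matrix.det_one_add_replicateCol_mul_replicateRow]
  simp only [dotProduct, Fin.val_zero, pow_zero, one_mul, add_zero]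
  rw [Finset.mul_sum]
  have h8 : ∑ i, w i * (α * w i) = ∑ i, α * w i ^ 2 := by
    refine Finset.sum_congr rfl fun i _ => by ring
  rw [h8]
  ring

theorem MM_mul (w : Fin k → ℝ) {α β α' β' : ℝ} (hβ : β * β' = 1)
    (hα : α + α' + α * α' * ∑ i, w i ^ 2 = 0) : MM w α β * MM w α' β' = 1 := by
  ext i j
  rw [Matrix.mul_apply, Fin.sum_univ_succ, Fin.sum_univ_succ]
  have e1 : (Fin.succ 0 : Fin (k + 2)) = 1 := rfl
  rw [e1]
  refine Fin.cases ?_ (fun i => Fin.cases ?_ (fun i => ?_) i) i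
  · rw [MM00, MM01]
    simp only [MM0i]
    refine Fin.cases ?_ (fun j => Fin.cases ?_ (fun j => ?_) j) j
    · rw [MM00]; simp [hβ]
    · rw [e1, MM01]; simp
    · rw [MM0i]; simp [Matrix.one_apply, (Fin.succ_ne_zero _).symm]
  · rw [e1, MM10, MM11]
    simp only [MM1i]
    refine Fin.cases ?_ (fun j => Fin.cases ?_ (fun j => ?_) j) j
    · rw [MM10]; simp
    · rw [e1, MM11]; simp [hβ]
    · rw [MM1i]; simp [Matrix.one_apply, one_ne_succ_succ]
  · rw [MMi0, MMi1]
    simp only [MMij]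
    refine Fin.cases ?_ (fun j => Fin.cases ?_ (fun j => ?_) j) j
    · simp only [MMi0]; simp [Matrix.one_apply, Fin.succ_ne_zero]
    · rw [e1]; simp only [MMi1]; simp [Matrix.one_apply, succ_succ_ne_one]
    · simp only [MMij]
      have h1 : ∀ l : Fin k, ((if i = l then (1 : ℝ) else 0) + α * (w i * w l)) *
          ((if l = j then 1 else 0) + α' * (w l * w j)) =
          (if i = l then (if l = j then (1 : ℝ) else 0) + α' * (w l * w j) else 0) +
          (if l = j then α * (w i * w l) else 0) + α * α' * (w i * w j) * w l ^ 2 := by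
        intro l
        split_ifs <;> ring
      simp only [h1, Finset.sum_add_distrib, ← Finset.mul_sum]
      simp only [Finset.sum_ite_eq, Finset.sum_ite_eq', Finset.mem_univ, if_true]
      rw [Matrix.one_apply]
      have h2 : ((i.succ.succ : Fin (k + 2)) = j.succ.succ) ↔ i = j := by
        rw [Fin.succ_inj, Fin.succ_inj]
      simp only [h2]
      linear_combination (w i * w j) * hα

theorem inv_MM (w : Fin k → ℝ) {α β α' β' : ℝ} (hβ : β * β' = 1)
    (hα : α + α' + α * α' * ∑ i, w i ^ 2 = 0) : (MM w α β)⁻¹ = MM w α' β' :=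
  Matrix.inv_eq_right_inv (MM_mul w hβ hα)

/-- the last coordinates -/
def ww (u : Fin (k + 2) → ℝ) : Fin k → ℝ := fun i => u i.succ.succ

theorem wl_single0 (u : Fin (k + 2) → ℝ) : wl u (Pi.single 0 1) = 0 := by
  rw [wl_apply]
  exact Finset.sum_eq_zero fun i _ => by simp [Pi.single_apply, Fin.succ_ne_zero]

theorem wl_single1 (u : Fin (k + 2) → ℝ) : wl u (Pi.single 1 1) = 0 := by
  rw [wl_apply]
  exact Finset.sum_eq_zero fun i _ => by simp [Pi.single_apply, succ_succ_ne_one]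

theorem wl_singlei (u : Fin (k + 2) → ℝ) (i : Fin k) :
    wl u (Pi.single i.succ.succ 1) = ww u i := by
  rw [wl_apply]
  rw [Finset.sum_eq_single i]
  · simp [ww]
  · intro j _ hj
    have : (j.succ.succ : Fin (k + 2)) ≠ i.succ.succ := by
      rw [Ne, Fin.succ_inj, Fin.succ_inj]; exact hj
    simp [Pi.single_apply, this]
  · simp

theorem sum_single (u : Fin (k + 2) → ℝ) (i : Fin k) :
    ∑ l : Fin k, (Pi.single i.succ.succ 1 : Fin (k + 2) → ℝ) l.succ.succ * u l.succ.succ
      = u i.succ.succ := by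
  rw [Finset.sum_eq_single i]
  · simp
  · intro j _ hj
    have : (j.succ.succ : Fin (k + 2)) ≠ i.succ.succ := by
      rw [Ne, Fin.succ_inj, Fin.succ_inj]; exact hj
    simp [Pi.single_apply, this]
  · simp

theorem metric_x {u : Fin (k + 2) → ℝ} (hu : u ∈ U k) :
    metric x u = MM (ww u) ((s u)⁻¹ ^ 2) (s u ^ 2 / 2) := by
  have e1 : (Fin.succ 0 : Fin (k + 2)) = 1 := rfl
  have z0 : ∀ (l : Fin k) (v : Fin (k + 2) → ℝ),
      (Pi.single 0 1 : Fin (k + 2) → ℝ) l.succ.succ * v l.succ.succ = 0 := by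
    intro l v; simp [Pi.single_apply, Fin.succ_ne_zero]
  have z1 : ∀ (l : Fin k) (v : Fin (k + 2) → ℝ),
      (Pi.single 1 1 : Fin (k + 2) → ℝ) l.succ.succ * v l.succ.succ = 0 := by
    intro l v; simp [Pi.single_apply, succ_succ_ne_one]
  ext i j
  show ⟪fderiv ℝ x u (Pi.single i 1), fderiv ℝ x u (Pi.single j 1)⟫_ℝ = _
  rw [inner_dx hu]
  refine Fin.cases ?_ (fun i => Fin.cases ?_ (fun i => ?_) i) i
  · rw [Finset.sum_eq_zero fun l _ => z0 l _, wl_single0]
    refine Fin.cases ?_ (fun j => Fin.cases ?_ (fun j => ?_) j) j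
    · rw [MM00]; simp
    · rw [e1, MM01]; simp
    · rw [MM0i]; simp [Pi.single_apply, one_ne_succ_succ, (Fin.succ_ne_zero _).symm]
  · rw [e1, Finset.sum_eq_zero fun l _ => z1 l _, wl_single1]
    refine Fin.cases ?_ (fun j => Fin.cases ?_ (fun j => ?_) j) j
    · rw [MM10]; simp
    · rw [e1, MM11]; simp
    · rw [MM1i]; simp [Pi.single_apply, one_ne_succ_succ, (Fin.succ_ne_zero _).symm]
  · rw [wl_singlei, sum_single]
    refine Fin.cases ?_ (fun j => Fin.cases ?_ (fun j => ?_) j) j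
    · rw [MMi0, wl_single0]; simp [Pi.single_apply, one_ne_succ_succ, (Fin.succ_ne_zero _).symm]
    · rw [e1, MMi1, wl_single1]
      simp [Pi.single_apply, one_ne_succ_succ, succ_succ_ne_one, (Fin.succ_ne_zero _).symm]
    · rw [MMij, wl_singlei]
      have h2 : ((i.succ.succ : Fin (k + 2)) = j.succ.succ) ↔ i = j := by
        rw [Fin.succ_inj, Fin.succ_inj]
      simp [Pi.single_apply, one_ne_succ_succ, (Fin.succ_ne_zero _).symm, h2]
      ring

theorem det_metric {u : Fin (k + 2) → ℝ} (hu : u ∈ U k) :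
    √(metric x u).det = s u / 2 := by
  have hs := s_pos hu
  have hq : ∑ i, ww u i ^ 2 = 1 - s u ^ 2 := q_eq hu
  rw [metric_x hu, det_MM, hq]
  have : (s u ^ 2 / 2) ^ 2 * (1 + (s u)⁻¹ ^ 2 * (1 - s u ^ 2)) = (s u / 2) ^ 2 := by
    field_simp
    ring
  rw [this, Real.sqrt_sq (by positivity)]

theorem inv_metric {u : Fin (k + 2) → ℝ} (hu : u ∈ U k) :
    (metric x u)⁻¹ = MM (ww u) (-1) (2 / s u ^ 2) := by
  have hs := s_pos hu
  have hq : ∑ i, ww u i ^ 2 = 1 - s u ^ 2 := q_eq hu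
  rw [metric_x hu]
  refine inv_MM _ (by field_simp) ?_
  rw [hq]
  field_simp
  ring

end Pool.Agent.TH154.Dupin
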