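import Pool.Agent.TH154.DupinCone2

set_option autoImplicit false

open scoped InnerProductSpace ContDiff

namespace Pool.Agent.TH154.Dupin

variable {k : ℕ}

theorem flux0 {v : Fin (k + 2) → ℝ} (hv : v ∈ U k) (P : Fin (k + 2) → ℝ) :
    √(metric x v).det * ∑ j, (metric x v)⁻¹ 0 j * P j = (s v)⁻¹ * P 0 := by
  have hs := s_pos hv
  have e1 : (Fin.succ 0 : Fin (k + 2)) = 1 := rfl
  rw [det_metric hv, inv_metric hv, Fin.sum_univ_succ, Fin.sum_univ_succ, e1, MM00, MM01]
  simp only [MM0i]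
  simp
  field_simp

theorem flux1 {v : Fin (k + 2) → ℝ} (hv : v ∈ U k) (P : Fin (k + 2) → ℝ) :
    √(metric x v).det * ∑ j, (metric x v)⁻¹ 1 j * P j = (s v)⁻¹ * P 1 := by
  have hs := s_pos hv
  have e1 : (Fin.succ 0 : Fin (k + 2)) = 1 := rfl
  rw [det_metric hv, inv_metric hv, Fin.sum_univ_succ, Fin.sum_univ_succ, e1, MM10, MM11]
  simp only [MM1i]
  simp
  field_simp

theorem fluxi {v : Fin (k + 2) → ℝ} (hv : v ∈ U k) (P : Fin (k + 2) → ℝ) (i : Fin k) :
    √(metric x v).det * ∑ j, (metric x v)⁻¹ i.succ.succ j * P j =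
      s v / 2 * (P i.succ.succ -
        v i.succ.succ * ∑ j : Fin k, v j.succ.succ * P j.succ.succ) := by
  have e1 : (Fin.succ 0 : Fin (k + 2)) = 1 := rfl
  rw [det_metric hv, inv_metric hv, Fin.sum_univ_succ, Fin.sum_univ_succ, e1, MMi0, MMi1]
  simp only [MMij]
  have h1 : ∀ j : Fin k, ((if i = j then (1 : ℝ) else 0) + -1 * (ww v i * ww v j)) *
      P j.succ.succ = (if i = j then P j.succ.succ else 0) -
        v i.succ.succ * (v j.succ.succ * P j.succ.succ) := by
    intro j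
    simp only [ww]
    split_ifs <;> ring
  simp only [h1, Finset.sum_sub_distrib, ← Finset.mul_sum]
  simp

theorem laplace_eq {f : (Fin (k + 2) → ℝ) → ℝ} {u : Fin (k + 2) → ℝ} (hu : u ∈ U k)
    (F0 F1 : (Fin (k + 2) → ℝ) → ℝ) (F : Fin k → (Fin (k + 2) → ℝ) → ℝ)
    (h0 : ∀ v ∈ U k, (s v)⁻¹ * pd 0 f v = F0 v) (h1 : ∀ v ∈ U k, (s v)⁻¹ * pd 1 f v = F1 v)
    (hF : ∀ i, ∀ v ∈ U k, s v / 2 * (pd i.succ.succ f v -
        v i.succ.succ * ∑ j : Fin k, v j.succ.succ * pd j.succ.succ f v) = F i v) :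
    laplace x f u = -((s u / 2)⁻¹ * (pd 0 F0 u + (pd 1 F1 u + ∑ i, pd i.succ.succ (F i) u))) := by
  have hn : U k ∈ nhds u := isOpen_U.mem_nhds hu
  have e1 : (Fin.succ 0 : Fin (k + 2)) = 1 := rfl
  unfold laplace
  rw [det_metric hu, Fin.sum_univ_succ, Fin.sum_univ_succ, e1]
  congr 2
  congr 1
  · unfold pd
    congr 1
    refine Filter.EventuallyEq.fderiv_eq ?_
    filter_upwards [hn] with v hv
    rw [flux0 hv]
    exact h0 v hv
  congr 1
  · unfold pd
    congr 1
    refine Filter.EventuallyEq.fderiv_eq ?_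
    filter_upwards [hn] with v hv
    rw [flux1 hv]
    exact h1 v hv
  · refine Finset.sum_congr rfl fun i _ => ?_
    unfold pd
    congr 1
    refine Filter.EventuallyEq.fderiv_eq ?_
    filter_upwards [hn] with v hv
    rw [fluxi hv]
    exact hF i v hv

theorem sum_sq {v : Fin (k + 2) → ℝ} (hv : v ∈ U k) :
    ∑ j : Fin k, v j.succ.succ * v j.succ.succ = 1 - s v ^ 2 := by
  rw [← q_eq hv]
  simp [q, sq]

theorem s_mul_inv {v : Fin (k + 2) → ℝ} (hv : v ∈ U k) : s v * (s v)⁻¹ = 1 :=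
  mul_inv_cancel₀ (s_pos hv).ne'

/-- the Laplacian of the first two pairs of components -/
theorem laplace_trig0 {f f' : ℝ → ℝ} (hf : ∀ t, HasDerivAt f (f' t) t)
    (hf' : ∀ t, HasDerivAt f' (-f t) t) {u : Fin (k + 2) → ℝ} (hu : u ∈ U k) :
    laplace x (fun v => s v * f (v 0) / √2) u = (k + 2) * (s u * f (u 0) / √2) := by
  have hp : ∀ v ∈ U k, ∀ j, pd j (fun v => s v * f (v 0) / √2) v =
      (√2)⁻¹ * (s v * (f' (v 0) * (Pi.single j 1 : Fin (k + 2) → ℝ) 0) +
        f (v 0) * (-(s v)⁻¹ * wl v (Pi.single j 1))) := by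
    intro v hv j
    unfold pd
    rw [(hasFDerivAt_s_mul 0 hv (hf _)).fderiv]
    simp
    ring
  rw [laplace_eq hu (fun v => (√2)⁻¹ * f' (v 0)) (fun _ => 0)
    (fun i v => -(1 / 2 * (√2)⁻¹) * (f (v 0) * (v i.succ.succ * (1 - q v))))]
  · have d0 : pd 0 (fun v : Fin (k + 2) → ℝ => (√2)⁻¹ * f' (v 0)) u = (√2)⁻¹ * (-f (u 0)) := by
      unfold pd
      rw [((hasFDerivAt_comp_coord 0 (hf' _)).const_mul _).fderiv]
      simp
    have d1 : pd 1 (fun _ : Fin (k + 2) → ℝ => (0 : ℝ)) u = 0 := by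
      unfold pd; simp
    have d2 : ∀ i : Fin k, pd i.succ.succ (fun v : Fin (k + 2) → ℝ =>
        -(1 / 2 * (√2)⁻¹) * (f (v 0) * (v i.succ.succ * (1 - q v)))) u =
        -(1 / 2 * (√2)⁻¹) * (f (u 0) * (s u ^ 2 - 2 * (u i.succ.succ * u i.succ.succ))) := by
      intro i
      unfold pd
      rw [(((hasFDerivAt_comp_coord 0 (hf _)).fun_mul ((hasFDerivAt_coord i.succ.succ u).fun_mul
        ((hasFDerivAt_q u).const_sub 1))).const_mul _).fderiv]
      simp [wl_singlei, ww, (Fin.succ_ne_zero _).symm, ← s_sq hu]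
      ring
    rw [d0, d1]
    simp only [d2]
    rw [← Finset.mul_sum, ← Finset.mul_sum, Finset.sum_sub_distrib, ← Finset.mul_sum, sum_sq hu]
    have hs := s_pos hu
    simp
    field_simp
    ring
  · intro v hv
    rw [hp v hv, wl_single0]
    have := s_mul_inv hv
    simp
    linear_combination (√2)⁻¹ * f' (v 0) * this
  · intro v hv
    rw [hp v hv, wl_single1]
    simp
  · intro i v hv
    simp only [hp v hv, wl_singlei, ww]
    have := s_mul_inv hv
    have h3 : ∑ j : Fin k, v j.succ.succ * ((√2)⁻¹ * (s v * (f' (v 0) *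
        (Pi.single j.succ.succ 1 : Fin (k + 2) → ℝ) 0) + f (v 0) * (-(s v)⁻¹ * v j.succ.succ))) =
        -((√2)⁻¹ * f (v 0) * (s v)⁻¹) * (1 - s v ^ 2) := by
      rw [← sum_sq hv, Finset.mul_sum]
      refine Finset.sum_congr rfl fun j _ => ?_
      simp [(Fin.succ_ne_zero _).symm]
      ring
    rw [h3, ← s_sq hv]
    simp [(Fin.succ_ne_zero _).symm]
    linear_combination (- (√2)⁻¹ * f (v 0) * v i.succ.succ / 2 * s v ^ 2) * this

theorem laplace_trig1 {f f' : ℝ → ℝ} (hf : ∀ t, HasDerivAt f (f' t) t)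
    (hf' : ∀ t, HasDerivAt f' (-f t) t) {u : Fin (k + 2) → ℝ} (hu : u ∈ U k) :
    laplace x (fun v => s v * f (v 1) / √2) u = (k + 2) * (s u * f (u 1) / √2) := by
  have hp : ∀ v ∈ U k, ∀ j, pd j (fun v => s v * f (v 1) / √2) v =
      (√2)⁻¹ * (s v * (f' (v 1) * (Pi.single j 1 : Fin (k + 2) → ℝ) 1) +
        f (v 1) * (-(s v)⁻¹ * wl v (Pi.single j 1))) := by
    intro v hv j
    unfold pd
    rw [(hasFDerivAt_s_mul 1 hv (hf _)).fderiv]
    simp
    ring
  rw [laplace_eq hu (fun _ => 0) (fun v => (√2)⁻¹ * f' (v 1))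
    (fun i v => -(1 / 2 * (√2)⁻¹) * (f (v 1) * (v i.succ.succ * (1 - q v))))]
  · have d0 : pd 1 (fun v : Fin (k + 2) → ℝ => (√2)⁻¹ * f' (v 1)) u = (√2)⁻¹ * (-f (u 1)) := by
      unfold pd
      rw [((hasFDerivAt_comp_coord 1 (hf' _)).const_mul _).fderiv]
      simp
    have d1 : pd 0 (fun _ : Fin (k + 2) → ℝ => (0 : ℝ)) u = 0 := by
      unfold pd; simp
    have d2 : ∀ i : Fin k, pd i.succ.succ (fun v : Fin (k + 2) → ℝ =>
        -(1 / 2 * (√2)⁻¹) * (f (v 1) * (v i.succ.succ * (1 - q v)))) u =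
        -(1 / 2 * (√2)⁻¹) * (f (u 1) * (s u ^ 2 - 2 * (u i.succ.succ * u i.succ.succ))) := by
      intro i
      unfold pd
      rw [(((hasFDerivAt_comp_coord 1 (hf _)).fun_mul ((hasFDerivAt_coord i.succ.succ u).fun_mul
        ((hasFDerivAt_q u).const_sub 1))).const_mul _).fderiv]
      simp [wl_singlei, ww, one_ne_succ_succ, ← s_sq hu]
      ring
    rw [d0, d1]
    simp only [d2]
    rw [← Finset.mul_sum, ← Finset.mul_sum, Finset.sum_sub_distrib, ← Finset.mul_sum, sum_sq hu]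
    have hs := s_pos hu
    simp
    field_simp
    ring
  · intro v hv
    rw [hp v hv, wl_single0]
    simp
  · intro v hv
    rw [hp v hv, wl_single1]
    have := s_mul_inv hv
    simp
    linear_combination (√2)⁻¹ * f' (v 1) * this
  · intro i v hv
    simp only [hp v hv, wl_singlei, ww]
    have := s_mul_inv hv
    have h3 : ∑ j : Fin k, v j.succ.succ * ((√2)⁻¹ * (s v * (f' (v 1) *
        (Pi.single j.succ.succ 1 : Fin (k + 2) → ℝ) 1) + f (v 1) * (-(s v)⁻¹ * v j.succ.succ))) =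
        -((√2)⁻¹ * f (v 1) * (s v)⁻¹) * (1 - s v ^ 2) := by
      rw [← sum_sq hv, Finset.mul_sum]
      refine Finset.sum_congr rfl fun j _ => ?_
      simp [one_ne_succ_succ]
      ring
    rw [h3, ← s_sq hv]
    simp [one_ne_succ_succ]
    linear_combination (- (√2)⁻¹ * f (v 1) * v i.succ.succ / 2 * s v ^ 2) * this

theorem laplace_coord {u : Fin (k + 2) → ℝ} (hu : u ∈ U k) (l : Fin k) :
    laplace x (fun v => v l.succ.succ) u = (k + 2) * u l.succ.succ := by
  have hp : ∀ (v : Fin (k + 2) → ℝ) j, pd j (fun v : Fin (k + 2) → ℝ => v l.succ.succ) v =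
      (Pi.single j 1 : Fin (k + 2) → ℝ) l.succ.succ := by
    intro v j
    unfold pd
    rw [(hasFDerivAt_coord _ _).fderiv]
    simp
  have hij : ∀ i : Fin k, (Pi.single i.succ.succ 1 : Fin (k + 2) → ℝ) l.succ.succ =
      if i = l then 1 else 0 := by
    intro i
    rw [Pi.single_apply]
    have h2 : ((l.succ.succ : Fin (k + 2)) = i.succ.succ) ↔ i = l := by
      rw [Fin.succ_inj, Fin.succ_inj, eq_comm]
    simp only [h2]
  rw [laplace_eq hu (fun _ => 0) (fun _ => 0)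
    (fun i v => (1 / 2 : ℝ) * (s v * ((if i = l then 1 else 0) - v i.succ.succ * v l.succ.succ)))]
  · have d0 : pd 0 (fun _ : Fin (k + 2) → ℝ => (0 : ℝ)) u = 0 := by
      unfold pd; simp
    have d1 : pd 1 (fun _ : Fin (k + 2) → ℝ => (0 : ℝ)) u = 0 := by
      unfold pd; simp
    have d2 : ∀ i : Fin k, pd i.succ.succ (fun v : Fin (k + 2) → ℝ =>
        (1 / 2 : ℝ) * (s v * ((if i = l then 1 else 0) - v i.succ.succ * v l.succ.succ))) u =
        -(1 / 2 * (s u)⁻¹ + s u / 2) * (if i = l then u i.succ.succ else 0) +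
        1 / 2 * (s u)⁻¹ * u l.succ.succ * (u i.succ.succ * u i.succ.succ)
        - 1 / 2 * s u * u l.succ.succ := by
      intro i
      unfold pd
      rw [((((hasFDerivAt_s hu).fun_mul (((hasFDerivAt_coord i.succ.succ u).fun_mul
        (hasFDerivAt_coord l.succ.succ u)).const_sub _)).const_mul _)).fderiv]
      simp only [smul_apply, add_apply,
        neg_apply, ContinuousLinearMap.proj_apply, hij, smul_eq_mul,
        Pi.single_eq_same, wl_singlei, ww]
      split_ifs <;> ring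
    rw [d0, d1]
    simp only [d2]
    rw [Finset.sum_sub_distrib, Finset.sum_add_distrib, ← Finset.mul_sum, ← Finset.mul_sum,
      sum_sq hu]
    have hs := s_pos hu
    simp
    field_simp
    ring
  · intro v hv
    rw [hp]
    simp
  · intro v hv
    rw [hp]
    simp [succ_succ_ne_one]
  · intro i v hv
    simp only [hp, hij]
    simp
    ring

end Pool.Agent.TH154.Dupin
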