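import Pool.Agent.TH154.DupinCone3

set_option autoImplicit false

open scoped InnerProductSpace ContDiff

namespace Pool.Agent.TH154.Dupin

variable {k : ℕ}

theorem hasDerivAt_neg_sin (t : ℝ) : HasDerivAt (fun t => -Real.sin t) (-Real.cos t) t :=
  (Real.hasDerivAt_sin t).neg

theorem laplace_x {u : Fin (k + 2) → ℝ} (hu : u ∈ U k) (j : Fin (k + 2 + 2)) :
    laplace x (fun v => x v j) u = (k + 2) * x u j := by
  simp only [x, xc]
  refine Fin.cases ?_ (fun j => Fin.cases ?_ (fun j => Fin.cases ?_ (fun j => Fin.cases ?_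
    (fun j => ?_) j) j) j) j
  · simp only [Fin.cons_zero]
    exact laplace_trig0 Real.hasDerivAt_cos (fun t => (Real.hasDerivAt_sin t).neg) hu
  · simp only [Fin.cons_succ, Fin.cons_zero]
    exact laplace_trig0 Real.hasDerivAt_sin Real.hasDerivAt_cos hu
  · simp only [Fin.cons_succ, Fin.cons_zero]
    exact laplace_trig1 Real.hasDerivAt_cos (fun t => (Real.hasDerivAt_sin t).neg) hu
  · simp only [Fin.cons_succ, Fin.cons_zero]
    exact laplace_trig1 Real.hasDerivAt_sin Real.hasDerivAt_cos hu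
  · simp only [Fin.cons_succ]
    exact laplace_coord hu j

theorem zero_mem : (0 : Fin (k + 2) → ℝ) ∈ U k := by
  show q (0 : Fin (k + 2) → ℝ) < 1
  simp [q]

theorem isOfType : IsOfType 1 (U k) (x (k := k)) := by
  refine ⟨0, fun _ => x, fun _ => k + 2, Function.injective_of_subsingleton _,
    fun _ => contDiffOn_x, fun _ => ?_, fun u _ => by simp, fun _ u hu j => laplace_x hu j⟩
  refine ⟨0, zero_mem, Pi.single 0 Real.pi, ?_, ?_⟩
  · show q (Pi.single 0 Real.pi : Fin (k + 2) → ℝ) < 1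
    simp [q, Fin.succ_ne_zero]
  · intro h
    have h0 := congrArg (fun y : EuclideanSpace ℝ (Fin (k + 2 + 2)) => y 0) h
    simp only [x, xc, Fin.cons_zero] at h0
    have hs1 : s (0 : Fin (k + 2) → ℝ) = 1 := by simp [s, q]
    have hs2 : s (Pi.single 0 Real.pi : Fin (k + 2) → ℝ) = 1 := by
      simp [s, q, Fin.succ_ne_zero]
    rw [hs1, hs2] at h0
    simp at h0
    have h2 : 0 < (√2 : ℝ)⁻¹ := by positivity
    rw [neg_div, one_div] at h0
    linarith

theorem mem_eigenspace {u : Fin (k + 2) → ℝ} (hu : u ∈ U k) (κ : ℝ) (v : Fin (k + 2) → ℝ) :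
    v ∈ eigenspace x ξ u κ ↔
      v 0 * (1 + κ * s u) = 0 ∧ v 1 * (κ * s u - 1) = 0 ∧ ∀ i : Fin k, κ * v i.succ.succ = 0 := by
  have h00 := Real.sin_sq_add_cos_sq (u 0)
  have h11 := Real.sin_sq_add_cos_sq (u 1)
  have hz : (√2 : ℝ)⁻¹ ≠ 0 := by positivity
  have hmem : v ∈ eigenspace x ξ u κ ↔ ∀ j, dξc u v j + κ * dxc u v j = 0 := by
    show fderiv ℝ ξ u v + κ • fderiv ℝ x u v = 0 ↔ _
    constructor
    · intro h j
      have := congrArg (fun y : EuclideanSpace ℝ (Fin (k + 2 + 2)) => y j) h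
      simpa [fderiv_x hu, fderiv_ξ] using this
    · intro h
      ext j
      simpa [fderiv_x hu, fderiv_ξ] using h j
  rw [hmem]
  constructor
  · intro h
    have g0 := h 0
    have g1 := h (Fin.succ 0)
    have g2 := h (Fin.succ (Fin.succ 0))
    have g3 := h (Fin.succ (Fin.succ (Fin.succ 0)))
    have g4 : ∀ i : Fin k, κ * v i.succ.succ = 0 := by
      intro i
      have := h i.succ.succ.succ.succ
      simpa [dξc, dxc] using this
    simp only [dξc, dxc, Fin.cons_zero, Fin.cons_succ, div_eq_mul_inv] at g0 g1 g2 g3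
    refine ⟨?_, ?_, g4⟩
    · have : (√2 : ℝ)⁻¹ * (v 0 * (1 + κ * s u)) = 0 := by
        linear_combination (-Real.sin (u 0)) * g0 + Real.cos (u 0) * g1 -
          (√2)⁻¹ * (v 0 * (1 + κ * s u)) * h00
      exact (mul_eq_zero.1 this).resolve_left hz
    · have : (√2 : ℝ)⁻¹ * (v 1 * (κ * s u - 1)) = 0 := by
        linear_combination (-Real.sin (u 1)) * g2 + Real.cos (u 1) * g3 -
          (√2)⁻¹ * (v 1 * (κ * s u - 1)) * h11
      exact (mul_eq_zero.1 this).resolve_left hz
  · rintro ⟨a0, a1, a2⟩ j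
    have hw : κ * wl u v = 0 := by
      rw [wl_apply, Finset.mul_sum]
      refine Finset.sum_eq_zero fun i _ => ?_
      linear_combination u i.succ.succ * a2 i
    refine Fin.cases ?_ (fun j => Fin.cases ?_ (fun j => Fin.cases ?_ (fun j => Fin.cases ?_
      (fun j => ?_) j) j) j) j
    · simp only [dξc, dxc, Fin.cons_zero, Fin.cons_succ, div_eq_mul_inv]
      linear_combination -(Real.sin (u 0)) * (√2)⁻¹ * a0 -
        (s u)⁻¹ * Real.cos (u 0) * (√2)⁻¹ * hw
    · simp only [dξc, dxc, Fin.cons_zero, Fin.cons_succ, div_eq_mul_inv]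
      linear_combination (Real.cos (u 0)) * (√2)⁻¹ * a0 -
        (s u)⁻¹ * Real.sin (u 0) * (√2)⁻¹ * hw
    · simp only [dξc, dxc, Fin.cons_zero, Fin.cons_succ, div_eq_mul_inv]
      linear_combination -(Real.sin (u 1)) * (√2)⁻¹ * a1 -
        (s u)⁻¹ * Real.cos (u 1) * (√2)⁻¹ * hw
    · simp only [dξc, dxc, Fin.cons_zero, Fin.cons_succ, div_eq_mul_inv]
      linear_combination (Real.cos (u 1)) * (√2)⁻¹ * a1 -
        (s u)⁻¹ * Real.sin (u 1) * (√2)⁻¹ * hw
    · simp only [dξc, dxc, Fin.cons_succ]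
      simpa using a2 j

theorem mem_neg {u : Fin (k + 2) → ℝ} (hu : u ∈ U k) (v : Fin (k + 2) → ℝ) :
    v ∈ eigenspace x ξ u (-(s u)⁻¹) ↔ v 1 = 0 ∧ ∀ i : Fin k, v i.succ.succ = 0 := by
  have hs := s_pos hu
  have h1 : -(s u)⁻¹ * s u = -1 := by field_simp
  rw [mem_eigenspace hu, h1]
  have h2 : (s u)⁻¹ ≠ 0 := by positivity
  constructor
  · rintro ⟨-, h, g⟩
    refine ⟨by linarith, fun i => ?_⟩
    have := g i
    rcases mul_eq_zero.1 this with h' | h'
    · exact absurd (neg_eq_zero.1 h') h2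
    · exact h'
  · rintro ⟨h, g⟩
    refine ⟨by ring, by rw [h]; ring, fun i => by rw [g i]; ring⟩

theorem mem_pos {u : Fin (k + 2) → ℝ} (hu : u ∈ U k) (v : Fin (k + 2) → ℝ) :
    v ∈ eigenspace x ξ u (s u)⁻¹ ↔ v 0 = 0 ∧ ∀ i : Fin k, v i.succ.succ = 0 := by
  have hs := s_pos hu
  have h1 : (s u)⁻¹ * s u = 1 := by field_simp
  rw [mem_eigenspace hu, h1]
  have h2 : (s u)⁻¹ ≠ 0 := by positivity
  constructor
  · rintro ⟨h, -, g⟩
    refine ⟨by linarith, fun i => ?_⟩
    have := g i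
    rcases mul_eq_zero.1 this with h' | h'
    · exact absurd h' h2
    · exact h'
  · rintro ⟨h, g⟩
    refine ⟨by rw [h]; ring, by ring, fun i => by rw [g i]; ring⟩

theorem mem_zero {u : Fin (k + 2) → ℝ} (hu : u ∈ U k) (v : Fin (k + 2) → ℝ) :
    v ∈ eigenspace x ξ u 0 ↔ v 0 = 0 ∧ v 1 = 0 := by
  rw [mem_eigenspace hu]
  constructor
  · rintro ⟨h, g, -⟩
    exact ⟨by linarith, by linarith⟩
  · rintro ⟨h, g⟩
    exact ⟨by rw [h]; ring, by rw [g]; ring, fun i => by ring⟩

theorem finrank_neg {u : Fin (k + 2) → ℝ} (hu : u ∈ U k) :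
    Module.finrank ℝ (eigenspace x ξ u (-(s u)⁻¹)) = 1 := by
  have : eigenspace x ξ u (-(s u)⁻¹) = Submodule.span ℝ {(Pi.single 0 1 : Fin (k + 2) → ℝ)} := by
    ext v
    rw [mem_neg hu, Submodule.mem_span_singleton]
    constructor
    · rintro ⟨h, g⟩
      refine ⟨v 0, ?_⟩
      funext i
      refine Fin.cases ?_ (fun i => Fin.cases ?_ (fun i => ?_) i) i
      · simp
      · have e1 : (Fin.succ 0 : Fin (k + 2)) = 1 := rfl
        rw [e1, h]; simp
      · rw [g i]; simp [Fin.succ_ne_zero]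
    · rintro ⟨a, rfl⟩
      refine ⟨by simp, fun i => by simp [Fin.succ_ne_zero]⟩
  rw [this]
  exact finrank_span_singleton (by
    intro h
    have := congrFun h 0
    simp at this)

theorem finrank_pos {u : Fin (k + 2) → ℝ} (hu : u ∈ U k) :
    Module.finrank ℝ (eigenspace x ξ u (s u)⁻¹) = 1 := by
  have : eigenspace x ξ u (s u)⁻¹ = Submodule.span ℝ {(Pi.single 1 1 : Fin (k + 2) → ℝ)} := by
    ext v
    rw [mem_pos hu, Submodule.mem_span_singleton]
    constructor
    · rintro ⟨h, g⟩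
      refine ⟨v 1, ?_⟩
      funext i
      refine Fin.cases ?_ (fun i => Fin.cases ?_ (fun i => ?_) i) i
      · rw [h]; simp
      · have e1 : (Fin.succ 0 : Fin (k + 2)) = 1 := rfl
        rw [e1]; simp
      · rw [g i]; simp [succ_succ_ne_one]
    · rintro ⟨a, rfl⟩
      refine ⟨by simp, fun i => by simp [succ_succ_ne_one]⟩
  rw [this]
  exact finrank_span_singleton (by
    intro h
    have := congrFun h 1
    simp at this)

/-- the inclusion of the last `k` coordinates -/
def inc (k : ℕ) : (Fin k → ℝ) →ₗ[ℝ] (Fin (k + 2) → ℝ) where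
  toFun w := Fin.cons 0 (Fin.cons 0 w)
  map_add' a b := by
    funext i
    refine Fin.cases ?_ (fun i => Fin.cases ?_ (fun i => ?_) i) i <;> simp
  map_smul' c a := by
    funext i
    refine Fin.cases ?_ (fun i => Fin.cases ?_ (fun i => ?_) i) i <;> simp

theorem finrank_zero {u : Fin (k + 2) → ℝ} (hu : u ∈ U k) :
    Module.finrank ℝ (eigenspace x ξ u 0) = k := by
  have e1 : (Fin.succ 0 : Fin (k + 2)) = 1 := rfl
  have hinj : Function.Injective (inc k) := by
    intro a b h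
    funext i
    have := congrFun h i.succ.succ
    simpa [inc] using this
  have : eigenspace x ξ u 0 = LinearMap.range (inc k) := by
    ext v
    rw [mem_zero hu, LinearMap.mem_range]
    constructor
    · rintro ⟨h, g⟩
      refine ⟨fun i => v i.succ.succ, ?_⟩
      funext i
      refine Fin.cases ?_ (fun i => Fin.cases ?_ (fun i => ?_) i) i
      · rw [h]; rfl
      · rw [e1, g]; rfl
      · rfl
    · rintro ⟨a, rfl⟩
      exact ⟨rfl, rfl⟩
  rw [this, LinearMap.finrank_range_of_inj hinj]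
  simp

theorem isDupin (hk : 0 < k) : IsDupin (U k) (x (k := k)) ξ 3 ![1, 1, k] := by
  refine ⟨![fun u => -(s u)⁻¹, fun u => (s u)⁻¹, fun _ => 0], ?_, ?_, ?_, ?_, ?_, ?_⟩
  · have h : ContDiffOn ℝ ∞ (fun u : Fin (k + 2) → ℝ => (s u)⁻¹) (U k) :=
      contDiffOn_s.inv fun u hu => (s_pos hu).ne'
    intro i
    fin_cases i
    · exact h.neg
    · exact h
    · exact contDiffOn_const
  · intro u hu
    have h : 0 < (s u)⁻¹ := inv_pos.2 (s_pos hu)
    have h' : 0 < s u := s_pos hu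
    intro i j hij
    fin_cases i <;> fin_cases j <;> simp at hij ⊢ <;> linarith
  · intro i
    fin_cases i <;> simp [hk]
  · simp [Fin.sum_univ_three]; ring
  · intro u hu i
    fin_cases i
    · exact finrank_neg hu
    · exact finrank_pos hu
    · exact finrank_zero hu
  · intro u hu i v hv
    have hs := s_pos hu
    have hinv : HasFDerivAt (fun u : Fin (k + 2) → ℝ => (s u)⁻¹)
        ((-(s u ^ 2)⁻¹) • ((-(s u)⁻¹) • wl u)) u :=
      (hasDerivAt_inv hs.ne').comp_hasFDerivAt u (hasFDerivAt_s hu)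
    fin_cases i
    · have h1 := (mem_neg hu v).1 hv
      have h2 : wl u v = 0 := by
        rw [wl_apply]
        exact Finset.sum_eq_zero fun i _ => by rw [h1.2 i, mul_zero]
      show fderiv ℝ (fun u => -(s u)⁻¹) u v = 0
      rw [hinv.fun_neg.fderiv]
      simp [h2]
    · have h1 := (mem_pos hu v).1 hv
      have h2 : wl u v = 0 := by
        rw [wl_apply]
        exact Finset.sum_eq_zero fun i _ => by rw [h1.2 i, mul_zero]
      show fderiv ℝ (fun u => (s u)⁻¹) u v = 0
      rw [hinv.fderiv]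
      simp [h2]
    · show fderiv ℝ (fun _ => (0 : ℝ)) u v = 0
      simp

theorem not_isIsoparametric (hk : 0 < k) : ¬ IsIsoparametric (U k) (x (k := k)) ξ := by
  intro h
  obtain ⟨m, rfl⟩ : ∃ m, k = m + 1 := ⟨k - 1, by omega⟩
  have hs0 : s (0 : Fin (m + 1 + 2) → ℝ) = 1 := by simp [s, q]
  set b : Fin (m + 1 + 2) → ℝ := Pi.single (Fin.succ (Fin.succ 0)) (1 / 2) with hb
  have hq : q b = 1 / 4 := by
    unfold q
    rw [Fin.sum_univ_succ]
    have : ∀ i : Fin m, b i.succ.succ.succ ^ 2 = 0 := by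
      intro i
      have : (i.succ.succ.succ : Fin (m + 1 + 2)) ≠ Fin.succ (Fin.succ 0) := by
        rw [Ne, Fin.succ_inj, Fin.succ_inj]; exact Fin.succ_ne_zero _
      rw [hb, Pi.single_eq_of_ne this]
      norm_num
    rw [Finset.sum_eq_zero fun i _ => this i]
    simp [hb]
    norm_num
  have hbU : b ∈ U (m + 1) := by
    show q b < 1
    rw [hq]; norm_num
  have hsb : s b ^ 2 = 3 / 4 := by
    rw [s_sq hbU, hq]; norm_num
  have h1 : eigenspace x ξ (0 : Fin (m + 1 + 2) → ℝ) 1 ≠ ⊥ := by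
    intro h'
    have := finrank_pos (k := m + 1) zero_mem
    rw [hs0, inv_one, h'] at this
    simp at this
  have h2 := h 0 zero_mem b hbU 1 h1
  apply h2
  rw [Submodule.eq_bot_iff]
  intro v hv
  rw [mem_eigenspace hbU] at hv
  obtain ⟨a0, a1, a2⟩ := hv
  have hsp := s_pos hbU
  have c0 : v 0 = 0 := by
    rcases mul_eq_zero.1 a0 with h' | h'
    · exact h'
    · linarith
  have c1 : v 1 = 0 := by
    rcases mul_eq_zero.1 a1 with h' | h'
    · exact h'
    · have : s b = 1 := by linarith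
      rw [this] at hsb
      norm_num at hsb
  funext i
  refine Fin.cases c0 (fun i => Fin.cases c1 (fun i => ?_) i) i
  simpa using a2 i

end Pool.Agent.TH154.Dupin
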