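import Mathlib

set_option autoImplicit false

/-!
# Parametrised hypersurfaces of the round sphere `S^{n+1} ⊂ 𝔼^{n+2}`

`x : U → 𝔼^{n+2}` is an immersion with values in the unit sphere, defined on a connected open subset
`U` of `ℝⁿ`, and `ξ` is its unit normal in the sphere.
-/

open scoped InnerProductSpace ContDiff

namespace Pool.Agent.TH154.Dupin

/-- `U ⊆ ℝⁿ` is a nonempty connected open set, `x : U → 𝔼^{n+2}` is a smooth immersion with values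
in the unit sphere `S^{n+1}` and `ξ` is a smooth unit normal field of `x` in the sphere. -/
structure IsHypersurface {n : ℕ} (U : Set (Fin n → ℝ))
    (x ξ : (Fin n → ℝ) → EuclideanSpace ℝ (Fin (n + 2))) : Prop where
  isOpen : IsOpen U
  isConnected : IsConnected U
  smooth : ContDiffOn ℝ ∞ x U
  smooth_normal : ContDiffOn ℝ ∞ ξ U
  immersion : ∀ u ∈ U, Function.Injective (fderiv ℝ x u)
  norm_eq : ∀ u ∈ U, ‖x u‖ = 1
  norm_normal : ∀ u ∈ U, ‖ξ u‖ = 1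
  normal_inner : ∀ u ∈ U, ⟪ξ u, x u⟫_ℝ = 0
  normal_tangent : ∀ u ∈ U, ∀ v, ⟪ξ u, fderiv ℝ x u v⟫_ℝ = 0

/-- The `i`-th partial derivative. -/
noncomputable def pd {n : ℕ} (i : Fin n) (f : (Fin n → ℝ) → ℝ) (u : Fin n → ℝ) : ℝ :=
  fderiv ℝ f u (Pi.single i 1)

/-- The matrix of the induced Riemannian metric (first fundamental form) of `x` at `u`. -/
noncomputable def metric {n N : ℕ} (x : (Fin n → ℝ) → EuclideanSpace ℝ (Fin N))
    (u : Fin n → ℝ) : Matrix (Fin n) (Fin n) ℝ :=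
  Matrix.of fun i j => ⟪fderiv ℝ x u (Pi.single i 1), fderiv ℝ x u (Pi.single j 1)⟫_ℝ

/-- The Laplace operator `Δ f = - (det g)^{-1/2} ∑ᵢ ∂ᵢ ((det g)^{1/2} ∑ⱼ g^{ij} ∂ⱼ f)` of the induced
metric `g` of `x`. -/
noncomputable def laplace {n N : ℕ} (x : (Fin n → ℝ) → EuclideanSpace ℝ (Fin N))
    (f : (Fin n → ℝ) → ℝ) (u : Fin n → ℝ) : ℝ :=
  -((√(metric x u).det)⁻¹ *
    ∑ i, pd i (fun v => √(metric x v).det * ∑ j, (metric x v)⁻¹ i j * pd j f v) u)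

/-- `M = (U, x)` is of `k`-type: `x = c + y₁ + ⋯ + y_k` with `c` constant, `yᵢ` non-constant
and `Δ yᵢ = λᵢ yᵢ` (componentwise) with pairwise different `λᵢ`. -/
def IsOfType {n N : ℕ} (k : ℕ) (U : Set (Fin n → ℝ))
    (x : (Fin n → ℝ) → EuclideanSpace ℝ (Fin N)) : Prop :=
  ∃ (c : EuclideanSpace ℝ (Fin N)) (y : Fin k → (Fin n → ℝ) → EuclideanSpace ℝ (Fin N))
    (l : Fin k → ℝ), Function.Injective l ∧ (∀ i, ContDiffOn ℝ ∞ (y i) U) ∧
    (∀ i, ∃ u ∈ U, ∃ v ∈ U, y i u ≠ y i v) ∧ (∀ u ∈ U, x u = c + ∑ i, y i u) ∧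
    ∀ i, ∀ u ∈ U, ∀ j, laplace x (fun v => y i v j) u = l i * y i u j

/-- The space of the `v` with `dξ(v) = - κ dx(v)`: the eigenspace of the shape operator `A` of
`(x, ξ)` at `u` (given by `dξ = - dx ∘ A`) to the value `κ`. -/
noncomputable def eigenspace {n N : ℕ} (x ξ : (Fin n → ℝ) → EuclideanSpace ℝ (Fin N))
    (u : Fin n → ℝ) (κ : ℝ) : Submodule ℝ (Fin n → ℝ) :=
  LinearMap.ker (fderiv ℝ ξ u + κ • fderiv ℝ x u).toLinearMap

/-- The hypersurface is Dupin: there are smooth functions `κ₁, …, κ_g`, pairwise different at every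
point, such that `κᵢ(u)` is a principal curvature of constant multiplicity `mᵢ > 0`, the sum of the
`mᵢ` is `n`, and `κᵢ` is constant along its principal directions. -/
def IsDupin {n : ℕ} (U : Set (Fin n → ℝ))
    (x ξ : (Fin n → ℝ) → EuclideanSpace ℝ (Fin (n + 2))) (g : ℕ)
    (m : Fin g → ℕ) : Prop :=
  ∃ κ : Fin g → (Fin n → ℝ) → ℝ, (∀ i, ContDiffOn ℝ ∞ (κ i) U) ∧
    (∀ u ∈ U, Function.Injective fun i => κ i u) ∧ (∀ i, 0 < m i) ∧ ∑ i, m i = n ∧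
    (∀ u ∈ U, ∀ i, Module.finrank ℝ (eigenspace x ξ u (κ i u)) = m i) ∧
    ∀ u ∈ U, ∀ i, ∀ v ∈ eigenspace x ξ u (κ i u), fderiv ℝ (κ i) u v = 0

/-- The hypersurface is isoparametric: its principal curvatures are the same at all points. -/
def IsIsoparametric {n : ℕ} (U : Set (Fin n → ℝ))
    (x ξ : (Fin n → ℝ) → EuclideanSpace ℝ (Fin (n + 2))) : Prop :=
  ∀ u ∈ U, ∀ v ∈ U, ∀ κ : ℝ, eigenspace x ξ u κ ≠ ⊥ → eigenspace x ξ v κ ≠ ⊥

end Pool.Agent.TH154.Dupin
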