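import Mathlib
import Pool.Agent.TH154.Alcoved

set_option autoImplicit false

/-!
Intersections of `n + 2` slabs in `ℝ^n`: combinatorial core.
-/

namespace Pool.Agent.TH154.Slab

/-! ### Rounding two coordinates -/

/-- The signs selected for the values `X`, `Y` (a rotationally symmetric rule for ties). -/
noncomputable def sp (X Y : ℝ) : ℝ :=
  if 0 < X then 1 else if X < 0 then -1 else if 0 < Y then 1 else -1

noncomputable def sq (X Y : ℝ) : ℝ :=
  if 0 < Y then 1 else if Y < 0 then -1 else if 0 < X then -1 else 1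

theorem sp_cases (X Y : ℝ) : sp X Y = 1 ∨ sp X Y = -1 := by
  unfold sp
  split_ifs <;> simp

theorem sq_cases (X Y : ℝ) : sq X Y = 1 ∨ sq X Y = -1 := by
  unfold sq
  split_ifs <;> simp

theorem sp_mul_nonneg (X Y : ℝ) : 0 ≤ sp X Y * X := by
  unfold sp
  split_ifs with h1 h2 <;> simp <;> linarith

theorem sq_mul_nonneg (X Y : ℝ) : 0 ≤ sq X Y * Y := by
  unfold sq
  split_ifs with h1 h2 <;> simp <;> linarith

theorem sp_of_pos {π X Y : ℝ} (hπ : π = 1 ∨ π = -1) (h : 0 < π * X) : sp X Y = π := by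
  rcases hπ with rfl | rfl
  · unfold sp
    rw [if_pos (by linarith)]
  · unfold sp
    rw [if_neg (by linarith), if_pos (by linarith)]

theorem sq_of_pos {σ X Y : ℝ} (hσ : σ = 1 ∨ σ = -1) (h : 0 < σ * Y) : sq X Y = σ := by
  rcases hσ with rfl | rfl
  · unfold sq
    rw [if_pos (by linarith)]
  · unfold sq
    rw [if_neg (by linarith), if_pos (by linarith)]

/-- one coordinate, one functional -/
theorem round_one (a s : ℝ) (hs : |s| < 1) : ∃ ε : ℝ, (ε = 1 ∨ ε = -1) ∧ 0 < 1 + a * (ε - s) := by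
  rw [abs_lt] at hs
  by_cases ha : 0 ≤ a
  · exact ⟨1, Or.inl rfl, by nlinarith [hs.1, hs.2]⟩
  · exact ⟨-1, Or.inr rfl, by nlinarith [hs.1, hs.2]⟩

/-- one coordinate, two functionals -/
theorem round_both (a b s π σ : ℝ) (ha : |a| ≤ 1) (hb : |b| ≤ 1) (hs : |s| < 1)
    (hπ : π = 1 ∨ π = -1) (hσ : σ = 1 ∨ σ = -1) :
    ∃ ε : ℝ, (ε = 1 ∨ ε = -1) ∧ sp (π * (1 + a * (ε - s))) (σ * (1 + b * (ε - s))) = π ∧
      sq (π * (1 + a * (ε - s))) (σ * (1 + b * (ε - s))) = σ ∧
      (π * (1 + a * (ε - s)) ≠ 0 ∨ σ * (1 + b * (ε - s)) ≠ 0) := by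
  rw [abs_lt] at hs
  rw [abs_le] at ha hb
  have good : ∀ ε : ℝ, 0 < 1 + a * (ε - s) → 0 < 1 + b * (ε - s) →
      sp (π * (1 + a * (ε - s))) (σ * (1 + b * (ε - s))) = π ∧
      sq (π * (1 + a * (ε - s))) (σ * (1 + b * (ε - s))) = σ ∧
      (π * (1 + a * (ε - s)) ≠ 0 ∨ σ * (1 + b * (ε - s)) ≠ 0) := by
    intro ε h1 h2
    have e1 : π * (π * (1 + a * (ε - s))) = 1 + a * (ε - s) := by
      rcases hπ with rfl | rfl <;> ring
    have e2 : σ * (σ * (1 + b * (ε - s))) = 1 + b * (ε - s) := by
      rcases hσ with rfl | rfl <;> ring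
    refine ⟨sp_of_pos hπ (by rw [e1]; exact h1), sq_of_pos hσ (by rw [e2]; exact h2), Or.inl ?_⟩
    intro h0
    rw [h0] at e1
    linarith
  rcases lt_trichotomy s 0 with h | h | h
  · refine ⟨-1, Or.inr rfl, good _ ?_ ?_⟩ <;> nlinarith
  · subst h
    by_cases h1 : -1 < a ∧ -1 < b
    · exact ⟨1, Or.inl rfl, good _ (by linarith) (by linarith)⟩
    by_cases h2 : a < 1 ∧ b < 1
    · exact ⟨-1, Or.inr rfl, good _ (by linarith) (by linarith)⟩
    have h3 : (a = -1 ∧ b = 1) ∨ (a = 1 ∧ b = -1) := by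
      by_cases ha1 : a = -1
      · refine Or.inl ⟨ha1, ?_⟩
        by_contra hb1
        exact h2 ⟨by linarith, lt_of_le_of_ne hb.2 hb1⟩
      · have ha2 : -1 < a := lt_of_le_of_ne ha.1 (Ne.symm ha1)
        have hb1 : b = -1 := by
          by_contra hb1
          exact h1 ⟨ha2, lt_of_le_of_ne hb.1 (Ne.symm hb1)⟩
        refine Or.inr ⟨?_, hb1⟩
        by_contra ha3
        exact h2 ⟨lt_of_le_of_ne ha.2 ha3, by linarith⟩
    rcases h3 with ⟨rfl, rfl⟩ | ⟨rfl, rfl⟩ <;> rcases hπ with rfl | rfl <;>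
      rcases hσ with rfl | rfl
    · exact ⟨1, Or.inl rfl, by norm_num [sp], by norm_num [sq], by norm_num⟩
    · exact ⟨-1, Or.inr rfl, by norm_num [sp], by norm_num [sq], by norm_num⟩
    · exact ⟨-1, Or.inr rfl, by norm_num [sp], by norm_num [sq], by norm_num⟩
    · exact ⟨1, Or.inl rfl, by norm_num [sp], by norm_num [sq], by norm_num⟩
    · exact ⟨-1, Or.inr rfl, by norm_num [sp], by norm_num [sq], by norm_num⟩
    · exact ⟨1, Or.inl rfl, by norm_num [sp], by norm_num [sq], by norm_num⟩
    · exact ⟨1, Or.inl rfl, by norm_num [sp], by norm_num [sq], by norm_num⟩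
    · exact ⟨-1, Or.inr rfl, by norm_num [sp], by norm_num [sq], by norm_num⟩
  · refine ⟨1, Or.inl rfl, good _ ?_ ?_⟩ <;> nlinarith

/-- the last step of the rounding of two coordinates: one coordinate has been rounded, the value of
the first functional has increased and the value of the second one is unchanged -/
theorem round_last (a b s G : ℝ) (ha : |a| ≤ 1) (hb : |b| ≤ 1) (hs : |s| ≤ 1) (hG : 0 < G) :
    ∃ ε : ℝ, (ε = 1 ∨ ε = -1) ∧ 0 < 1 + G + a * (ε - s) ∧ 0 < 1 + b * (ε - s) := by
  rw [abs_le] at ha hb hs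
  rcases lt_trichotomy s 0 with h | h | h
  · exact ⟨-1, Or.inr rfl, by nlinarith, by nlinarith⟩
  · subst h
    by_cases h1 : -1 < b
    · exact ⟨1, Or.inl rfl, by linarith, by linarith⟩
    · exact ⟨-1, Or.inr rfl, by linarith, by linarith⟩
  · exact ⟨1, Or.inl rfl, by nlinarith, by nlinarith⟩

/-- two coordinates, two functionals -/
theorem round_two (a₁ a₂ b₁ b₂ s₁ s₂ : ℝ) (ha₁ : |a₁| ≤ 1) (ha₂ : |a₂| ≤ 1) (hb₁ : |b₁| ≤ 1)
    (hb₂ : |b₂| ≤ 1) (hs₁ : |s₁| < 1) (hs₂ : |s₂| < 1) (hdet : a₁ * b₂ - a₂ * b₁ ≠ 0) :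
    ∃ ε₁ ε₂ : ℝ, (ε₁ = 1 ∨ ε₁ = -1) ∧ (ε₂ = 1 ∨ ε₂ = -1) ∧
      0 < 1 + a₁ * (ε₁ - s₁) + a₂ * (ε₂ - s₂) ∧ 0 < 1 + b₁ * (ε₁ - s₁) + b₂ * (ε₂ - s₂) := by
  -- the direction in which the first functional increases and the second one is constant
  obtain ⟨v₁, v₂, hv, hva, hvb⟩ : ∃ v₁ v₂ : ℝ, (v₁ ≠ 0 ∨ v₂ ≠ 0) ∧ 0 < a₁ * v₁ + a₂ * v₂ ∧
      b₁ * v₁ + b₂ * v₂ = 0 := by
    rcases lt_or_gt_of_ne hdet with h | h
    · refine ⟨-b₂, b₁, ?_, by linarith, by ring⟩
      by_contra hc
      push Not at hc
      apply hdet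
      have h1 : b₂ = 0 := by linarith [hc.1]
      rw [h1, hc.2]
      ring
    · refine ⟨b₂, -b₁, ?_, by linarith, by ring⟩
      by_contra hc
      push Not at hc
      apply hdet
      have h1 : b₁ = 0 := by linarith [hc.2]
      rw [h1, hc.1]
      ring
  -- a general step
  have exit : ∀ s v : ℝ, |s| < 1 → v ≠ 0 → ∃ t ε : ℝ, 0 < t ∧ (ε = 1 ∨ ε = -1) ∧ s + t * v = ε ∧
      ∀ t', 0 ≤ t' → t' ≤ t → |s + t' * v| ≤ 1 := by
    intro s v hs hv
    rw [abs_lt] at hs
    rcases lt_or_gt_of_ne hv with h | h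
    · refine ⟨(1 + s) / (-v), -1, by apply div_pos <;> linarith, Or.inr rfl, ?_, ?_⟩
      · field_simp
        ring
      · intro t' h0 h1
        rw [le_div_iff₀ (by linarith)] at h1
        rw [abs_le]
        constructor <;> nlinarith
    · refine ⟨(1 - s) / v, 1, by apply div_pos <;> linarith, Or.inl rfl, ?_, ?_⟩
      · field_simp
        ring
      · intro t' h0 h1
        rw [le_div_iff₀ (by linarith)] at h1
        rw [abs_le]
        constructor <;> nlinarith
  -- when the first coordinate is hit first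
  have fin1 : ∀ t ε₁ : ℝ, 0 < t → (ε₁ = 1 ∨ ε₁ = -1) → s₁ + t * v₁ = ε₁ → |s₂ + t * v₂| ≤ 1 →
      ∃ ε₁ ε₂ : ℝ, (ε₁ = 1 ∨ ε₁ = -1) ∧ (ε₂ = 1 ∨ ε₂ = -1) ∧
      0 < 1 + a₁ * (ε₁ - s₁) + a₂ * (ε₂ - s₂) ∧ 0 < 1 + b₁ * (ε₁ - s₁) + b₂ * (ε₂ - s₂) := by
    intro t ε₁ ht hε h1 h2
    obtain ⟨ε₂, hε₂, h3, h4⟩ := round_last a₂ b₂ (s₂ + t * v₂) (t * (a₁ * v₁ + a₂ * v₂)) ha₂ hb₂ h2
      (mul_pos ht hva)
    refine ⟨ε₁, ε₂, hε, hε₂, ?_, ?_⟩
    · have : 1 + a₁ * (ε₁ - s₁) + a₂ * (ε₂ - s₂) =
          1 + t * (a₁ * v₁ + a₂ * v₂) + a₂ * (ε₂ - (s₂ + t * v₂)) := by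
        rw [← h1]
        ring
      rw [this]
      exact h3
    · have : 1 + b₁ * (ε₁ - s₁) + b₂ * (ε₂ - s₂) =
          1 + t * (b₁ * v₁ + b₂ * v₂) + b₂ * (ε₂ - (s₂ + t * v₂)) := by
        rw [← h1]
        ring
      rw [this, hvb, mul_zero, add_zero]
      exact h4
  have fin2 : ∀ t ε₂ : ℝ, 0 < t → (ε₂ = 1 ∨ ε₂ = -1) → s₂ + t * v₂ = ε₂ → |s₁ + t * v₁| ≤ 1 →
      ∃ ε₁ ε₂ : ℝ, (ε₁ = 1 ∨ ε₁ = -1) ∧ (ε₂ = 1 ∨ ε₂ = -1) ∧
      0 < 1 + a₁ * (ε₁ - s₁) + a₂ * (ε₂ - s₂) ∧ 0 < 1 + b₁ * (ε₁ - s₁) + b₂ * (ε₂ - s₂) := by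
    intro t ε₂ ht hε h1 h2
    obtain ⟨ε₁, hε₁, h3, h4⟩ := round_last a₁ b₁ (s₁ + t * v₁) (t * (a₁ * v₁ + a₂ * v₂)) ha₁ hb₁ h2
      (mul_pos ht hva)
    refine ⟨ε₁, ε₂, hε₁, hε, ?_, ?_⟩
    · have : 1 + a₁ * (ε₁ - s₁) + a₂ * (ε₂ - s₂) =
          1 + t * (a₁ * v₁ + a₂ * v₂) + a₁ * (ε₁ - (s₁ + t * v₁)) := by
        rw [← h1]
        ring
      rw [this]
      exact h3
    · have : 1 + b₁ * (ε₁ - s₁) + b₂ * (ε₂ - s₂) =
          1 + t * (b₁ * v₁ + b₂ * v₂) + b₁ * (ε₁ - (s₁ + t * v₁)) := by
        rw [← h1]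
        ring
      rw [this, hvb, mul_zero, add_zero]
      exact h4
  by_cases h1 : v₁ = 0
  · have h2 : v₂ ≠ 0 := by
      rcases hv with h | h
      · exact absurd h1 h
      · exact h
    obtain ⟨t, ε, ht, hε, he, -⟩ := exit s₂ v₂ hs₂ h2
    exact fin2 t ε ht hε he (by rw [h1, mul_zero, add_zero]; exact hs₁.le)
  by_cases h2 : v₂ = 0
  · obtain ⟨t, ε, ht, hε, he, -⟩ := exit s₁ v₁ hs₁ h1
    exact fin1 t ε ht hε he (by rw [h2, mul_zero, add_zero]; exact hs₂.le)
  obtain ⟨t, ε, ht, hε, he, hle⟩ := exit s₁ v₁ hs₁ h1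
  obtain ⟨t', ε', ht', hε', he', hle'⟩ := exit s₂ v₂ hs₂ h2
  rcases le_total t t' with h | h
  · exact fin1 t ε ht hε he (hle' t ht.le h)
  · exact fin2 t' ε' ht' hε' he' (hle t' ht'.le h)

/-! ### Vertices of the minimal face -/

theorem exists_vertex {I : Type*} [Finite I] {E : Type*} [AddCommGroup E] [Module ℝ E]
    (φ : I → E →ₗ[ℝ] ℝ) (c : I → ℝ) (hinj : ∀ v : E, (∀ i, φ i v = 0) → v = 0) (x : E)
    (hx : ∀ i, |φ i x - c i| ≤ 1) :
    ∃ y : E, (∀ i, |φ i y - c i| ≤ 1) ∧ (∀ i, |φ i x - c i| = 1 → φ i y = φ i x) ∧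
      (∀ v : E, (∀ i, |φ i y - c i| = 1 → φ i v = 0) → v = 0) := by
  classical
  have := Fintype.ofFinite I
  -- strong induction on the number of inactive constraints
  obtain ⟨k, hk⟩ : ∃ k, k = (Finset.univ.filter fun i => |φ i x - c i| ≠ 1).card := ⟨_, rfl⟩
  induction k using Nat.strong_induction_on generalizing x with
  | _ k ih =>
    by_cases hv : ∀ v : E, (∀ i, |φ i x - c i| = 1 → φ i v = 0) → v = 0
    · exact ⟨x, hx, fun i _ => rfl, hv⟩
    push Not at hv
    obtain ⟨v, hv0, hvne⟩ := hv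
    have hS : (Finset.univ.filter fun i => φ i v ≠ 0).Nonempty := by
      by_contra hS
      rw [Finset.not_nonempty_iff_eq_empty, Finset.filter_eq_empty_iff] at hS
      exact hvne (hinj v fun i => by simpa using hS (Finset.mem_univ i))
    -- exit times
    obtain ⟨i₀, hi₀, hmin⟩ := Finset.exists_min_image _
      (fun i => (1 - SignType.sign (φ i v) * (φ i x - c i)) / |φ i v|) hS
    rw [Finset.mem_filter] at hi₀
    set t : ℝ := (1 - SignType.sign (φ i₀ v) * (φ i₀ x - c i₀)) / |φ i₀ v| with ht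
    have hsg : ∀ i, φ i v ≠ 0 → ((SignType.sign (φ i v) : ℝ) = 1 ∧ 0 < φ i v) ∨
        ((SignType.sign (φ i v) : ℝ) = -1 ∧ φ i v < 0) := by
      intro i hi
      rcases lt_or_gt_of_ne hi with h | h
      · right
        exact ⟨by rw [sign_neg h]; simp, h⟩
      · left
        exact ⟨by rw [sign_pos h]; simp, h⟩
    have ht0 : 0 ≤ t := by
      apply div_nonneg _ (abs_nonneg _)
      have := abs_le.1 (hx i₀)
      rcases hsg i₀ hi₀.2 with ⟨h, -⟩ | ⟨h, -⟩ <;> rw [h] <;> linarith [this.1, this.2]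
    have hy : ∀ i, φ i (x + t • v) - c i = (φ i x - c i) + t * φ i v := by
      intro i
      rw [map_add, map_smul, smul_eq_mul]
      ring
    have hyK : ∀ i, |φ i (x + t • v) - c i| ≤ 1 := by
      intro i
      rw [hy]
      by_cases hi : φ i v = 0
      · rw [hi, mul_zero, add_zero]
        exact hx i
      · have h1 : t ≤ (1 - SignType.sign (φ i v) * (φ i x - c i)) / |φ i v| :=
          hmin i (by simp [hi])
        rw [le_div_iff₀ (abs_pos.2 hi)] at h1
        have h2 := abs_le.1 (hx i)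
        rw [abs_le]
        rcases hsg i hi with ⟨h, h3⟩ | ⟨h, h3⟩
        · rw [h, abs_of_pos h3] at h1
          constructor <;> nlinarith
        · rw [h, abs_of_neg h3] at h1
          constructor <;> nlinarith
    have hact : |φ i₀ (x + t • v) - c i₀| = 1 := by
      rw [hy, ht]
      rcases hsg i₀ hi₀.2 with ⟨h, h3⟩ | ⟨h, h3⟩
      · rw [h, abs_of_pos h3, div_mul_cancel₀ _ h3.ne']
        rw [show φ i₀ x - c i₀ + (1 - 1 * (φ i₀ x - c i₀)) = 1 by ring]
        exact abs_one
      · rw [h, abs_of_neg h3, div_neg, neg_mul, div_mul_cancel₀ _ h3.ne]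
        rw [show φ i₀ x - c i₀ + -(1 - -1 * (φ i₀ x - c i₀)) = -1 by ring]
        simp
    have hkeep : ∀ i, |φ i x - c i| = 1 → φ i (x + t • v) = φ i x := by
      intro i hi
      rw [map_add, map_smul, hv0 i hi, smul_zero, add_zero]
    have hnot : |φ i₀ x - c i₀| ≠ 1 := fun h => hi₀.2 (hv0 i₀ h)
    have hlt : (Finset.univ.filter fun i => |φ i (x + t • v) - c i| ≠ 1).card < k := by
      rw [hk]
      apply Finset.card_lt_card
      rw [Finset.ssubset_iff_of_subset]
      · exact ⟨i₀, by simp [hnot], by rw [Finset.mem_filter]; exact fun h => h.2 hact⟩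
      · intro i hi
        simp only [Finset.mem_filter, Finset.mem_univ, true_and] at hi ⊢
        intro h
        apply hi
        rw [hkeep i h]
        exact h
    obtain ⟨y, h1, h2, h3⟩ := ih _ hlt (x + t • v) hyK rfl
    refine ⟨y, h1, ?_, h3⟩
    intro i hi
    rw [← hkeep i hi]
    apply h2
    rw [hkeep i hi]
    exact hi

/-! ### Rounding a vertex of the body to a vertex of the cube -/

section

variable {n : ℕ} {E : Type*} [AddCommGroup E] [Module ℝ E] (V : Fin n → E →ₗ[ℝ] ℝ)
  (c : Fin n → ℝ) (P Q : E →ₗ[ℝ] ℝ) (cp cq : ℝ) (α β : Fin n → ℝ)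

theorem exists_round (hα : ∀ l, |α l| ≤ 1) (hβ : ∀ l, |β l| ≤ 1)
    (hP : ∀ x, P x = ∑ l, α l * V l x) (hQ : ∀ x, Q x = ∑ l, β l * V l x)
    (hsurj : ∀ d : Fin n → ℝ, ∃ x, ∀ l, V l x = d l) (y : E) (hy : ∀ l, |V l y - c l| ≤ 1)
    (hvert : ∀ v : E, (∀ l, |V l y - c l| = 1 → V l v = 0) → (|P y - cp| = 1 → P v = 0) →
      (|Q y - cq| = 1 → Q v = 0) → v = 0) :
    ∃ z : E, (∀ l, V l z - c l = 1 ∨ V l z - c l = -1) ∧
      (∀ l, |V l y - c l| = 1 → V l z = V l y) ∧
      (|P y - cp| = 1 → (P z - cp ≠ 0 ∨ Q z - cq ≠ 0) ∧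
        sp (P z - cp) (Q z - cq) = P y - cp) ∧
      (|Q y - cq| = 1 → (P z - cp ≠ 0 ∨ Q z - cq ≠ 0) ∧
        sq (P z - cp) (Q z - cq) = Q y - cq) := by
  classical
  have hlt : ∀ l, |V l y - c l| ≠ 1 → |V l y - c l| < 1 := fun l h => lt_of_le_of_ne (hy l) h
  have habs : ∀ x : ℝ, |x| = 1 → x = 1 ∨ x = -1 := by
    intro x hx
    rcases abs_choice x with h | h <;> rw [h] at hx
    · exact Or.inl hx
    · exact Or.inr (by linarith)
  have hsq : ∀ x : ℝ, |x| = 1 → x * x = 1 := by
    intro x hx
    rcases habs x hx with h | h <;> rw [h] <;> norm_num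
  -- the point with given coordinates
  have hpt : ∀ η : Fin n → ℝ, (∀ l, η l = 1 ∨ η l = -1) → ∃ z : E, (∀ l, V l z - c l = η l) ∧
      P z - cp = (P y - cp) + ∑ l, α l * (η l - (V l y - c l)) ∧
      Q z - cq = (Q y - cq) + ∑ l, β l * (η l - (V l y - c l)) := by
    intro η _
    obtain ⟨z, hz⟩ := hsurj fun l => c l + η l
    refine ⟨z, fun l => by rw [hz]; ring, ?_, ?_⟩
    · rw [hP, hP]
      have : ∑ l, α l * V l z = ∑ l, α l * V l y + ∑ l, α l * (η l - (V l y - c l)) := by
        rw [← Finset.sum_add_distrib]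
        refine Finset.sum_congr rfl fun l _ => ?_
        rw [hz]
        ring
      rw [this]
      ring
    · rw [hQ, hQ]
      have : ∑ l, β l * V l z = ∑ l, β l * V l y + ∑ l, β l * (η l - (V l y - c l)) := by
        rw [← Finset.sum_add_distrib]
        refine Finset.sum_congr rfl fun l _ => ?_
        rw [hz]
        ring
      rw [this]
      ring
  -- rounding for the benefit of one functional
  have hone : ∀ γ : Fin n → ℝ, ∃ η : Fin n → ℝ, (∀ l, η l = 1 ∨ η l = -1) ∧
      (∀ l, |V l y - c l| = 1 → η l = V l y - c l) ∧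
      0 ≤ ∑ l, γ l * (η l - (V l y - c l)) := by
    intro γ
    refine ⟨fun l => if |V l y - c l| = 1 then V l y - c l else if 0 ≤ γ l then 1 else -1,
      ?_, ?_, ?_⟩
    · intro l
      dsimp only
      split_ifs with h1 h2
      · exact habs _ h1
      · exact Or.inl rfl
      · exact Or.inr rfl
    · intro l h
      dsimp only
      rw [if_pos h]
    · refine Finset.sum_nonneg fun l _ => ?_
      dsimp only
      have := abs_le.1 (hy l)
      split_ifs with h1 h2
      · simp
      · exact mul_nonneg h2 (by linarith)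
      · nlinarith
  by_cases hPa : |P y - cp| = 1
  · by_cases hQa : |Q y - cq| = 1
    · -- both are active
      have hπ := habs _ hPa
      have hσ := habs _ hQa
      set π := P y - cp with hπd
      set σ := Q y - cq with hσd
      -- reduction to the signs
      suffices h : ∃ η : Fin n → ℝ, (∀ l, η l = 1 ∨ η l = -1) ∧
          (∀ l, |V l y - c l| = 1 → η l = V l y - c l) ∧
          sp (π + ∑ l, α l * (η l - (V l y - c l))) (σ + ∑ l, β l * (η l - (V l y - c l))) = π ∧
          sq (π + ∑ l, α l * (η l - (V l y - c l))) (σ + ∑ l, β l * (η l - (V l y - c l))) = σ ∧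
          (π + ∑ l, α l * (η l - (V l y - c l)) ≠ 0 ∨
            σ + ∑ l, β l * (η l - (V l y - c l)) ≠ 0) by
        obtain ⟨η, h1, h2, h3, h4, h5⟩ := h
        obtain ⟨z, hz, hzP, hzQ⟩ := hpt η h1
        refine ⟨z, fun l => by rw [hz]; exact h1 l, ?_, ?_, ?_⟩
        · intro l hl
          have e1 := hz l
          rw [h2 l hl] at e1
          linarith
        · intro _
          rw [hzP, hzQ]
          exact ⟨h5, h3⟩
        · intro _
          rw [hzP, hzQ]
          exact ⟨h5, h4⟩
      set J := Finset.univ.filter fun l => |V l y - c l| ≠ 1 with hJ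
      have hmemJ : ∀ l, l ∈ J ↔ |V l y - c l| ≠ 1 := by
        intro l
        rw [hJ, Finset.mem_filter]
        simp
      -- sums over `J`
      have hsumJ : ∀ (γ η : Fin n → ℝ), (∀ l, |V l y - c l| = 1 → η l = V l y - c l) →
          ∑ l, γ l * (η l - (V l y - c l)) = ∑ l ∈ J, γ l * (η l - (V l y - c l)) := by
        intro γ η h
        symm
        apply Finset.sum_subset (Finset.subset_univ _)
        intro l _ hl
        rw [hmemJ, not_not] at hl
        rw [h l hl]
        ring
      have hkill : ∀ v : E, (∀ l, l ∉ J → V l v = 0) → P v = 0 → Q v = 0 → v = 0 := by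
        intro v h1 h2 h3
        refine hvert v (fun l hl => h1 l ?_) (fun _ => h2) (fun _ => h3)
        rw [hmemJ, not_not]
        exact hl
      have hsumV : ∀ (γ : Fin n → ℝ) (v : E), (∀ l, l ∉ J → V l v = 0) →
          ∑ l, γ l * V l v = ∑ l ∈ J, γ l * V l v := by
        intro γ v h
        symm
        apply Finset.sum_subset (Finset.subset_univ _)
        intro l _ hl
        rw [h l hl, mul_zero]
      have hJ2 : J.card ≤ 2 := by
        by_contra hcard
        push Not at hcard
        obtain ⟨l₁, h1, l₂, h2, l₃, h3, h12, h13, h23⟩ := Finset.two_lt_card.1 hcard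
        -- a nontrivial solution of two equations in three unknowns
        obtain ⟨x, hx0, hx1, hx2⟩ : ∃ x : Fin 3 → ℝ, x ≠ 0 ∧
            α l₁ * x 0 + α l₂ * x 1 + α l₃ * x 2 = 0 ∧
            β l₁ * x 0 + β l₂ * x 1 + β l₃ * x 2 = 0 := by
          have hker := LinearMap.ker_ne_bot_of_finrank_lt
            (f := Matrix.toLin' !![α l₁, α l₂, α l₃; β l₁, β l₂, β l₃])
            (by simp)
          obtain ⟨x, hx, hx0⟩ := (Submodule.ne_bot_iff _).1 hker
          rw [LinearMap.mem_ker] at hx
          refine ⟨x, hx0, ?_, ?_⟩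
          · have := congrFun hx 0
            simpa [Matrix.toLin'_apply, Matrix.mulVec, dotProduct, Fin.sum_univ_three] using this
          · have := congrFun hx 1
            simpa [Matrix.toLin'_apply, Matrix.mulVec, dotProduct, Fin.sum_univ_three] using this
        obtain ⟨v, hv⟩ := hsurj fun l => if l = l₁ then x 0 else if l = l₂ then x 1 else
          if l = l₃ then x 2 else 0
        have hv1 : V l₁ v = x 0 := by rw [hv, if_pos rfl]
        have hv2 : V l₂ v = x 1 := by rw [hv, if_neg h12.symm, if_pos rfl]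
        have hv3 : V l₃ v = x 2 := by rw [hv, if_neg h13.symm, if_neg h23.symm, if_pos rfl]
        have hv0 : ∀ l, l ≠ l₁ → l ≠ l₂ → l ≠ l₃ → V l v = 0 := by
          intro l h1 h2 h3
          rw [hv, if_neg h1, if_neg h2, if_neg h3]
        have hsum3 : ∀ γ : Fin n → ℝ, ∑ l, γ l * V l v =
            γ l₁ * x 0 + γ l₂ * x 1 + γ l₃ * x 2 := by
          intro γ
          have : ∑ l ∈ ({l₁, l₂, l₃} : Finset (Fin n)), γ l * V l v = ∑ l, γ l * V l v := by
            apply Finset.sum_subset (Finset.subset_univ _)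
            intro l _ hl
            simp only [Finset.mem_insert, Finset.mem_singleton, not_or] at hl
            rw [hv0 l hl.1 hl.2.1 hl.2.2, mul_zero]
          rw [← this, Finset.sum_insert (by simp [h12, h13]), Finset.sum_insert (by simp [h23]),
            Finset.sum_singleton, hv1, hv2, hv3]
          ring
        have hv' : v = 0 := by
          apply hkill v
          · intro l hl
            apply hv0 l
            · rintro rfl
              exact hl h1
            · rintro rfl
              exact hl h2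
            · rintro rfl
              exact hl h3
          · rw [hP, hsum3]
            exact hx1
          · rw [hQ, hsum3]
            exact hx2
        apply hx0
        rw [hv', map_zero] at hv1 hv2 hv3
        ext i
        fin_cases i
        · exact hv1.symm
        · exact hv2.symm
        · exact hv3.symm
      -- the three cases
      have hcases : J.card = 0 ∨ J.card = 1 ∨ J.card = 2 := by omega
      rcases hcases with h0 | h1 | h2
      · rw [Finset.card_eq_zero] at h0
        have hall : ∀ l, |V l y - c l| = 1 := by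
          intro l
          by_contra h
          have : l ∈ J := (hmemJ l).2 h
          rw [h0] at this
          simp at this
        refine ⟨fun l => V l y - c l, fun l => habs _ (hall l), fun l _ => rfl, ?_, ?_, ?_⟩
        · simp only [sub_self, mul_zero, Finset.sum_const_zero, add_zero]
          exact sp_of_pos hπ (by rw [hsq _ hPa]; norm_num)
        · simp only [sub_self, mul_zero, Finset.sum_const_zero, add_zero]
          exact sq_of_pos hσ (by rw [hsq _ hQa]; norm_num)
        · left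
          simp only [sub_self, mul_zero, Finset.sum_const_zero, add_zero]
          intro h
          rw [h] at hPa
          simp at hPa
      · obtain ⟨l, hl⟩ := Finset.card_eq_one.1 h1
        have hlJ : l ∈ J := by rw [hl]; simp
        obtain ⟨ε, hε, e1, e2, e3⟩ := round_both (π * α l) (σ * β l) (V l y - c l) π σ
          (by rw [abs_mul, hPa, one_mul]; exact hα l) (by rw [abs_mul, hQa, one_mul]; exact hβ l)
          (hlt l ((hmemJ l).1 hlJ)) hπ hσ
        set η : Fin n → ℝ := fun k => if k = l then ε else V k y - c k with hη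
        have hη1 : ∀ k, |V k y - c k| = 1 → η k = V k y - c k := by
          intro k hk
          rw [hη]
          dsimp only
          rw [if_neg]
          rintro rfl
          exact (hmemJ _).1 hlJ hk
        have hη0 : ∀ k, η k = 1 ∨ η k = -1 := by
          intro k
          by_cases hk : k = l
          · rw [hη]
            dsimp only
            rw [if_pos hk]
            exact hε
          · have : k ∉ J := by rw [hl]; simpa using hk
            rw [hmemJ, not_not] at this
            rw [hη1 k this]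
            exact habs _ this
        have hηl : η l = ε := by rw [hη]; dsimp only; rw [if_pos rfl]
        have f1 : π + ∑ k, α k * (η k - (V k y - c k)) =
            π * (1 + π * α l * (ε - (V l y - c l))) := by
          rw [hsumJ α η hη1, hl, Finset.sum_singleton, hηl]
          have := hsq _ hPa
          linear_combination (-(α l * (ε - (V l y - c l)))) * this
        have f2 : σ + ∑ k, β k * (η k - (V k y - c k)) =
            σ * (1 + σ * β l * (ε - (V l y - c l))) := by
          rw [hsumJ β η hη1, hl, Finset.sum_singleton, hηl]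
          have := hsq _ hQa
          linear_combination (-(β l * (ε - (V l y - c l)))) * this
        refine ⟨η, hη0, hη1, ?_, ?_, ?_⟩
        · rw [f1, f2]
          exact e1
        · rw [f1, f2]
          exact e2
        · rw [f1, f2]
          exact e3
      · obtain ⟨l₁, l₂, h12, hl⟩ := Finset.card_eq_two.1 h2
        have hl₁ : l₁ ∈ J := by rw [hl]; simp
        have hl₂ : l₂ ∈ J := by rw [hl]; simp
        have hdet0 : ∀ x₁ x₂ : ℝ, α l₁ * x₁ + α l₂ * x₂ = 0 → β l₁ * x₁ + β l₂ * x₂ = 0 →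
            x₁ = 0 ∧ x₂ = 0 := by
          intro x₁ x₂ g1 g2
          obtain ⟨v, hv⟩ := hsurj fun l => if l = l₁ then x₁ else if l = l₂ then x₂ else 0
          have hv1 : V l₁ v = x₁ := by rw [hv, if_pos rfl]
          have hv2 : V l₂ v = x₂ := by rw [hv, if_neg h12.symm, if_pos rfl]
          have hv0 : ∀ l, l ∉ J → V l v = 0 := by
            intro l h
            rw [hl] at h
            simp only [Finset.mem_insert, Finset.mem_singleton, not_or] at h
            rw [hv, if_neg h.1, if_neg h.2]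
          have hv' : v = 0 := by
            apply hkill v hv0
            · rw [hP, hsumV α v hv0, hl, Finset.sum_insert (by simp [h12]),
                Finset.sum_singleton, hv1, hv2]
              exact g1
            · rw [hQ, hsumV β v hv0, hl, Finset.sum_insert (by simp [h12]),
                Finset.sum_singleton, hv1, hv2]
              exact g2
          rw [hv', map_zero] at hv1 hv2
          exact ⟨hv1.symm, hv2.symm⟩
        have hdet : α l₁ * β l₂ - α l₂ * β l₁ ≠ 0 := by
          intro hd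
          have g1 := hdet0 (α l₂) (-(α l₁)) (by ring) (by linarith)
          have g2 := hdet0 (β l₂) (-(β l₁)) (by linarith) (by ring)
          have g3 := hdet0 1 0 (by rw [show α l₁ = 0 by linarith [g1.2]]; ring)
            (by rw [show β l₁ = 0 by linarith [g2.2]]; ring)
          exact one_ne_zero g3.1
        have hdet' : (π * α l₁) * (σ * β l₂) - (π * α l₂) * (σ * β l₁) ≠ 0 := by
          rw [show (π * α l₁) * (σ * β l₂) - (π * α l₂) * (σ * β l₁) =
            (π * σ) * (α l₁ * β l₂ - α l₂ * β l₁) by ring]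
          apply mul_ne_zero _ hdet
          intro h
          rcases mul_eq_zero.1 h with h | h
          · rw [h] at hPa
            simp at hPa
          · rw [h] at hQa
            simp at hQa
        obtain ⟨ε₁, ε₂, hε₁, hε₂, e1, e2⟩ := round_two (π * α l₁) (π * α l₂) (σ * β l₁) (σ * β l₂)
          (V l₁ y - c l₁) (V l₂ y - c l₂)
          (by rw [abs_mul, hPa, one_mul]; exact hα _) (by rw [abs_mul, hPa, one_mul]; exact hα _)
          (by rw [abs_mul, hQa, one_mul]; exact hβ _) (by rw [abs_mul, hQa, one_mul]; exact hβ _)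
          (hlt _ ((hmemJ _).1 hl₁)) (hlt _ ((hmemJ _).1 hl₂)) hdet'
        set η : Fin n → ℝ := fun k => if k = l₁ then ε₁ else if k = l₂ then ε₂ else V k y - c k
          with hη
        have hη1 : ∀ k, |V k y - c k| = 1 → η k = V k y - c k := by
          intro k hk
          rw [hη]
          dsimp only
          rw [if_neg, if_neg]
          · rintro rfl
            exact (hmemJ _).1 hl₂ hk
          · rintro rfl
            exact (hmemJ _).1 hl₁ hk
        have hη0 : ∀ k, η k = 1 ∨ η k = -1 := by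
          intro k
          by_cases hk1 : k = l₁
          · rw [hη]
            dsimp only
            rw [if_pos hk1]
            exact hε₁
          by_cases hk2 : k = l₂
          · rw [hη]
            dsimp only
            rw [if_neg hk1, if_pos hk2]
            exact hε₂
          · have : k ∉ J := by rw [hl]; simp [hk1, hk2]
            rw [hmemJ, not_not] at this
            rw [hη1 k this]
            exact habs _ this
        have hηl₁ : η l₁ = ε₁ := by rw [hη]; dsimp only; rw [if_pos rfl]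
        have hηl₂ : η l₂ = ε₂ := by rw [hη]; dsimp only; rw [if_neg h12.symm, if_pos rfl]
        have f1 : π * (π + ∑ k, α k * (η k - (V k y - c k))) =
            1 + π * α l₁ * (ε₁ - (V l₁ y - c l₁)) + π * α l₂ * (ε₂ - (V l₂ y - c l₂)) := by
          rw [hsumJ α η hη1, hl, Finset.sum_insert (by simp [h12]), Finset.sum_singleton, hηl₁,
            hηl₂]
          have := hsq _ hPa
          linear_combination this
        have f2 : σ * (σ + ∑ k, β k * (η k - (V k y - c k))) =
            1 + σ * β l₁ * (ε₁ - (V l₁ y - c l₁)) + σ * β l₂ * (ε₂ - (V l₂ y - c l₂)) := by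
          rw [hsumJ β η hη1, hl, Finset.sum_insert (by simp [h12]), Finset.sum_singleton, hηl₁,
            hηl₂]
          have := hsq _ hQa
          linear_combination this
        refine ⟨η, hη0, hη1, sp_of_pos hπ (by rw [f1]; exact e1),
          sq_of_pos hσ (by rw [f2]; exact e2), Or.inl ?_⟩
        intro h
        rw [h, mul_zero] at f1
        linarith
    · -- only `P` is active
      obtain ⟨η, h1, h2, h3⟩ := hone fun l => (P y - cp) * α l
      obtain ⟨z, hz, hzP, hzQ⟩ := hpt η h1
      have hpos : 0 < (P y - cp) * (P z - cp) := by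
        have e1 : ∑ l, (P y - cp) * α l * (η l - (V l y - c l)) =
            (P y - cp) * ∑ l, α l * (η l - (V l y - c l)) := by
          rw [Finset.mul_sum]
          exact Finset.sum_congr rfl fun l _ => by ring
        rw [e1] at h3
        rw [hzP, mul_add, hsq _ hPa]
        linarith
      refine ⟨z, fun l => by rw [hz]; exact h1 l, ?_, ?_, fun h => absurd h hQa⟩
      · intro l hl
        have e1 := hz l
        rw [h2 l hl] at e1
        linarith
      · intro _
        refine ⟨Or.inl ?_, sp_of_pos (habs _ hPa) hpos⟩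
        intro h
        rw [h, mul_zero] at hpos
        exact lt_irrefl _ hpos
  · obtain ⟨η, h1, h2, h3⟩ := hone fun l => (Q y - cq) * β l
    obtain ⟨z, hz, hzP, hzQ⟩ := hpt η h1
    refine ⟨z, fun l => by rw [hz]; exact h1 l, ?_, fun h => absurd h hPa, ?_⟩
    · intro l hl
      have e1 := hz l
      rw [h2 l hl] at e1
      linarith
    · intro hQa
      have hpos : 0 < (Q y - cq) * (Q z - cq) := by
        have e1 : ∑ l, (Q y - cq) * β l * (η l - (V l y - c l)) =
            (Q y - cq) * ∑ l, β l * (η l - (V l y - c l)) := by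
          rw [Finset.mul_sum]
          exact Finset.sum_congr rfl fun l _ => by ring
        rw [e1] at h3
        rw [hzQ, mul_add, hsq _ hQa]
        linarith
      refine ⟨Or.inr ?_, sq_of_pos (habs _ hQa) hpos⟩
      intro h
      rw [h, mul_zero] at hpos
      exact lt_irrefl _ hpos

end

end Pool.Agent.TH154.Slab
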