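import Pool.Agent.TH154.SlabIllum

set_option autoImplicit false

/-!
Intersections of `n + 2` slabs in `ℝ^n`: choice of a basis, and the covering theorem.
-/

namespace Pool.Agent.TH154.Slab

/-! ### A basis of maximal determinant -/

section

variable {n N : ℕ} {E : Type*} [AddCommGroup E] [Module ℝ E]

theorem exists_det_ne_zero (b : Module.Basis (Fin n) ℝ E) (φ : Fin N → E →ₗ[ℝ] ℝ)
    (hinj : ∀ v : E, (∀ i, φ i v = 0) → v = 0) :
    ∃ e : Fin n → Fin N, (Matrix.of fun j k => φ (e j) (b k)).det ≠ 0 := by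
  classical
  set r : Fin N → (Fin n → ℝ) := fun i k => φ i (b k) with hr
  have hspan : Submodule.span ℝ (Set.range r) = ⊤ := by
    by_contra hne
    obtain ⟨f, hf0, hf⟩ := Submodule.exists_le_ker_of_lt_top _ (lt_top_iff_ne_top.2 hne)
    set v : E := ∑ k, f (Pi.single k 1) • b k with hv
    have hfr : ∀ y : Fin n → ℝ, f y = ∑ k, y k * f (Pi.single k 1) := by
      intro y
      conv_lhs => rw [pi_eq_sum_univ' y]
      rw [map_sum]
      refine Finset.sum_congr rfl fun k _ => ?_
      rw [map_smul, smul_eq_mul]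
    have hv0 : v = 0 := by
      apply hinj
      intro i
      have h1 : r i ∈ LinearMap.ker f := hf (Submodule.subset_span ⟨i, rfl⟩)
      rw [LinearMap.mem_ker, hfr] at h1
      rw [hv, map_sum, ← h1]
      refine Finset.sum_congr rfl fun k _ => ?_
      rw [map_smul, smul_eq_mul, hr]
      ring
    apply hf0
    have h2 : ∀ k, f (Pi.single k 1) = 0 := by
      intro k
      have h3 := b.linearIndependent
      rw [Fintype.linearIndependent_iff] at h3
      exact h3 (fun k => f (Pi.single k 1)) (by rw [← hv]; exact hv0) k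
    apply LinearMap.ext
    intro y
    rw [hfr]
    simp [h2]
  obtain ⟨κ, a, ha, hsp, hli⟩ := exists_linearIndependent' ℝ r
  rw [hspan] at hsp
  have bas := Module.Basis.mk hli (by rw [hsp])
  have : Finite κ := Module.Finite.finite_basis bas
  have := Fintype.ofFinite κ
  have hcard : Fintype.card κ = n := by
    have := Module.finrank_eq_card_basis bas
    rw [Module.finrank_fin_fun] at this
    exact this.symm
  have eq : Fin n ≃ κ := (Fintype.equivFinOfCardEq hcard).symm
  refine ⟨fun j => a (eq j), ?_⟩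
  have hli' : LinearIndependent ℝ (Matrix.of fun j k => φ (a (eq j)) (b k)).row :=
    hli.comp eq eq.injective
  rw [Matrix.linearIndependent_rows_iff_isUnit] at hli'
  rw [Matrix.isUnit_iff_isUnit_det] at hli'
  exact hli'.ne_zero

theorem auerbach (b : Module.Basis (Fin n) ℝ E) (φ : Fin N → E →ₗ[ℝ] ℝ)
    (hinj : ∀ v : E, (∀ i, φ i v = 0) → v = 0) :
    ∃ e : Fin n → Fin N, Function.Injective e ∧
      (∀ d : Fin n → ℝ, ∃ x, ∀ j, φ (e j) x = d j) ∧
      (∀ x, (∀ j, φ (e j) x = 0) → x = 0) ∧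
      (∀ i, ∃ α : Fin n → ℝ, (∀ j, |α j| ≤ 1) ∧ ∀ x, φ i x = ∑ j, α j * φ (e j) x) := by
  classical
  obtain ⟨e₀, he₀⟩ := exists_det_ne_zero b φ hinj
  obtain ⟨e, -, hmax⟩ := Finset.exists_max_image (Finset.univ : Finset (Fin n → Fin N))
    (fun e => |(Matrix.of fun j k => φ (e j) (b k)).det|) ⟨e₀, Finset.mem_univ _⟩
  set M : Matrix (Fin n) (Fin n) ℝ := Matrix.of fun j k => φ (e j) (b k) with hM
  have hMpos : 0 < |M.det| := (abs_pos.2 he₀).trans_le (hmax e₀ (Finset.mem_univ _))
  have hdet : M.det ≠ 0 := abs_pos.1 hMpos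
  have hunit : IsUnit M.det := isUnit_iff_ne_zero.2 hdet
  have hcoef : ∀ i, ∃ α : Fin n → ℝ, (∀ j, |α j| ≤ 1) ∧ ∀ x, φ i x = ∑ j, α j * φ (e j) x := by
    intro i
    set r : Fin n → ℝ := fun k => φ i (b k) with hr
    set α : Fin n → ℝ := Matrix.vecMul r M⁻¹ with hα
    have hα1 : Matrix.vecMul α M = r := by
      rw [hα, Matrix.vecMul_vecMul, Matrix.nonsing_inv_mul _ hunit, Matrix.vecMul_one]
    have hrow : r = ∑ j, α j • M j := by
      rw [← hα1]
      ext k
      rw [Finset.sum_apply]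
      simp [Matrix.vecMul, dotProduct]
    refine ⟨α, ?_, ?_⟩
    · intro l
      have h1 := hmax (Function.update e l i) (Finset.mem_univ _)
      have h2 : (Matrix.of fun j k => φ (Function.update e l i j) (b k)) = M.updateRow l r := by
        ext j k
        by_cases hj : j = l
        · subst hj
          simp [hr]
        · simp [Function.update_of_ne hj, Matrix.updateRow_ne hj, hM]
      rw [h2, hrow, Matrix.det_updateRow_sum, smul_eq_mul, abs_mul] at h1
      exact le_of_mul_le_mul_right (by linarith) hMpos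
    · intro x
      have : φ i = ∑ j, α j • φ (e j) := by
        apply b.ext
        intro k
        have h3 := congrFun hrow k
        rw [Finset.sum_apply] at h3
        simp only [LinearMap.sum_apply, LinearMap.smul_apply]
        exact h3
      rw [this]
      simp
  have hsurj : ∀ d : Fin n → ℝ, ∃ x, ∀ j, φ (e j) x = d j := by
    intro d
    set y := Matrix.mulVec M⁻¹ d with hy
    have hMy : Matrix.mulVec M y = d := by
      rw [hy, Matrix.mulVec_mulVec, Matrix.mul_nonsing_inv _ hunit, Matrix.one_mulVec]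
    refine ⟨∑ k, y k • b k, fun j => ?_⟩
    rw [map_sum]
    have := congrFun hMy j
    rw [← this]
    simp only [Matrix.mulVec, dotProduct, hM, Matrix.of_apply, map_smul, smul_eq_mul]
    exact Finset.sum_congr rfl fun k _ => mul_comm _ _
  refine ⟨e, ?_, hsurj, ?_, hcoef⟩
  · intro j j' h
    by_contra hne
    obtain ⟨x, hx⟩ := hsurj (Pi.single j 1)
    have h1 := hx j
    have h2 := hx j'
    rw [← h, h1] at h2
    simp [Pi.single_eq_of_ne (Ne.symm hne)] at h2
  · intro x hx
    apply hinj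
    intro i
    obtain ⟨α, -, hα⟩ := hcoef i
    rw [hα]
    simp [hx]

end

/-! ### The covering theorem -/

theorem slab_illum_aux {n : ℕ} (hn : 1 ≤ n) (K : Set (EuclideanSpace ℝ (Fin n))) (hKc : IsCompact K)
    (hint : (interior K).Nonempty) (u : Fin (n + 2) → EuclideanSpace ℝ (Fin n) →ₗ[ℝ] ℝ)
    (hu : ∀ i, u i ≠ 0)
    (hmem : ∀ x, (∀ i, (∃ y ∈ K, u i x ≤ u i y) ∧ (∃ y ∈ K, u i y ≤ u i x)) → x ∈ K) :
    ∃ D : Finset (EuclideanSpace ℝ (Fin n)), D.card ≤ 2 ^ n ∧ ∀ x ∈ K, ∃ d ∈ D, ∃ ε : ℝ, 0 < ε ∧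
      x + ε • d ∈ interior K := by
  classical
  obtain ⟨x₀, hx₀⟩ := hint
  have hx₀K : x₀ ∈ K := interior_subset hx₀
  have hucont : ∀ i, Continuous (u i) := fun i => (u i).continuous_of_finiteDimensional
  -- extreme values
  have hmaxe : ∀ i, ∃ y ∈ K, ∀ x ∈ K, u i x ≤ u i y := fun i =>
    hKc.exists_isMaxOn ⟨x₀, hx₀K⟩ (hucont i).continuousOn
  have hmine : ∀ i, ∃ y ∈ K, ∀ x ∈ K, u i y ≤ u i x := fun i =>
    hKc.exists_isMinOn ⟨x₀, hx₀K⟩ (hucont i).continuousOn
  choose yM hyM hyM' using hmaxe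
  choose ym hym hym' using hmine
  -- an interior point is strictly between the extreme values
  have hstr : ∀ i, u i (ym i) < u i x₀ ∧ u i x₀ < u i (yM i) := by
    intro i
    obtain ⟨v, hv⟩ : ∃ v, 0 < u i v := by
      by_contra hcon
      push Not at hcon
      apply hu i
      ext v
      have h1 := hcon v
      have h2 := hcon (-v)
      rw [map_neg] at h2
      rw [LinearMap.zero_apply]
      linarith
    have hmove : ∀ w : EuclideanSpace ℝ (Fin n), ∃ ε : ℝ, 0 < ε ∧ x₀ + ε • w ∈ K := by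
      intro w
      have hcont : Filter.Tendsto (fun δ : ℝ => x₀ + δ • w) (nhds 0) (nhds (x₀ + (0 : ℝ) • w)) := by
        apply Continuous.tendsto
        fun_prop
      rw [zero_smul, add_zero] at hcont
      have hev : ∀ᶠ δ : ℝ in nhds 0, x₀ + δ • w ∈ K :=
        hcont.eventually (mem_interior_iff_mem_nhds.1 hx₀)
      have hev' : ∀ᶠ δ : ℝ in nhdsWithin 0 (Set.Ioi 0), x₀ + δ • w ∈ K :=
        hev.filter_mono nhdsWithin_le_nhds
      have hpos' : ∀ᶠ δ : ℝ in nhdsWithin 0 (Set.Ioi 0), δ ∈ Set.Ioi (0 : ℝ) :=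
        self_mem_nhdsWithin
      obtain ⟨δ, h1, h2⟩ := (hev'.and hpos').exists
      exact ⟨δ, h2, h1⟩
    constructor
    · obtain ⟨ε, hε, h⟩ := hmove (-v)
      have h1 := hym' i _ h
      rw [map_add, map_smul, map_neg, smul_eq_mul] at h1
      nlinarith
    · obtain ⟨ε, hε, h⟩ := hmove v
      have h1 := hyM' i _ h
      rw [map_add, map_smul, smul_eq_mul] at h1
      nlinarith
  set A : Fin (n + 2) → ℝ := fun i => u i (ym i) with hA
  set B : Fin (n + 2) → ℝ := fun i => u i (yM i) with hB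
  have hAB : ∀ i, 0 < B i - A i := fun i => by
    have := hstr i
    simp only [hA, hB]
    linarith
  set φ : Fin (n + 2) → EuclideanSpace ℝ (Fin n) →ₗ[ℝ] ℝ := fun i => (2 / (B i - A i)) • u i
    with hφ
  set c : Fin (n + 2) → ℝ := fun i => (A i + B i) / (B i - A i) with hc
  have hφc : ∀ i x, φ i x - c i = (2 * u i x - A i - B i) / (B i - A i) := by
    intro i x
    simp only [hφ, hc, LinearMap.smul_apply, smul_eq_mul]
    have := (hAB i).ne'
    field_simp
    ring
  have habs1 : ∀ i x, |φ i x - c i| ≤ 1 ↔ A i ≤ u i x ∧ u i x ≤ B i := by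
    intro i x
    rw [hφc, abs_le, le_div_iff₀ (hAB i), div_le_iff₀ (hAB i)]
    constructor
    · rintro ⟨h1, h2⟩
      constructor <;> linarith
    · rintro ⟨h1, h2⟩
      constructor <;> linarith
  have hK : ∀ x, x ∈ K ↔ ∀ i, |φ i x - c i| ≤ 1 := by
    intro x
    constructor
    · intro hx i
      rw [habs1]
      exact ⟨hym' i x hx, hyM' i x hx⟩
    · intro h
      apply hmem
      intro i
      have := (habs1 i x).1 (h i)
      exact ⟨⟨_, hyM i, this.2⟩, ⟨_, hym i, this.1⟩⟩
  -- the functionals separate points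
  have hinj : ∀ v, (∀ i, φ i v = 0) → v = 0 := by
    intro v hv
    by_contra hv0
    obtain ⟨R, hR⟩ := hKc.isBounded.exists_norm_le
    have hall : ∀ t : ℝ, x₀ + t • v ∈ K := by
      intro t
      rw [hK]
      intro i
      rw [map_add, map_smul, hv i, smul_zero, add_zero]
      exact (hK x₀).1 hx₀K i
    have hvn : 0 < ‖v‖ := norm_pos_iff.2 hv0
    have h1 := hR _ (hall ((R + ‖x₀‖ + 1) / ‖v‖))
    have h2 : ‖((R + ‖x₀‖ + 1) / ‖v‖) • v‖ ≤ ‖x₀ + ((R + ‖x₀‖ + 1) / ‖v‖) • v‖ + ‖x₀‖ := by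
      have := norm_sub_le (x₀ + ((R + ‖x₀‖ + 1) / ‖v‖) • v) x₀
      rwa [add_sub_cancel_left] at this
    have hR0 : 0 ≤ R := (norm_nonneg _).trans (hR _ hx₀K)
    rw [norm_smul, Real.norm_eq_abs, abs_of_nonneg (by positivity), div_mul_cancel₀ _ hvn.ne'] at h2
    linarith
  obtain ⟨e, he, hsurj, hinj', hcoef⟩ :=
    auerbach (EuclideanSpace.basisFun (Fin n) ℝ).toBasis φ hinj
  -- the two other indices
  obtain ⟨p, q, hpq, hcompl⟩ : ∃ p q, p ≠ q ∧ (Finset.univ.image e)ᶜ = {p, q} := by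
    apply Finset.card_eq_two.1
    rw [Finset.card_compl, Finset.card_image_of_injective _ he]
    simp
  have hidx : ∀ i, (∃ j, e j = i) ∨ i = p ∨ i = q := by
    intro i
    by_cases h : i ∈ (Finset.univ.image e)ᶜ
    · rw [hcompl] at h
      simpa using Or.inr h
    · left
      rw [Finset.mem_compl, not_not, Finset.mem_image] at h
      obtain ⟨j, -, hj⟩ := h
      exact ⟨j, hj⟩
  obtain ⟨α, hα, hP⟩ := hcoef p
  obtain ⟨β, hβ, hQ⟩ := hcoef q
  have hKb : K = body (fun j => φ (e j)) (fun j => c (e j)) (φ p) (φ q) (c p) (c q) := by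
    ext x
    rw [hK]
    simp only [body, Set.mem_ofPred_eq]
    constructor
    · intro h
      exact ⟨fun l => h _, h _, h _⟩
    · rintro ⟨h1, h2, h3⟩ i
      rcases hidx i with ⟨j, rfl⟩ | rfl | rfl
      · exact h1 j
      · exact h2
      · exact h3
  have hstrict : x₀ ∈ strict (fun j => φ (e j)) (fun j => c (e j)) (φ p) (φ q) (c p) (c q) := by
    have : ∀ i, |φ i x₀ - c i| < 1 := by
      intro i
      rw [hφc, abs_lt, lt_div_iff₀ (hAB i), div_lt_iff₀ (hAB i)]
      have := hstr i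
      simp only [hA, hB]
      constructor <;> linarith
    exact ⟨fun l => this _, this _, this _⟩
  have htight : ∀ i, ∀ π : ℝ, π = 1 ∨ π = -1 → ∃ x ∈ K, π * (φ i x - c i) = -1 := by
    rintro i π (rfl | rfl)
    · refine ⟨ym i, hym i, ?_⟩
      rw [hφc, one_mul, div_eq_iff (hAB i).ne']
      simp only [hA, hB]
      ring
    · refine ⟨yM i, hyM i, ?_⟩
      rw [hφc, neg_one_mul, neg_inj, div_eq_iff (hAB i).ne']
      simp only [hA, hB]
      ring
  obtain ⟨D, hD, hDK⟩ := illum (fun j => φ (e j)) (fun j => c (e j)) (φ p) (φ q) (c p) (c q) α β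
    hα hβ hP hQ hsurj hinj' hstrict (by rw [← hKb]; exact htight p) (by rw [← hKb]; exact htight q)
  rw [← hKb] at hDK
  exact ⟨D, hD, hDK⟩

theorem slab_illum {n : ℕ} (K : Set (EuclideanSpace ℝ (Fin n))) (hKc : IsCompact K)
    (hint : (interior K).Nonempty) (u : Fin (n + 2) → EuclideanSpace ℝ (Fin n) →ₗ[ℝ] ℝ)
    (hmem : ∀ x, (∀ i, (∃ y ∈ K, u i x ≤ u i y) ∧ (∃ y ∈ K, u i y ≤ u i x)) → x ∈ K) :
    ∃ D : Finset (EuclideanSpace ℝ (Fin n)), D.card ≤ 2 ^ n ∧ ∀ x ∈ K, ∃ d ∈ D, ∃ ε : ℝ, 0 < ε ∧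
      x + ε • d ∈ interior K := by
  classical
  obtain ⟨x₀, hx₀⟩ := hint
  rcases Nat.eq_zero_or_pos n with rfl | hn
  · refine ⟨{0}, by simp, ?_⟩
    intro x _
    refine ⟨0, by simp, 1, one_pos, ?_⟩
    rw [Subsingleton.elim (x + (1 : ℝ) • (0 : EuclideanSpace ℝ (Fin 0))) x₀]
    exact hx₀
  · obtain ⟨i₀, hi₀⟩ : ∃ i, u i ≠ 0 := by
      by_contra hcon
      push Not at hcon
      have huniv : K = Set.univ := by
        rw [Set.eq_univ_iff_forall]
        intro x
        apply hmem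
        intro i
        rw [hcon i]
        exact ⟨⟨x₀, interior_subset hx₀, by simp⟩, ⟨x₀, interior_subset hx₀, by simp⟩⟩
      haveI : Nonempty (Fin n) := ⟨⟨0, hn⟩⟩
      haveI : Nontrivial (EuclideanSpace ℝ (Fin n)) := by
        apply Module.nontrivial_of_finrank_pos (R := ℝ)
        rw [finrank_euclideanSpace, Fintype.card_fin]
        exact hn
      haveI : NoncompactSpace (EuclideanSpace ℝ (Fin n)) := NormedSpace.noncompactSpace ℝ _
      exact hKc.ne_univ huniv
    refine slab_illum_aux hn K hKc ⟨x₀, hx₀⟩ (fun i => if u i = 0 then u i₀ else u i) ?_ ?_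
    · intro i
      split_ifs with h
      · exact hi₀
      · exact h
    · intro x hx
      apply hmem
      intro i
      by_cases h : u i = 0
      · rw [h]
        exact ⟨⟨x₀, interior_subset hx₀, by simp⟩, ⟨x₀, interior_subset hx₀, by simp⟩⟩
      · have := hx i
        simp only [if_neg h] at this
        exact this

end Pool.Agent.TH154.Slab
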