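import Pool.Agent.TH154.Slab

set_option autoImplicit false

/-!
Intersections of `n + 2` slabs in `ℝ^n`: illumination of the normalised body.
-/

namespace Pool.Agent.TH154.Slab

section

variable {n : ℕ} {E : Type*} [NormedAddCommGroup E] [NormedSpace ℝ E] [FiniteDimensional ℝ E]
  (V : Fin n → E →ₗ[ℝ] ℝ) (c : Fin n → ℝ) (P Q : E →ₗ[ℝ] ℝ) (cp cq : ℝ)

def body : Set E := {x | (∀ l, |V l x - c l| ≤ 1) ∧ |P x - cp| ≤ 1 ∧ |Q x - cq| ≤ 1}

def strict : Set E := {x | (∀ l, |V l x - c l| < 1) ∧ |P x - cp| < 1 ∧ |Q x - cq| < 1}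

theorem strict_subset_interior : strict V c P Q cp cq ⊆ interior (body V c P Q cp cq) := by
  apply interior_maximal
  · intro x hx
    exact ⟨fun l => (hx.1 l).le, hx.2.1.le, hx.2.2.le⟩
  · have hV : ∀ f : E →ₗ[ℝ] ℝ, ∀ a : ℝ, IsOpen {x : E | |f x - a| < 1} := by
      intro f a
      have hf : Continuous f := f.continuous_of_finiteDimensional
      exact isOpen_lt (by fun_prop) continuous_const
    have e : strict V c P Q cp cq = (⋂ l, {x : E | |V l x - c l| < 1}) ∩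
        ({x : E | |P x - cp| < 1} ∩ {x : E | |Q x - cq| < 1}) := by
      ext x
      simp only [strict, Set.mem_ofPred_eq, Set.mem_inter_iff, Set.mem_iInter]
    rw [e]
    exact (isOpen_iInter_of_finite fun l => hV _ _).inter ((hV _ _).inter (hV _ _))

theorem strict_mix {x₀ x₁ : E} (h₀ : x₀ ∈ strict V c P Q cp cq) (h₁ : x₁ ∈ body V c P Q cp cq)
    {t : ℝ} (ht : 0 < t) (ht1 : t ≤ 1) : (1 - t) • x₁ + t • x₀ ∈ strict V c P Q cp cq := by
  have key : ∀ (f : E →ₗ[ℝ] ℝ) (a : ℝ), |f x₀ - a| < 1 → |f x₁ - a| ≤ 1 →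
      |f ((1 - t) • x₁ + t • x₀) - a| < 1 := by
    intro f a h0 h1
    rw [map_add, map_smul, map_smul, smul_eq_mul, smul_eq_mul]
    rw [abs_lt] at h0 ⊢
    rw [abs_le] at h1
    constructor <;> nlinarith
  exact ⟨fun l => key _ _ (h₀.1 l) (h₁.1 l), key _ _ h₀.2.1 h₁.2.1, key _ _ h₀.2.2 h₁.2.2⟩

theorem near {x₀ x₁ : E} (h₀ : x₀ ∈ strict V c P Q cp cq) (h₁ : x₁ ∈ body V c P Q cp cq)
    (f : E →ₗ[ℝ] ℝ) (a π : ℝ) (hf₀ : π * (f x₀ - a) < 1) (hf₁ : π * (f x₁ - a) = -1)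
    {κ : ℝ} (hκ : 0 < κ) : ∃ w ∈ strict V c P Q cp cq, π * (f w - a) < -1 + κ := by
  refine ⟨(1 - min 1 (κ / 2)) • x₁ + (min 1 (κ / 2)) • x₀,
    strict_mix V c P Q cp cq h₀ h₁ (by positivity) (min_le_left _ _), ?_⟩
  have h1 : min 1 (κ / 2) ≤ κ / 2 := min_le_right _ _
  have h2 : 0 < min 1 (κ / 2) := by positivity
  rw [map_add, map_smul, map_smul, smul_eq_mul, smul_eq_mul]
  have e : π * ((1 - min 1 (κ / 2)) * f x₁ + min 1 (κ / 2) * f x₀ - a) =
      (1 - min 1 (κ / 2)) * (π * (f x₁ - a)) + min 1 (κ / 2) * (π * (f x₀ - a)) := by ring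
  rw [e, hf₁]
  nlinarith

theorem exists_dir {x₀ : E} (h₀ : x₀ ∈ strict V c P Q cp cq)
    (hPt : ∀ π : ℝ, π = 1 ∨ π = -1 → ∃ x ∈ body V c P Q cp cq, π * (P x - cp) = -1)
    (hQt : ∀ σ : ℝ, σ = 1 ∨ σ = -1 → ∃ x ∈ body V c P Q cp cq, σ * (Q x - cq) = -1)
    (z : E) (hz : ∀ l, V l z - c l = 1 ∨ V l z - c l = -1) :
    ∃ d : E, (∀ l, (V l z - c l) * V l d < 0) ∧ ((P z - cp ≠ 0 ∨ Q z - cq ≠ 0) →
      sp (P z - cp) (Q z - cq) * P d < 0 ∧ sq (P z - cp) (Q z - cq) * Q d < 0) := by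
  have hsgn : ∀ π : ℝ, π = 1 ∨ π = -1 → ∀ x : ℝ, |x| < 1 → π * x < 1 ∧ -1 < π * x := by
    intro π hπ x hx
    rw [abs_lt] at hx
    rcases hπ with rfl | rfl <;> constructor <;> linarith
  have hVd : ∀ w₁ w₂ : E, w₁ ∈ strict V c P Q cp cq → w₂ ∈ strict V c P Q cp cq →
      ∀ l, (V l z - c l) * V l (w₁ + w₂ - (2 : ℝ) • z) < 0 := by
    intro w₁ w₂ h1 h2 l
    rw [map_sub, map_add, map_smul, smul_eq_mul]
    have h3 := abs_lt.1 (h1.1 l)
    have h4 := abs_lt.1 (h2.1 l)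
    rcases hz l with h | h
    · rw [h]
      linarith
    · rw [h]
      linarith
  by_cases hne : P z - cp ≠ 0 ∨ Q z - cq ≠ 0
  swap
  · exact ⟨x₀ + x₀ - (2 : ℝ) • z, hVd _ _ h₀ h₀, fun h => absurd h hne⟩
  set X := P z - cp with hX
  set Y := Q z - cq with hY
  set π := sp X Y with hπ
  set σ := sq X Y with hσ
  have hπ' : π = 1 ∨ π = -1 := sp_cases X Y
  have hσ' : σ = 1 ∨ σ = -1 := sq_cases X Y
  have hπX : 0 ≤ π * X := sp_mul_nonneg X Y
  have hσY : 0 ≤ σ * Y := sq_mul_nonneg X Y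
  obtain ⟨xP, hxP, hxP1⟩ := hPt π hπ'
  obtain ⟨xQ, hxQ, hxQ1⟩ := hQt σ hσ'
  have ePd : ∀ w₁ w₂ : E, π * P (w₁ + w₂ - (2 : ℝ) • z) =
      π * (P w₁ - cp) + π * (P w₂ - cp) - 2 * (π * X) := by
    intro w₁ w₂
    rw [map_sub, map_add, map_smul, smul_eq_mul, hX]
    ring
  have eQd : ∀ w₁ w₂ : E, σ * Q (w₁ + w₂ - (2 : ℝ) • z) =
      σ * (Q w₁ - cq) + σ * (Q w₂ - cq) - 2 * (σ * Y) := by
    intro w₁ w₂
    rw [map_sub, map_add, map_smul, smul_eq_mul, hY]
    ring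
  have hpos : 0 < π * X ∨ 0 < σ * Y := by
    rcases hne with h | h
    · left
      refine lt_of_le_of_ne hπX (Ne.symm (mul_ne_zero ?_ h))
      rcases hπ' with h' | h' <;> rw [h'] <;> norm_num
    · right
      refine lt_of_le_of_ne hσY (Ne.symm (mul_ne_zero ?_ h))
      rcases hσ' with h' | h' <;> rw [h'] <;> norm_num
  rcases hpos with hp | hp
  · obtain ⟨wP, hwP, hwP1⟩ := near V c P Q cp cq h₀ hxP P cp π (hsgn π hπ' _ h₀.2.1).1 hxP1
      (κ := 2 * (π * X)) (by linarith)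
    have h1 := (hsgn σ hσ' _ hwP.2.2).1
    obtain ⟨wQ, hwQ, hwQ1⟩ := near V c P Q cp cq h₀ hxQ Q cq σ (hsgn σ hσ' _ h₀.2.2).1 hxQ1
      (κ := 1 - σ * (Q wP - cq)) (by linarith)
    have h2 := (hsgn π hπ' _ hwQ.2.1).1
    refine ⟨wP + wQ - (2 : ℝ) • z, hVd _ _ hwP hwQ, fun _ => ⟨?_, ?_⟩⟩
    · rw [ePd]
      linarith
    · rw [eQd]
      linarith
  · obtain ⟨wQ, hwQ, hwQ1⟩ := near V c P Q cp cq h₀ hxQ Q cq σ (hsgn σ hσ' _ h₀.2.2).1 hxQ1
      (κ := 2 * (σ * Y)) (by linarith)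
    have h1 := (hsgn π hπ' _ hwQ.2.1).1
    obtain ⟨wP, hwP, hwP1⟩ := near V c P Q cp cq h₀ hxP P cp π (hsgn π hπ' _ h₀.2.1).1 hxP1
      (κ := 1 - π * (P wQ - cp)) (by linarith)
    have h2 := (hsgn σ hσ' _ hwP.2.2).1
    refine ⟨wP + wQ - (2 : ℝ) • z, hVd _ _ hwP hwQ, fun _ => ⟨?_, ?_⟩⟩
    · rw [ePd]
      linarith
    · rw [eQd]
      linarith

/-- moving a little bit -/
theorem move {x d : E} (hx : x ∈ body V c P Q cp cq)
    (hV : ∀ l, |V l x - c l| = 1 → (V l x - c l) * V l d < 0)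
    (hP : |P x - cp| = 1 → (P x - cp) * P d < 0) (hQ : |Q x - cq| = 1 → (Q x - cq) * Q d < 0) :
    ∃ ε : ℝ, 0 < ε ∧ x + ε • d ∈ interior (body V c P Q cp cq) := by
  have key : ∀ (f : E →ₗ[ℝ] ℝ) (a : ℝ), |f x - a| ≤ 1 → (|f x - a| = 1 → (f x - a) * f d < 0) →
      ∀ᶠ ε : ℝ in nhdsWithin 0 (Set.Ioi 0), |f (x + ε • d) - a| < 1 := by
    intro f a h1 h2
    have e : ∀ ε : ℝ, f (x + ε • d) - a = (f x - a) + ε * f d := by
      intro ε
      rw [map_add, map_smul, smul_eq_mul]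
      ring
    simp only [e]
    by_cases h : |f x - a| = 1
    · have h3 := h2 h
      have hfd : 0 < |f d| := by
        rw [abs_pos]
        intro h0
        rw [h0, mul_zero] at h3
        exact lt_irrefl _ h3
      have hev : ∀ᶠ ε : ℝ in nhdsWithin 0 (Set.Ioi 0), ε < 1 / |f d| :=
        (gt_mem_nhds (show (0 : ℝ) < 1 / |f d| by positivity)).filter_mono nhdsWithin_le_nhds
      filter_upwards [self_mem_nhdsWithin, hev] with ε hε hε'
      have h0 : (0 : ℝ) < ε := hε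
      rw [lt_div_iff₀ hfd] at hε'
      rw [abs_lt]
      rcases abs_choice (f x - a) with h4 | h4 <;> rw [h4] at h
      · rw [h] at h3 ⊢
        rw [abs_of_neg (by linarith)] at hε'
        constructor <;> nlinarith
      · have h5 : f x - a = -1 := by linarith
        rw [h5] at h3 ⊢
        rw [abs_of_pos (by linarith)] at hε'
        constructor <;> nlinarith
    · have hlt : |f x - a| < 1 := lt_of_le_of_ne h1 h
      have hc : Filter.Tendsto (fun ε : ℝ => |(f x - a) + ε * f d|) (nhds 0)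
          (nhds |(f x - a) + 0 * f d|) := by
        apply Continuous.tendsto
        fun_prop
      rw [zero_mul, add_zero] at hc
      exact (hc.eventually (gt_mem_nhds hlt)).filter_mono nhdsWithin_le_nhds
  have h1 : ∀ᶠ ε : ℝ in nhdsWithin 0 (Set.Ioi 0), ∀ l, |V l (x + ε • d) - c l| < 1 := by
    rw [Filter.eventually_all]
    exact fun l => key _ _ (hx.1 l) (hV l)
  have hpos : ∀ᶠ ε : ℝ in nhdsWithin 0 (Set.Ioi 0), ε ∈ Set.Ioi (0 : ℝ) := self_mem_nhdsWithin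
  obtain ⟨ε, ⟨⟨h1, h2⟩, h3⟩, h4⟩ :=
    (((h1.and (key _ _ hx.2.1 hP)).and (key _ _ hx.2.2 hQ)).and hpos).exists
  exact ⟨ε, h4, strict_subset_interior V c P Q cp cq ⟨h1, h2, h3⟩⟩

/-- illumination of the normalised body -/
theorem illum (α β : Fin n → ℝ) (hα : ∀ l, |α l| ≤ 1) (hβ : ∀ l, |β l| ≤ 1)
    (hP : ∀ x, P x = ∑ l, α l * V l x) (hQ : ∀ x, Q x = ∑ l, β l * V l x)
    (hsurj : ∀ d : Fin n → ℝ, ∃ x, ∀ l, V l x = d l) (hinj : ∀ x, (∀ l, V l x = 0) → x = 0)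
    {x₀ : E} (h₀ : x₀ ∈ strict V c P Q cp cq)
    (hPt : ∀ π : ℝ, π = 1 ∨ π = -1 → ∃ x ∈ body V c P Q cp cq, π * (P x - cp) = -1)
    (hQt : ∀ σ : ℝ, σ = 1 ∨ σ = -1 → ∃ x ∈ body V c P Q cp cq, σ * (Q x - cq) = -1) :
    ∃ D : Finset E, D.card ≤ 2 ^ n ∧ ∀ x ∈ body V c P Q cp cq, ∃ d ∈ D, ∃ ε : ℝ, 0 < ε ∧
      x + ε • d ∈ interior (body V c P Q cp cq) := by
  classical
  -- the points with coordinates `± 1`
  have hpt : ∀ η : Fin n → Bool, ∃ z : E, ∀ l, V l z = c l + (if η l then 1 else -1) :=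
    fun η => hsurj _
  choose pt hpt using hpt
  have hpt' : ∀ η l, V l (pt η) - c l = 1 ∨ V l (pt η) - c l = -1 := by
    intro η l
    rw [hpt]
    by_cases h : η l = true
    · left
      rw [if_pos h]
      ring
    · right
      rw [if_neg h]
      ring
  choose dir hdV hdPQ using fun η => exists_dir V c P Q cp cq h₀ hPt hQt (pt η) (hpt' η)
  refine ⟨Finset.univ.image dir, ?_, ?_⟩
  · refine Finset.card_image_le.trans ?_
    rw [Finset.card_univ, Fintype.card_fun, Fintype.card_bool, Fintype.card_fin]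
  · intro x hx
    -- a vertex of the minimal face
    obtain ⟨y, hy, hyx, hyv⟩ := exists_vertex (I := Fin n ⊕ Bool)
      (Sum.elim V fun b => if b then P else Q) (Sum.elim c fun b => if b then cp else cq)
      (fun v hv => hinj v fun l => hv (Sum.inl l)) x (by
        rintro (l | b)
        · exact hx.1 l
        · cases b
          · exact hx.2.2
          · exact hx.2.1)
    have hyV : ∀ l, |V l y - c l| ≤ 1 := fun l => hy (Sum.inl l)
    obtain ⟨z, hz1, hz2, hz3, hz4⟩ := exists_round V c P Q cp cq α β hα hβ hP hQ hsurj y hyV (by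
      intro v h1 h2 h3
      apply hyv v
      rintro (l | b) h
      · exact h1 l h
      · cases b
        · exact h3 h
        · exact h2 h)
    -- the sign vector
    set η : Fin n → Bool := fun l => decide (V l z - c l = 1) with hη
    have hηz : ∀ l, V l (pt η) = V l z := by
      intro l
      rw [hpt]
      by_cases h : V l z - c l = 1
      · rw [if_pos (by simpa [hη] using h)]
        linarith
      · rw [if_neg (by simpa [hη] using h)]
        rcases hz1 l with h' | h'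
        · exact absurd h' h
        · linarith
    have hPz : P (pt η) = P z := by
      rw [hP, hP]
      exact Finset.sum_congr rfl fun l _ => by rw [hηz]
    have hQz : Q (pt η) = Q z := by
      rw [hQ, hQ]
      exact Finset.sum_congr rfl fun l _ => by rw [hηz]
    have hd := hdPQ η
    rw [hPz, hQz] at hd
    refine ⟨dir η, Finset.mem_image_of_mem _ (Finset.mem_univ _), ?_⟩
    refine move V c P Q cp cq hx ?_ ?_ ?_
    · intro l hl
      have e1 : V l y = V l x := hyx (Sum.inl l) hl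
      have e2 : V l z = V l y := hz2 l (by rw [e1]; exact hl)
      have := hdV η l
      rw [hηz, e2, e1] at this
      exact this
    · intro hl
      have e1 : P y = P x := hyx (Sum.inr true) hl
      obtain ⟨h1, h2⟩ := hz3 (by rw [e1]; exact hl)
      have := (hd h1).1
      rw [h2, e1] at this
      exact this
    · intro hl
      have e1 : Q y = Q x := hyx (Sum.inr false) hl
      obtain ⟨h1, h2⟩ := hz4 (by rw [e1]; exact hl)
      have := (hd h1).2
      rw [h2, e1] at this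
      exact this

end

end Pool.Agent.TH154.Slab
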