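import Pool.Agent.TH154.SlabFinal

set_option autoImplicit false

/-!
The polar form of the slab theorem: separation of the faces of a convex body whose extreme points
lie on `n + 2` lines through a given interior point.
-/

open scoped InnerProductSpace

namespace Pool.Agent.TH154.SlabPolar

variable {n : ℕ}

/-- Euclidean space of dimension `n` -/
abbrev Eu (n : ℕ) : Type := EuclideanSpace ℝ (Fin n)

/-- the polar body with respect to `o` -/
def pol (K : Set (Eu n)) (o : Eu n) : Set (Eu n) := {w | ∀ x ∈ K, ⟪w, x - o⟫_ℝ ≤ 1}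

theorem pol_compact (K : Set (Eu n)) (o : Eu n) (ho : o ∈ interior K) : IsCompact (pol K o) := by
  rw [mem_interior_iff_mem_nhds, Metric.mem_nhds_iff] at ho
  obtain ⟨r, hr, hrK⟩ := ho
  rw [Metric.isCompact_iff_isClosed_bounded]
  constructor
  · have e : pol K o = ⋂ x ∈ K, {w : (Eu n) | ⟪w, x - o⟫_ℝ ≤ 1} := by
      ext w
      simp [pol]
    rw [e]
    refine isClosed_biInter fun x _ => ?_
    exact isClosed_le (by fun_prop) continuous_const
  · refine (Metric.isBounded_closedBall (x := (0 : Eu n)) (r := 2 / r)).subset ?_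
    intro w hw
    rw [mem_closedBall_zero_iff]
    by_cases h0 : w = 0
    · rw [h0, norm_zero]
      positivity
    have hn : 0 < ‖w‖ := norm_pos_iff.2 h0
    have hx : o + (r / 2 / ‖w‖) • w ∈ K := by
      apply hrK
      rw [Metric.mem_ball, dist_eq_norm, add_sub_cancel_left, norm_smul, Real.norm_eq_abs,
        abs_of_pos (by positivity), div_mul_cancel₀ _ hn.ne']
      linarith
    have h1 := hw _ hx
    rw [add_sub_cancel_left, real_inner_smul_right, real_inner_self_eq_norm_sq] at h1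
    rw [le_div_iff₀ hr]
    have h2 : r / 2 / ‖w‖ * ‖w‖ ^ 2 = r / 2 * ‖w‖ := by
      field_simp
    rw [h2] at h1
    linarith

theorem pol_interior (K : Set (Eu n)) (hK : IsCompact K) (o : Eu n) : (interior (pol K o)).Nonempty := by
  obtain ⟨R, hR⟩ := hK.isBounded.exists_norm_le
  set R' : ℝ := |R| + ‖o‖ + 1 with hR'
  have hR0 : 0 < R' := by positivity
  refine ⟨0, ?_⟩
  rw [mem_interior_iff_mem_nhds, Metric.mem_nhds_iff]
  refine ⟨1 / R', by positivity, ?_⟩
  intro w hw x hx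
  rw [mem_ball_zero_iff] at hw
  have h1 : ‖x - o‖ ≤ R' := by
    have h2 := norm_sub_le x o
    have h3 := hR x hx
    have h4 := le_abs_self R
    rw [hR']
    linarith
  calc ⟪w, x - o⟫_ℝ ≤ ‖w‖ * ‖x - o‖ := real_inner_le_norm _ _
    _ ≤ (1 / R') * R' := by
        apply mul_le_mul hw.le h1 (norm_nonneg _) (by positivity)
    _ = 1 := by
        field_simp

/-- a strict inequality at interior points of the polar body -/
theorem lt_of_interior (K : Set (Eu n)) (o w x : Eu n) (hw : w ∈ interior (pol K o)) (hx : x ∈ K)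
    (hxo : x ≠ o) : ⟪w, x - o⟫_ℝ < 1 := by
  have hcont : Filter.Tendsto (fun δ : ℝ => w + δ • (x - o)) (nhds 0)
      (nhds (w + (0 : ℝ) • (x - o))) := by
    apply Continuous.tendsto
    fun_prop
  rw [zero_smul, add_zero] at hcont
  have hev : ∀ᶠ δ : ℝ in nhds 0, w + δ • (x - o) ∈ pol K o :=
    hcont.eventually (mem_interior_iff_mem_nhds.1 hw)
  have hev' : ∀ᶠ δ : ℝ in nhdsWithin 0 (Set.Ioi 0), w + δ • (x - o) ∈ pol K o :=
    hev.filter_mono nhdsWithin_le_nhds
  have hpos : ∀ᶠ δ : ℝ in nhdsWithin 0 (Set.Ioi 0), δ ∈ Set.Ioi (0 : ℝ) := self_mem_nhdsWithin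
  obtain ⟨δ, h1, h2⟩ := (hev'.and hpos).exists
  have h3 := h1 x hx
  rw [inner_add_left, real_inner_smul_left, real_inner_self_eq_norm_sq] at h3
  have h4 : 0 < ‖x - o‖ := norm_pos_iff.2 (sub_ne_zero.2 hxo)
  have h5 : 0 < δ * ‖x - o‖ ^ 2 := mul_pos h2 (by positivity)
  linarith

/-- there are only finitely many extreme points -/
theorem finite_ext {N : ℕ} [Nonempty (Fin N)] (K : Set (Eu n)) (o : Eu n) (ho : o ∈ interior K)
    (u : Fin N → (Eu n)) (hext : ∀ x ∈ K.extremePoints ℝ, ∃ i, ∃ t : ℝ, x = o + t • u i) :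
    (K.extremePoints ℝ).Finite := by
  classical
  have hoK : o ∈ K := interior_subset ho
  have key : ∀ x ∈ K.extremePoints ℝ, ∀ y ∈ K.extremePoints ℝ, ∀ (v : Eu n) (a b : ℝ),
      x = o + a • v → y = o + b • v → (0 < a * b) → |a| < |b| → x = y := by
    intro x hx y hy v a b ha hb hab hlt
    have hb0 : b ≠ 0 := by
      rintro rfl
      simp at hab
    have hr : 0 < a / b := by
      rw [div_eq_mul_inv]
      have : a * b⁻¹ = a * b * (b⁻¹ * b⁻¹) := by
        field_simp
      rw [this]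
      exact mul_pos hab (mul_self_pos.2 (inv_ne_zero hb0))
    have hr1 : a / b < 1 := by
      have h1 : |a / b| < 1 := by
        rw [abs_div, div_lt_one (abs_pos.2 hb0)]
        exact hlt
      exact (abs_lt.1 h1).2
    have hseg : x ∈ openSegment ℝ o y := by
      refine ⟨1 - a / b, a / b, by linarith, hr, by ring, ?_⟩
      rw [ha, hb, smul_add, smul_smul, div_mul_cancel₀ _ hb0, ← add_assoc, ← add_smul]
      rw [sub_add_cancel, one_smul]
    have h1 : o = x := (mem_extremePoints.1 hx).2 o hoK y hy.1 hseg |>.1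
    have h2 : a • v = 0 := by
      rw [ha] at h1
      simpa using h1.symm
    rcases smul_eq_zero.1 h2 with h | h
    · rw [h] at hab
      simp at hab
    · rw [ha, hb, h, smul_zero, smul_zero]
  have hext' : ∀ x : Eu n, ∃ p : Fin N × ℝ, x ∈ K.extremePoints ℝ → x = o + p.2 • u p.1 := by
    intro x
    by_cases hx : x ∈ K.extremePoints ℝ
    · obtain ⟨i, t, h⟩ := hext x hx
      exact ⟨(i, t), fun _ => h⟩
    · exact ⟨(Classical.arbitrary _, 0), fun h => absurd h hx⟩
  choose p hp using hext'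
  refine Set.Finite.of_injOn (f := fun x => ((p x).1, SignType.sign (p x).2))
    (Set.mapsTo_univ _ _) ?_ Set.finite_univ
  intro x hx y hy hxy
  simp only [Prod.mk.injEq] at hxy
  obtain ⟨h1, h2⟩ := hxy
  have hxe := hp x hx
  have hye := hp y hy
  rw [← h1] at hye
  have main : 0 < (p x).2 * (p y).2 → x = y := by
    intro hab
    rcases lt_trichotomy |(p x).2| |(p y).2| with h | h | h
    · exact key x hx y hy _ _ _ hxe hye hab h
    · have : (p x).2 = (p y).2 := by
        rcases abs_eq_abs.1 h with h' | h'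
        · exact h'
        · rw [h'] at hab
          nlinarith [mul_self_nonneg (p y).2]
      rw [hxe, hye, this]
    · exact (key y hy x hx _ _ _ hye hxe (by rw [mul_comm]; exact hab) h).symm
  rcases lt_trichotomy (p x).2 0 with h | h | h
  · rw [sign_neg h] at h2
    have h3 : (p y).2 < 0 := sign_eq_neg_one_iff.1 h2.symm
    exact main (mul_pos_of_neg_of_neg h h3)
  · rw [h, sign_zero] at h2
    have h3 : (p y).2 = 0 := sign_eq_zero_iff.1 h2.symm
    rw [hxe, hye, h, h3]
  · rw [sign_pos h] at h2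
    have h3 : 0 < (p y).2 := sign_eq_one_iff.1 h2.symm
    exact main (mul_pos h h3)

/-- Krein-Milman for the half space of a functional -/
theorem subset_halfspace (F : Set (Eu n)) (hFc : IsCompact F) (hF : Convex ℝ F) (v : Eu n) (a : ℝ)
    (h : ∀ x ∈ F.extremePoints ℝ, a ≤ ⟪v, x⟫_ℝ) : ∀ x ∈ F, a ≤ ⟪v, x⟫_ℝ := by
  intro x hx
  rw [← closure_convexHull_extremePoints hFc hF] at hx
  have hcl : IsClosed {x : (Eu n) | a ≤ ⟪v, x⟫_ℝ} := isClosed_le continuous_const (by fun_prop)
  have hcv : Convex ℝ {x : (Eu n) | a ≤ ⟪v, x⟫_ℝ} := by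
    intro y hy z hz s t hs ht hst
    simp only [Set.mem_ofPred_eq] at hy hz ⊢
    rw [inner_add_right, real_inner_smul_right, real_inner_smul_right]
    have h1 := mul_le_mul_of_nonneg_left hy hs
    have h2 := mul_le_mul_of_nonneg_left hz ht
    have h3 : s * a + t * a = a := by rw [← add_mul, hst, one_mul]
    linarith
  exact closure_minimal (convexHull_min h hcv) hcl hx

theorem ext_face (K : Set (Eu n)) (w x₀ : Eu n) (hmax : ∀ y ∈ K, ⟪w, y⟫_ℝ ≤ ⟪w, x₀⟫_ℝ) :
    Set.extremePoints ℝ {x | x ∈ K ∧ ⟪w, x⟫_ℝ = ⟪w, x₀⟫_ℝ} ⊆ K.extremePoints ℝ := by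
  intro x hx
  rw [mem_extremePoints] at hx ⊢
  refine ⟨hx.1.1, fun y hy z hz hseg => ?_⟩
  obtain ⟨s, t, hs, ht, hst, hxe⟩ := id hseg
  have h1 := hx.1.2
  rw [← hxe, inner_add_right, real_inner_smul_right, real_inner_smul_right] at h1
  have hy1 := hmax y hy
  have hz1 := hmax z hz
  have hy2 : ⟪w, y⟫_ℝ = ⟪w, x₀⟫_ℝ := by
    apply le_antisymm hy1
    have : t = 1 - s := by linarith
    subst this
    nlinarith
  have hz2 : ⟪w, z⟫_ℝ = ⟪w, x₀⟫_ℝ := by
    apply le_antisymm hz1
    have : s = 1 - t := by linarith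
    subst this
    nlinarith
  exact hx.2 y ⟨hy, hy2⟩ z ⟨hz, hz2⟩ hseg

theorem separation (K : Set (Eu n)) (hKc : IsCompact K) (hK : Convex ℝ K) (o : Eu n)
    (ho : o ∈ interior K) (u : Fin (n + 2) → (Eu n))
    (hext : ∀ x ∈ K.extremePoints ℝ, ∃ i, ∃ t : ℝ, x = o + t • u i) :
    ∃ H : Finset ((Eu n) × ℝ), H.card ≤ 2 ^ n ∧ (∀ h ∈ H, h.1 ≠ 0 ∧ ⟪h.1, o⟫_ℝ < h.2) ∧
      ∀ w x₀ : Eu n, w ≠ 0 → x₀ ∈ K → (∀ y ∈ K, ⟪w, y⟫_ℝ ≤ ⟪w, x₀⟫_ℝ) →
        ∃ h ∈ H, ∀ x ∈ K, ⟪w, x⟫_ℝ = ⟪w, x₀⟫_ℝ → h.2 < ⟪h.1, x⟫_ℝ := by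
  classical
  have hoK : o ∈ K := interior_subset ho
  have hfin := finite_ext K o ho u hext
  -- illumination of the polar body
  obtain ⟨D, hD, hDK⟩ := Slab.slab_illum (pol K o) (pol_compact K o ho) (pol_interior K hKc o)
    (fun i => (innerₛₗ ℝ (u i))) (by
      intro w hw x hx
      have h1 : ∀ x ∈ K.extremePoints ℝ, -1 - ⟪w, o⟫_ℝ ≤ ⟪-w, x⟫_ℝ := by
        intro x hx
        obtain ⟨i, t, hxe⟩ := hext x hx
        obtain ⟨⟨y, hy, hy1⟩, ⟨z, hz, hz1⟩⟩ := hw i
        simp only [innerₛₗ_apply_apply] at hy1 hz1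
        have hxo : ∀ w : Eu n, ⟪w, x - o⟫_ℝ = t * ⟪u i, w⟫_ℝ := by
          intro w
          rw [hxe, add_sub_cancel_left, real_inner_smul_right, real_inner_comm]
        have h2 : ⟪w, x - o⟫_ℝ ≤ 1 := by
          rcases le_total 0 t with ht | ht
          · have h3 := hy x hx.1
            rw [hxo] at h3 ⊢
            nlinarith
          · have h3 := hz x hx.1
            rw [hxo] at h3 ⊢
            nlinarith
        rw [inner_sub_right] at h2
        rw [inner_neg_left]
        linarith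
      have h2 := subset_halfspace K hKc hK (-w) _ h1 x hx
      rw [inner_neg_left] at h2
      rw [inner_sub_right]
      linarith)
  -- the gap
  have hgap : ∀ v : Eu n, ∃ g : ℝ, 0 < g ∧ ∀ e ∈ K.extremePoints ℝ, ⟪v, e - o⟫_ℝ < 0 →
      ⟪v, e - o⟫_ℝ ≤ -g := by
    intro v
    rcases (hfin.toFinset.filter fun e => ⟪v, e - o⟫_ℝ < 0).eq_empty_or_nonempty with h | h
    · refine ⟨1, one_pos, fun e he hlt => ?_⟩
      rw [Finset.filter_eq_empty_iff] at h
      exact absurd hlt (h (hfin.mem_toFinset.2 he))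
    · obtain ⟨e₀, he₀, hmax⟩ := Finset.exists_max_image _ (fun e => ⟪v, e - o⟫_ℝ) h
      rw [Finset.mem_filter] at he₀
      refine ⟨-⟪v, e₀ - o⟫_ℝ, by linarith [he₀.2], fun e he hlt => ?_⟩
      rw [neg_neg]
      exact hmax e (Finset.mem_filter.2 ⟨hfin.mem_toFinset.2 he, hlt⟩)
  choose g hg hg' using hgap
  refine ⟨(D.filter fun v => v ≠ 0).image fun v => (-v, ⟪-v, o⟫_ℝ + g v / 2), ?_, ?_, ?_⟩
  · exact (Finset.card_image_le.trans (Finset.card_filter_le _ _)).trans hD
  · intro h hh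
    rw [Finset.mem_image] at hh
    obtain ⟨v, hv, rfl⟩ := hh
    rw [Finset.mem_filter] at hv
    refine ⟨neg_ne_zero.2 hv.2, ?_⟩
    have := hg v
    simp only
    linarith
  · intro w x₀ hw hx₀ hmax
    -- the value at `o` is smaller
    have hc : 0 < ⟪w, x₀ - o⟫_ℝ := by
      have hcont : Filter.Tendsto (fun δ : ℝ => o + δ • w) (nhds 0) (nhds (o + (0 : ℝ) • w)) := by
        apply Continuous.tendsto
        fun_prop
      rw [zero_smul, add_zero] at hcont
      have hev : ∀ᶠ δ : ℝ in nhds 0, o + δ • w ∈ K :=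
        hcont.eventually (mem_interior_iff_mem_nhds.1 ho)
      have hev' : ∀ᶠ δ : ℝ in nhdsWithin 0 (Set.Ioi 0), o + δ • w ∈ K :=
        hev.filter_mono nhdsWithin_le_nhds
      have hpos : ∀ᶠ δ : ℝ in nhdsWithin 0 (Set.Ioi 0), δ ∈ Set.Ioi (0 : ℝ) :=
        self_mem_nhdsWithin
      obtain ⟨δ, h1, h2⟩ := (hev'.and hpos).exists
      have h3 := hmax _ h1
      rw [inner_add_right, real_inner_smul_right, real_inner_self_eq_norm_sq] at h3
      have h4 : 0 < ‖w‖ := norm_pos_iff.2 hw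
      have h5 : 0 < δ * ‖w‖ ^ 2 := mul_pos h2 (by positivity)
      rw [inner_sub_right]
      linarith
    set c : ℝ := ⟪w, x₀ - o⟫_ℝ with hcdef
    have hw' : c⁻¹ • w ∈ pol K o := by
      intro x hx
      rw [real_inner_smul_left, inv_mul_le_iff₀ hc, mul_one, hcdef, inner_sub_right,
        inner_sub_right]
      linarith [hmax x hx]
    obtain ⟨v, hv, ε, hε, hint⟩ := hDK _ hw'
    -- the face
    have hlt : ∀ x ∈ K, ⟪w, x⟫_ℝ = ⟪w, x₀⟫_ℝ → ⟪v, x - o⟫_ℝ < 0 := by
      intro x hx hxe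
      have h1 : ⟪w, x - o⟫_ℝ = c := by
        rw [hcdef, inner_sub_right, inner_sub_right, hxe]
      have hxo : x ≠ o := by
        rintro rfl
        rw [sub_self, inner_zero_right] at h1
        linarith
      have h2 := lt_of_interior K o _ x hint hx hxo
      rw [inner_add_left, real_inner_smul_left, real_inner_smul_left, h1,
        inv_mul_cancel₀ hc.ne'] at h2
      by_contra hcon
      push Not at hcon
      nlinarith
    have hv0 : v ≠ 0 := by
      rintro rfl
      have := hlt x₀ hx₀ rfl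
      rw [inner_zero_left] at this
      exact lt_irrefl _ this
    refine ⟨_, Finset.mem_image_of_mem _ (Finset.mem_filter.2 ⟨hv, hv0⟩), ?_⟩
    intro x hx hxe
    set F : Set (Eu n) := {x | x ∈ K ∧ ⟪w, x⟫_ℝ = ⟪w, x₀⟫_ℝ} with hF
    have hFc : IsCompact F := by
      have : F = K ∩ {x | ⟪w, x⟫_ℝ = ⟪w, x₀⟫_ℝ} := rfl
      rw [this]
      exact hKc.inter_right (isClosed_eq (by fun_prop) continuous_const)
    have hFv : Convex ℝ F := by
      intro y hy z hz s t hs ht hst
      refine ⟨hK hy.1 hz.1 hs ht hst, ?_⟩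
      rw [inner_add_right, real_inner_smul_right, real_inner_smul_right, hy.2, hz.2, ← add_mul,
        hst, one_mul]
    have h1 := subset_halfspace F hFc hFv (-v) (⟪-v, o⟫_ℝ + g v) (by
      intro e he
      have he1 : e ∈ F := he.1
      have he2 := ext_face K w x₀ hmax he
      have h3 := hg' v e he2 (hlt e he1.1 he1.2)
      rw [inner_sub_right] at h3
      rw [inner_neg_left, inner_neg_left]
      linarith) x ⟨hx, hxe⟩
    have := hg v
    simp only
    linarith

end Pool.Agent.TH154.SlabPolar
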